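import Pool.Agent.Helper363.Nita.Lin

namespace Pool.Agent.Helper363.Nita

variable {G : NG} {n : ℕ}

namespace Arr
variable (A : Arr G n)

/-- level `n - 2` -/
noncomputable def r (j : ℤ) : G.B →₀ ℤ := A.E (n - 2 - j) j

theorem E_nat (a b : ℕ) (h : a + b ≤ n) : A.E a b = bv (A.V a b) := by
  unfold E
  rw [if_pos ⟨by positivity, by positivity, by exact_mod_cast h⟩]
  simp

theorem E_out {a b : ℤ} (h : ¬ (0 ≤ a ∧ 0 ≤ b ∧ a + b ≤ n)) : A.E a b = 0 := by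
  unfold E; rw [if_neg h]

theorem E_ex {a b : ℤ} (h : 0 ≤ a ∧ 0 ≤ b ∧ a + b ≤ n) : ∃ a' b' : ℕ, (a' : ℤ) = a ∧
    (b' : ℤ) = b ∧ a' + b' ≤ n ∧ A.E a b = bv (A.V a' b') := by
  obtain ⟨h1, h2, h3⟩ := h
  lift a to ℕ using h1
  lift b to ℕ using h2
  have h3' : a + b ≤ n := by exact_mod_cast h3
  exact ⟨a, b, rfl, rfl, h3', A.E_nat a b h3'⟩

theorem E_nonneg (a b : ℤ) : 0 ≤ A.E a b := by
  unfold E
  split_ifs
  · intro y
    by_cases h : A.V a.toNat b.toNat = y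
    · subst h; simp [bv]
    · simp [bv, Finsupp.single_apply, h]
  · exact le_refl _

theorem bar_E (a b : ℤ) : G.bar' (A.E a b) = A.E b a := by
  by_cases h : 0 ≤ a ∧ 0 ≤ b ∧ a + b ≤ n
  · obtain ⟨h1, h2, h3⟩ := h
    lift a to ℕ using h1
    lift b to ℕ using h2
    have h3' : a + b ≤ n := by exact_mod_cast h3
    rw [A.E_nat a b h3', A.E_nat b a (by omega), G.bar'_bv, A.bar_V a b h3']
  · rw [A.E_out h, A.E_out (by rintro ⟨h1, h2, h3⟩; exact h ⟨h2, h1, by linarith⟩)]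
    simp

theorem dg_E {a b : ℤ} (h : 0 ≤ a ∧ 0 ≤ b ∧ a + b ≤ n) : G.dg (A.E a b) = dimZ a b := by
  obtain ⟨h1, h2, h3⟩ := h
  lift a to ℕ using h1
  lift b to ℕ using h2
  have h3' : a + b ≤ n := by exact_mod_cast h3
  rw [A.E_nat a b h3', G.dg_bv, A.d_V a b h3']

theorem Gr_E (a b : ℤ) : G.Gr (A.E a b) ((a : ZMod 3) - b) := by
  by_cases h : 0 ≤ a ∧ 0 ≤ b ∧ a + b ≤ n
  · obtain ⟨h1, h2, h3⟩ := h
    lift a to ℕ using h1
    lift b to ℕ using h2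
    have h3' : a + b ≤ n := by exact_mod_cast h3
    rw [A.E_nat a b h3']
    have := G.Gr_bv (A.V a b)
    rw [A.gr_V a b h3'] at this
    simpa using this
  · rw [A.E_out h]; exact G.Gr_zero _

theorem T_E {a b : ℤ} (h1 : 0 ≤ a) (h2 : 0 ≤ b) (h3 : a + b < n) :
    G.T (A.E a b) = A.E (a + 1) b + A.E (a - 1) (b + 1) + A.E a (b - 1) := by
  lift a to ℕ using h1
  lift b to ℕ using h2
  have h3' : a + b < n := by exact_mod_cast h3
  rw [A.E_nat a b h3'.le, A.T_V a b h3']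
  have e1 : A.E ((a : ℤ) + 1) b = bv (A.V (a + 1) b) := by
    have := A.E_nat (a + 1) b (by omega)
    push_cast at this; exact this
  have e2 : A.E ((a : ℤ) - 1) (b + 1) = if 1 ≤ a then bv (A.V (a - 1) (b + 1)) else 0 := by
    split_ifs with ha
    · have := A.E_nat (a - 1) (b + 1) (by omega)
      push_cast [ha] at this; exact this
    · exact A.E_out (by rintro ⟨h, -⟩; omega)
  have e3 : A.E (a : ℤ) (b - 1) = if 1 ≤ b then bv (A.V a (b - 1)) else 0 := by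
    split_ifs with hb
    · have := A.E_nat a (b - 1) (by omega)
      push_cast [hb] at this; exact this
    · exact A.E_out (by rintro ⟨-, h, -⟩; omega)
  rw [e1, e2, e3]

theorem S_E {a b : ℤ} (h1 : 0 ≤ a) (h2 : 0 ≤ b) (h3 : a + b < n) :
    G.S (A.E a b) = A.E a (b + 1) + A.E (a + 1) (b - 1) + A.E (a - 1) b := by
  have h := congrArg G.bar' (A.T_E h2 h1 (by linarith : b + a < n))
  rw [G.bar_T, A.bar_E] at h
  rw [h, map_add, map_add, A.bar_E, A.bar_E, A.bar_E]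

theorem t_nonneg (j : ℤ) : 0 ≤ A.t j := A.E_nonneg _ _
theorem s_nonneg (j : ℤ) : 0 ≤ A.s j := A.E_nonneg _ _
theorem r_nonneg (j : ℤ) : 0 ≤ A.r j := A.E_nonneg _ _

theorem t_out {j : ℤ} (h : j < 0 ∨ n < j) : A.t j = 0 :=
  A.E_out (by rintro ⟨h1, h2, -⟩; omega)
theorem s_out {j : ℤ} (h : j < 0 ∨ (n : ℤ) - 1 < j) : A.s j = 0 :=
  A.E_out (by rintro ⟨h1, h2, -⟩; omega)
theorem r_out {j : ℤ} (h : j < 0 ∨ (n : ℤ) - 2 < j) : A.r j = 0 :=
  A.E_out (by rintro ⟨h1, h2, -⟩; omega)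

theorem bar_t (j : ℤ) : G.bar' (A.t j) = A.t (n - j) := by
  unfold t; rw [A.bar_E]; congr 1; ring
theorem bar_s (j : ℤ) : G.bar' (A.s j) = A.s (n - 1 - j) := by
  unfold s; rw [A.bar_E]; congr 1; ring
theorem bar_r (j : ℤ) : G.bar' (A.r j) = A.r (n - 2 - j) := by
  unfold r; rw [A.bar_E]; congr 1; ring

theorem T_s {j : ℤ} (h1 : 0 ≤ j) (h2 : j < n) : G.T (A.s j) = A.t j + A.s (j + 1) + A.r (j - 1) := by
  unfold s t r
  rw [A.T_E (by omega) h1 (by omega)]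
  have e1 : (n : ℤ) - 1 - j + 1 = n - j := by ring
  have e2 : (n : ℤ) - 1 - j - 1 = n - 1 - (j + 1) := by ring
  have e3 : (n : ℤ) - 1 - j = n - 2 - (j - 1) := by ring
  rw [e1, e2, e3]

theorem S_s {j : ℤ} (h1 : 0 ≤ j) (h2 : j < n) :
    G.S (A.s j) = A.t (j + 1) + A.s (j - 1) + A.r j := by
  unfold s t r
  rw [A.S_E (by omega) h1 (by omega)]
  have e1 : (n : ℤ) - 1 - j = n - (j + 1) := by ring
  have e2 : (n : ℤ) - 1 - j + 1 = n - 1 - (j - 1) := by ring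
  have e3 : (n : ℤ) - 1 - j - 1 = n - 2 - j := by ring
  rw [e2, e3, e1]

theorem dg_t {j : ℤ} (h1 : 0 ≤ j) (h2 : j ≤ n) : G.dg (A.t j) = dimZ (n - j) j :=
  A.dg_E ⟨by omega, h1, by omega⟩
theorem dg_s {j : ℤ} (h1 : 0 ≤ j) (h2 : j < n) : G.dg (A.s j) = dimZ (n - 1 - j) j :=
  A.dg_E ⟨by omega, h1, by omega⟩

theorem Gr_t (j : ℤ) : G.Gr (A.t j) ((n : ZMod 3) - 2 * j) := by
  have := A.Gr_E (n - j) j
  unfold t
  convert this using 1
  push_cast; ring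

theorem Gr_s (j : ℤ) : G.Gr (A.s j) ((n : ZMod 3) - 1 - 2 * j) := by
  have := A.Gr_E (n - 1 - j) j
  unfold s
  convert this using 1
  push_cast; ring

end Arr
end Pool.Agent.Helper363.Nita
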