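import Mathlib

namespace Pool.Agent.Helper363.Nita

/-- inner product of integer vectors for which the basis is orthonormal -/
noncomputable def ip {B : Type} (x y : B →₀ ℤ) : ℤ := x.sum fun b c => c * y b

/-- basis vector -/
noncomputable abbrev bv {B : Type} (b : B) : B →₀ ℤ := Finsupp.single b 1

/-- A normal graded graph: `T` is multiplication by the degree three element,
`S` multiplication by its conjugate. -/
structure NG where
  B : Type
  T : (B →₀ ℤ) →ₗ[ℤ] (B →₀ ℤ)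
  S : (B →₀ ℤ) →ₗ[ℤ] (B →₀ ℤ)
  T_nonneg : ∀ b y, 0 ≤ T (bv b) y
  adj : ∀ b y, T (bv b) y = S (bv y) b
  comm : ∀ x, T (S x) = S (T x)
  tri : ∀ b y, S (bv b) y ≤ T (T (bv b)) y
  bar : B → B
  bar_bar : ∀ b, bar (bar b) = b
  T_bar : ∀ b y, T (bv (bar b)) (bar y) = S (bv b) y
  d : B → ℤ
  d_pos : ∀ b, 0 < d b
  d_bar : ∀ b, d (bar b) = d b
  d_T : ∀ b, ((T (bv b)).sum fun y c => c * d y) = 3 * d b
  gr : B → ZMod 3
  gr_T : ∀ b y, T (bv b) y ≠ 0 → gr y = gr b + 1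
  gr_bar : ∀ b, gr (bar b) = - gr b

/-- degree of a vector -/
noncomputable def NG.dg (G : NG) (x : G.B →₀ ℤ) : ℤ := x.sum fun y c => c * G.d y

/-- the dimension polynomial of the representation with highest weight (a, b) -/
def dimZ (a b : ℤ) : ℤ := (a + 1) * (b + 1) * (a + b + 2) / 2

/-- an array of depth `n` inside a normal graph -/
structure Arr (G : NG) (n : ℕ) where
  V : ℕ → ℕ → G.B
  bar_V : ∀ a b, a + b ≤ n → G.bar (V a b) = V b a
  d_V : ∀ a b : ℕ, a + b ≤ n → G.d (V a b) = dimZ a b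
  gr_V : ∀ a b : ℕ, a + b ≤ n → G.gr (V a b) = (a : ZMod 3) - b
  /-- all rows of level less than `n` -/
  T_V : ∀ a b : ℕ, a + b < n → G.T (bv (V a b)) =
    bv (V (a + 1) b) + (if 1 ≤ a then bv (V (a - 1) (b + 1)) else 0) +
      (if 1 ≤ b then bv (V a (b - 1)) else 0)

variable {G : NG} {n : ℕ}

/-- array vector, zero outside the range -/
noncomputable def Arr.E (A : Arr G n) (a b : ℤ) : G.B →₀ ℤ :=
  if 0 ≤ a ∧ 0 ≤ b ∧ a + b ≤ n then bv (A.V a.toNat b.toNat) else 0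

/-- level `n` -/
noncomputable def Arr.t (A : Arr G n) (j : ℤ) : G.B →₀ ℤ := A.E (n - j) j
/-- level `n - 1` -/
noncomputable def Arr.s (A : Arr G n) (j : ℤ) : G.B →₀ ℤ := A.E (n - 1 - j) j

/-- the vectors of level `n + 1` -/
noncomputable def Arr.u (A : Arr G n) (j : ℤ) : G.B →₀ ℤ :=
  if 0 ≤ j ∧ j ≤ n then G.T (A.t j) - A.t (j + 1) - A.s (j - 1)
  else if j = n + 1 then G.S (A.t n) - A.t (n - 1) else 0

end Pool.Agent.Helper363.Nita
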