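import Mathlib

namespace Pool.Agent.Helper363.Nita

/-- A C-NITA: a commutative `ℂ`-algebra `A` with basis `b` (indexed by a countable type `ι`),
nonnegative integral structure constants `N`, an involutive automorphism `conj` permuting the basis
through `bar`, the weights `g` of (TA3), and the degree homomorphism `deg`. -/
structure CNITA (ι A : Type) [CommRing A] [Algebra ℂ A] where
  countable : Countable ι
  b : Module.Basis ι ℂ A
  one : ι
  b_one : b one = 1
  N : ι → ι → ι →₀ ℕ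
  mul_b : ∀ i j, b i * b j = (N i j).sum fun m c => (c : ℂ) • b m
  conj : A ≃ₐ[ℂ] A
  conj_conj : ∀ a, conj (conj a) = a
  bar : ι → ι
  conj_b : ∀ i, conj (b i) = b (bar i)
  g : ι → ι → ℝ
  g_pos : ∀ i j, 0 < g i j
  table : ∀ i j m, (N i j m : ℝ) = g i m * N (bar j) m i
  deg : A →ₐ[ℂ] ℂ
  degNat : ι → ℕ
  deg_b : ∀ i, deg (b i) = degNat i
  degNat_pos : ∀ i, 0 < degNat i
  degNat_bar : ∀ i, degNat (bar i) = degNat i
  deg_unique : ∀ f : A →ₐ[ℂ] ℂ,
    (∀ i, f (b i) = f (b (bar i)) ∧ ∃ r : ℝ, 0 < r ∧ f (b i) = r) → f = deg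
  N_bar_one : ∀ i, N i (bar i) one = 1

namespace CNITA
variable {ι A : Type} [CommRing A] [Algebra ℂ A] (C : CNITA ι A)

/-- `b i` is faithful: every basis element occurs in some power of it -/
def Faithful (i : ι) : Prop := ∀ m, ∃ k : ℕ, C.b.repr (C.b i ^ k) m ≠ 0

/-- the element `b_(k,i)` of a family, with the convention `b_(-1,i) = b_(2i+1,i) = 0` -/
noncomputable def val (f : ℤ → ℤ → ι) (k i : ℤ) : A :=
  if k = -1 ∨ k = 2 * i + 1 then 0 else C.b (f k i)

/-- the family `f` is an array `C_t` for the element `b x` -/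
def IsArray (x : ι) (t : ℕ) (f : ℤ → ℤ → ι) : Prop :=
  f 1 1 = C.one ∧ f 1 2 = x ∧
  (∀ k i : ℤ, 1 ≤ i → i ≤ t + 1 → Odd k → 1 ≤ k → k ≤ 2 * i - 1 →
    f k i = C.bar (f (2 * i - k) i)) ∧
  (∀ k i : ℤ, 2 ≤ i → i ≤ t → Odd k → 1 ≤ k → k ≤ 2 * i - 1 →
    C.b x * C.b (f k i) = C.val f (k - 2) (i - 1) + C.val f (k + 2) i + C.val f k (i + 1))

/-- `n` is the stopping number: an array `C_n` exists but no array `C_(n+1)` -/
def StoppingNumber (x : ι) (n : ℕ) : Prop :=
  (∃ f, C.IsArray x n f) ∧ ¬ ∃ f, C.IsArray x (n + 1) f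

end CNITA
end Pool.Agent.Helper363.Nita
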