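import Pool.Agent.Helper363.Nita.Corner

namespace Pool.Agent.Helper363.Nita

open Finsupp

variable {G : NG} {n : ℕ}

namespace Arr
variable (A : Arr G n)

theorem ch_pair {B : Type} {a a' b b' : B}
    (h : (bv a + bv a' : B →₀ ℤ) = bv b + bv b') : (a = b ∧ a' = b') ∨ (a = b' ∧ a' = b) := by
  classical
  have inj : ∀ x y : B, (bv x : B →₀ ℤ) = bv y → x = y := fun x y hxy =>
    Finsupp.single_left_injective (one_ne_zero) hxy
  by_cases h1 : a = b
  · subst h1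
    exact Or.inl ⟨rfl, inj _ _ (add_left_cancel h)⟩
  · by_cases h2 : a = b'
    · subst h2
      rw [add_comm (bv b) (bv a)] at h
      exact Or.inr ⟨rfl, inj _ _ (add_left_cancel h)⟩
    · exfalso
      have ha := congrArg (fun f => f a) h
      have e1 : (bv b : B →₀ ℤ) a = 0 := by simp [bv, Ne.symm h1]
      have e2 : (bv b' : B →₀ ℤ) a = 0 := by simp [bv, Ne.symm h2]
      have e3 : (bv a : B →₀ ℤ) a = 1 := by simp [bv]
      have e4 : 0 ≤ (bv a' : B →₀ ℤ) a := by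
        by_cases h3 : a' = a
        · subst h3; simp [bv]
        · simp [bv, h3]
      simp only [Finsupp.add_apply] at ha
      rw [e1, e2, e3] at ha
      omega

/-- one step of the two sheets -/
theorem ch_step (h : A.Good2) {j : ℤ} (h1 : 1 ≤ j) (h2 : j ≤ n - 1) {b b' : G.B}
    (hb : A.u j = bv b + bv b') (hbb : b ≠ b') :
    ∃ e e', A.u (j + 1) = bv e + bv e' ∧ e ≠ e' ∧ G.T (bv b) e = 1 ∧ G.T (bv b) e' = 0 ∧
      G.T (bv b') e = 0 ∧ G.T (bv b') e' = 1 := by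
  classical
  have hG := h.good
  have hn := hG.hn
  have h3 : ip (A.u 0) (A.u 3) = 0 := h.e0 3 (by norm_num) (by omega)
  obtain ⟨e, e', hee, he⟩ := G.norm_two (A.u_nonneg hG (j + 1))
    (by rw [A.ip_u_self hG (by omega) (by omega), h.p2])
  have hT := A.T_u_ge hG h3 (j := j + 1) (by omega) (by omega)
  rw [add_sub_cancel_right] at hT
  have hS := A.S_u_ge hG h3 (j := j) (by omega) h2
  have hk := h.kap j (by omega) (by omega)
  have c1 := hT e
  have c2 := hT e'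
  have r1 := hS b
  have r2 := hS b'
  rw [hb, he, map_add] at c1 c2
  rw [hb, he, map_add] at r1 r2
  rw [hb, he, map_add, ip_add_right, ip_bv_right, ip_bv_right] at hk
  simp only [Finsupp.add_apply] at c1 c2 r1 r2 hk
  rw [← G.adj, ← G.adj] at r1 r2
  have s1 : (bv e : G.B →₀ ℤ) e = 1 := by simp [bv]
  have s2 : (bv e' : G.B →₀ ℤ) e = 0 := by simp [bv, Finsupp.single_apply, hee.symm]
  have s3 : (bv e : G.B →₀ ℤ) e' = 0 := by simp [bv, Finsupp.single_apply, hee]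
  have s4 : (bv e' : G.B →₀ ℤ) e' = 1 := by simp [bv]
  have s5 : (bv b : G.B →₀ ℤ) b = 1 := by simp [bv]
  have s6 : (bv b' : G.B →₀ ℤ) b = 0 := by simp [bv, Finsupp.single_apply, hbb.symm]
  have s7 : (bv b : G.B →₀ ℤ) b' = 0 := by simp [bv, Finsupp.single_apply, hbb]
  have s8 : (bv b' : G.B →₀ ℤ) b' = 1 := by simp [bv]
  rw [s1, s2] at c1
  rw [s3, s4] at c2
  rw [s5, s6] at r1
  rw [s7, s8] at r2
  have p11 := G.T_nonneg b e
  have p12 := G.T_nonneg b e'
  have p21 := G.T_nonneg b' e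
  have p22 := G.T_nonneg b' e'
  by_cases hm : G.T (bv b) e = 1
  · exact ⟨e, e', he, hee, hm, by omega, by omega, by omega⟩
  · refine ⟨e', e, by rw [he, add_comm], hee.symm, ?_, ?_, ?_, ?_⟩ <;> omega

/-- the two sheets of level `n + 1` -/
theorem chain (h : A.Good2) : ∃ c d : ℤ → G.B,
    (∀ j : ℤ, 1 ≤ j → j ≤ n → A.u j = bv (c j) + bv (d j) ∧ c j ≠ d j) ∧
    (∀ j : ℤ, 1 ≤ j → j ≤ n - 1 → G.T (bv (c j)) (c (j + 1)) = 1 ∧ G.T (bv (c j)) (d (j + 1)) = 0 ∧
      G.T (bv (d j)) (c (j + 1)) = 0 ∧ G.T (bv (d j)) (d (j + 1)) = 1) ∧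
    ((∀ j : ℤ, 1 ≤ j → j ≤ n → G.bar (c j) = c (n + 1 - j) ∧ G.bar (d j) = d (n + 1 - j)) ∨
     (∀ j : ℤ, 1 ≤ j → j ≤ n → G.bar (c j) = d (n + 1 - j) ∧ G.bar (d j) = c (n + 1 - j))) := by
  classical
  have hG := h.good
  have hn := hG.hn
  obtain ⟨b0, b0', hbb0, hb0⟩ := G.norm_two (A.u_nonneg hG 1)
    (by rw [A.ip_u_self hG (by omega) (by omega), h.p2])
  set P : ℕ → G.B × G.B → Prop := fun m s => ((m : ℤ) + 1 ≤ n) →
    (A.u ((m : ℤ) + 1) = bv s.1 + bv s.2 ∧ s.1 ≠ s.2) with hP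
  have step : ∀ (m : ℕ) (s : G.B × G.B), P m s → ∃ s' : G.B × G.B, P (m + 1) s' ∧
      ((m : ℤ) + 2 ≤ n → G.T (bv s.1) s'.1 = 1 ∧ G.T (bv s.1) s'.2 = 0 ∧
        G.T (bv s.2) s'.1 = 0 ∧ G.T (bv s.2) s'.2 = 1) := by
    intro m s hs
    by_cases hm : (m : ℤ) + 2 ≤ n
    · obtain ⟨g1, g2⟩ := hs (by omega)
      obtain ⟨e, e', k1, k2, k3, k4, k5, k6⟩ := A.ch_step h (by omega) (by omega) g1 g2
      refine ⟨(e, e'), fun _ => ⟨?_, k2⟩, fun _ => ⟨k3, k4, k5, k6⟩⟩
      push_cast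
      exact k1
    · refine ⟨s, fun h' => ?_, fun h' => absurd h' hm⟩
      push_cast at h'
      omega
  choose! f hf using step
  set sq : ℕ → G.B × G.B := fun m => Nat.rec (b0, b0') (fun m s => f m s) m with hsq
  have hsq1 : ∀ m, sq (m + 1) = f m (sq m) := fun m => rfl
  have hPs : ∀ m, P m (sq m) := by
    intro m
    induction m with
    | zero =>
      intro _
      refine ⟨?_, hbb0⟩
      show A.u (((0 : ℕ) : ℤ) + 1) = bv b0 + bv b0'
      simpa using hb0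
    | succ m ih => rw [hsq1]; exact (hf m _ ih).1
  set c : ℤ → G.B := fun j => (sq (j - 1).toNat).1 with hc
  set d : ℤ → G.B := fun j => (sq (j - 1).toNat).2 with hd
  have hcn : ∀ m : ℕ, c ((m : ℤ) + 1) = (sq m).1 := by
    intro m
    show (sq ((m : ℤ) + 1 - 1).toNat).1 = _
    rw [add_sub_cancel_right, Int.toNat_natCast]
  have hdn : ∀ m : ℕ, d ((m : ℤ) + 1) = (sq m).2 := by
    intro m
    show (sq ((m : ℤ) + 1 - 1).toNat).2 = _
    rw [add_sub_cancel_right, Int.toNat_natCast]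
  have hnat : ∀ j : ℤ, 1 ≤ j → ∃ m : ℕ, j = (m : ℤ) + 1 := by
    intro j hj
    exact ⟨(j - 1).toNat, by omega⟩
  have A1 : ∀ j : ℤ, 1 ≤ j → j ≤ n → A.u j = bv (c j) + bv (d j) ∧ c j ≠ d j := by
    intro j hj1 hj2
    obtain ⟨m, rfl⟩ := hnat j hj1
    rw [hcn, hdn]
    exact hPs m hj2
  have A2 : ∀ j : ℤ, 1 ≤ j → j ≤ n - 1 → G.T (bv (c j)) (c (j + 1)) = 1 ∧
      G.T (bv (c j)) (d (j + 1)) = 0 ∧ G.T (bv (d j)) (c (j + 1)) = 0 ∧
      G.T (bv (d j)) (d (j + 1)) = 1 := by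
    intro j hj1 hj2
    obtain ⟨m, rfl⟩ := hnat j hj1
    have e1 : c ((m : ℤ) + 1 + 1) = (sq (m + 1)).1 := by
      have := hcn (m + 1)
      push_cast at this
      exact this
    have e2 : d ((m : ℤ) + 1 + 1) = (sq (m + 1)).2 := by
      have := hdn (m + 1)
      push_cast at this
      exact this
    rw [e1, e2, hcn, hdn, hsq1]
    exact (hf m _ (hPs m)).2 (by omega)
  have A3 : ∀ j : ℤ, 1 ≤ j → j ≤ n → (G.bar (c j) = c (n + 1 - j) ∧ G.bar (d j) = d (n + 1 - j)) ∨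
      (G.bar (c j) = d (n + 1 - j) ∧ G.bar (d j) = c (n + 1 - j)) := by
    intro j hj1 hj2
    have e1 := A.bar_u (by omega) j
    rw [(A1 j hj1 hj2).1, (A1 (n + 1 - j) (by omega) (by omega)).1, map_add, G.bar'_bv,
      G.bar'_bv] at e1
    exact ch_pair e1
  have rel : ∀ b y : G.B, G.T (bv (G.bar b)) (G.bar y) = G.T (bv y) b := by
    intro b y
    rw [G.T_bar, ← G.adj]
  refine ⟨c, d, A1, A2, ?_⟩
  rcases A3 1 le_rfl (by omega) with hI | hII
  · left
    have key : ∀ m : ℕ, (m : ℤ) + 1 ≤ n → G.bar (c ((m : ℤ) + 1)) = c (n + 1 - ((m : ℤ) + 1)) ∧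
        G.bar (d ((m : ℤ) + 1)) = d (n + 1 - ((m : ℤ) + 1)) := by
      intro m
      induction m with
      | zero => intro _; simpa using hI
      | succ m ih =>
        intro hm
        push_cast at hm ⊢
        obtain ⟨i1, i2⟩ := ih (by omega)
        rcases A3 ((m : ℤ) + 1 + 1) (by omega) (by omega) with g | g
        · exact g
        · exfalso
          have e1 := rel (c ((m : ℤ) + 1 + 1)) (c ((m : ℤ) + 1))
          rw [(A2 ((m : ℤ) + 1) (by omega) (by omega)).1, g.1, i1] at e1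
          have e2 := (A2 (n + 1 - ((m : ℤ) + 1 + 1)) (by omega) (by omega)).2.2.1
          have e3 : (n : ℤ) + 1 - ((m : ℤ) + 1 + 1) + 1 = n + 1 - ((m : ℤ) + 1) := by ring
          rw [e3, e1] at e2
          exact one_ne_zero e2
    intro j hj1 hj2
    obtain ⟨m, rfl⟩ := hnat j hj1
    exact key m hj2
  · right
    have key : ∀ m : ℕ, (m : ℤ) + 1 ≤ n → G.bar (c ((m : ℤ) + 1)) = d (n + 1 - ((m : ℤ) + 1)) ∧
        G.bar (d ((m : ℤ) + 1)) = c (n + 1 - ((m : ℤ) + 1)) := by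
      intro m
      induction m with
      | zero => intro _; simpa using hII
      | succ m ih =>
        intro hm
        push_cast at hm ⊢
        obtain ⟨i1, i2⟩ := ih (by omega)
        rcases A3 ((m : ℤ) + 1 + 1) (by omega) (by omega) with g | g
        · exfalso
          have e1 := rel (c ((m : ℤ) + 1 + 1)) (c ((m : ℤ) + 1))
          rw [(A2 ((m : ℤ) + 1) (by omega) (by omega)).1, g.1, i1] at e1
          have e2 := (A2 (n + 1 - ((m : ℤ) + 1 + 1)) (by omega) (by omega)).2.1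
          have e3 : (n : ℤ) + 1 - ((m : ℤ) + 1 + 1) + 1 = n + 1 - ((m : ℤ) + 1) := by ring
          rw [e3, e1] at e2
          exact one_ne_zero e2
        · exact g
    intro j hj1 hj2
    obtain ⟨m, rfl⟩ := hnat j hj1
    exact key m hj2

end Arr
end Pool.Agent.Helper363.Nita
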