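import Mathlib

namespace Pool.Agent.Helper363.Nita

/-- a row of the partially known adjacency matrix -/
structure Row where
  gr : Nat
  cj : Nat
  lo : Nat
  hi : Nat
  off : Nat
  out : List Nat
  dec : Nat
  done : Bool

/-- default row -/
def Row.dflt : Row := ⟨0, 0, 0, 0, 0, [], 0, false⟩

/-- a family of nodes whose total row has norm in `[lo, hi]` (`hi = 0` means no upper bound) -/
structure Line where
  nodes : List Nat
  lo : Nat
  hi : Nat

/-- two families of nodes with total number of arrows in `[lo, hi]` -/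
structure Blk where
  src : List Nat
  tgt : List Nat
  lo : Nat
  hi : Nat

/-- fixed data -/
structure Ctx where
  nt : Nat
  lines : List Line
  blks : List Blk

def nth : List Row → Nat → Row
  | [], _ => Row.dflt
  | r :: _, 0 => r
  | _ :: l, n + 1 => nth l n

def upd : List Row → Nat → (Row → Row) → List Row
  | [], _, _ => []
  | r :: l, 0, f => f r :: l
  | r :: l, n + 1, f => r :: upd l n f

def cnt : Nat → List Nat → Nat
  | _, [] => 0
  | x, y :: l => bif Nat.beq x y then Nat.succ (cnt x l) else cnt x l

/-- inner product of two multisets -/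
def ipl : List Nat → List Nat → Nat
  | [], _ => 0
  | x :: l, m => Nat.add (cnt x m) (ipl l m)

def tb (m j : Nat) : Bool := Nat.beq (Nat.land (Nat.shiftRight m j) 1) 1

/-- the entry `(x, y)` is exactly known -/
def ex (S : List Row) (x y : Nat) : Bool :=
  (nth S x).done || tb (nth S x).dec y ||
    (((nth S (nth S y).cj).done || tb (nth S (nth S y).cj).dec (nth S x).cj) &&
      Nat.beq (cnt (nth S x).cj (nth S (nth S y).cj).out) (cnt y (nth S x).out))

def allEx (S : List Row) (x : Nat) : List Nat → Bool
  | [] => true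
  | y :: l => ex S x y && allEx S x l

/-- `x` is done and all cells `(y, z)`, `z` in the row of `x`, are exact -/
def ipEx1 (S : List Row) (x y : Nat) : Bool := (nth S x).done && allEx S y (nth S x).out

def ipEx (C : Ctx) (S : List Row) (x y : Nat) : Bool :=
  (Nat.ble C.nt x || Nat.ble C.nt y) && (ipEx1 S x y || ipEx1 S y x)

def setBits (m : Nat) : List Nat → Nat
  | [] => m
  | y :: l => Nat.lor (Nat.shiftLeft 1 y) (setBits m l)

def outs (S : List Row) : List Nat → List Nat
  | [] => []
  | c :: l => (nth S c).out ++ outs S l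

def allDone (S : List Row) : List Nat → Bool
  | [] => true
  | c :: l => (nth S c).done && allDone S l

def setDone (S : List Row) : List Nat → List Row
  | [] => S
  | c :: l => setDone (upd S c fun r => { r with done := true }) l

def sumCol (S : List Row) (x : Nat) : List Nat → Nat
  | [] => 0
  | z :: l => Nat.add (cnt x (nth S z).out) (sumCol S x l)

def allExCol (S : List Row) (x : Nat) : List Nat → Bool
  | [] => true
  | z :: l => ex S z x && allExCol S x l

/-- violated triangle inequality at the arrow `x → y` -/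
def xt1 (C : Ctx) (S : List Row) (x y : Nat) : Bool :=
  (Nat.ble C.nt x || Nat.ble C.nt y) && (nth S y).done && allExCol S x (nth S y).out &&
    Nat.blt (sumCol S x (nth S y).out) (cnt y (nth S x).out)

/-! blocks -/
def cntL (l : List Nat) : List Nat → Nat
  | [] => 0
  | y :: m => Nat.add (cnt y l) (cntL l m)

def blkSum (S : List Row) (tgt : List Nat) : List Nat → Nat
  | [] => 0
  | x :: l => Nat.add (cntL (nth S x).out tgt) (blkSum S tgt l)

def blkEx (S : List Row) (tgt : List Nat) : List Nat → Bool
  | [] => true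
  | x :: l => allEx S x tgt && blkEx S tgt l

def blkSet (S : List Row) (tgt : List Nat) : List Nat → List Row
  | [] => S
  | x :: l => blkSet (upd S x fun r => { r with dec := setBits r.dec tgt }) tgt l

/-! linear programming -/

/-- entry of a linear form: node, positive and negative weight -/
structure Ent where
  v : Nat
  p : Nat
  q : Nat

def addP : List Ent → Nat → Nat → List Ent
  | [], v, w => [⟨v, w, 0⟩]
  | e :: l, v, w => bif Nat.beq e.v v then ⟨e.v, Nat.add e.p w, e.q⟩ :: l else e :: addP l v w

def addQ : List Ent → Nat → Nat → List Ent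
  | [], v, w => [⟨v, 0, w⟩]
  | e :: l, v, w => bif Nat.beq e.v v then ⟨e.v, e.p, Nat.add e.q w⟩ :: l else e :: addQ l v w

def addQs (w : Nat) : List Nat → List Ent → List Ent
  | [], a => a
  | v :: l, a => addQs w l (addQ a v w)

def addPs (w : Nat) : List Nat → List Ent → List Ent
  | [], a => a
  | v :: l, a => addPs w l (addP a v w)

/-- a multiplier: node, weight, sign (`true`: uses `3 d ≥ sum`, `false`: uses `3 d ≤ sum`,
only allowed for finished rows) -/
structure Mul where
  x : Nat
  w : Nat
  s : Bool

/-- accumulated form: entries, positive constant, negative constant -/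
structure Acc where
  es : List Ent
  cp : Nat
  cq : Nat

def accum (K : Nat) (S : List Row) : List Mul → Acc → Option Acc
  | [], a => some a
  | m :: l, a =>
    bif Nat.blt m.x K then
      bif m.s then
        accum K S l ⟨addP (addQs m.w (nth S m.x).out a.es) m.x (Nat.mul 3 m.w), a.cp,
          Nat.add a.cq (Nat.mul m.w (nth S m.x).off)⟩
      else bif (nth S m.x).done then
        accum K S l ⟨addQ (addPs m.w (nth S m.x).out a.es) m.x (Nat.mul 3 m.w),
          Nat.add a.cp (Nat.mul m.w (nth S m.x).off), a.cq⟩
      else none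
    else none

/-- identify a node with its conjugate -/
def rep (S : List Row) (v : Nat) : Nat :=
  bif Nat.blt (nth S v).cj v then (nth S v).cj else v

def merge (S : List Row) : List Ent → List Ent → List Ent
  | [], a => a
  | e :: l, a => merge S l (addQ (addP a (rep S e.v) e.p) (rep S e.v) e.q)

/-- total upper estimate: returns (positive part, negative part) -/
def evalE (S : List Row) : List Ent → Nat → Nat → Bool
  | [], P, Q => Nat.blt P Q
  | e :: l, P, Q =>
    bif Nat.ble e.p e.q then evalE S l P (Nat.add Q (Nat.mul (Nat.sub e.q e.p) (nth S e.v).lo))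
    else bif Nat.beq (nth S e.v).hi 0 then false
    else evalE S l (Nat.add P (Nat.mul (Nat.sub e.p e.q) (nth S e.v).hi)) Q

def xl (S : List Row) (ms : List Mul) : Bool :=
  match accum S.length S ms ⟨[], 0, 0⟩ with
  | none => false
  | some a => evalE S (merge S a.es []) a.cp a.cq

/-! the proof trees -/

inductive Cert
  | E (a b : Nat) (c1 c2 : Cert)
  | NO (a : Nat) (c1 c2 c3 : Cert)
  | NP (a : Nat) (c1 c2 : Cert)
  | SP (a k : Nat) (c1 c2 : Cert)
  | CO (a : Nat) (c : Cert)
  | Z (x y : Nat) (c : Cert)
  | LC (l : Nat) (c : Cert)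
  | BC (l : Nat) (c : Cert)
  | LX (l : Nat)
  | BX (l : Nat)
  | XN (x y : Nat)
  | XT (x y : Nat)
  | XL (ms : List Mul)

def lineAt : List Line → Nat → Line
  | [], _ => ⟨[], 0, 0⟩
  | r :: _, 0 => r
  | _ :: l, n + 1 => lineAt l n

def blkAt : List Blk → Nat → Blk
  | [], _ => ⟨[], [], 0, 0⟩
  | r :: _, 0 => r
  | _ :: l, n + 1 => blkAt l n

def ins (b : Nat) (r : Row) : Row := { r with out := b :: r.out }

def succGr (g : Nat) : Nat := Nat.mod (Nat.succ g) 3
def negGr (g : Nat) : Nat := Nat.mod (Nat.mul 2 g) 3

/-- all cells `(a, y)` with `y ≥ i` of the right grade are exact -/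
def rowEx (S : List Row) (a g : Nat) : List Row → Nat → Bool
  | [], _ => true
  | r :: l, i => bif Nat.beq r.gr g then ex S a i && rowEx S a g l (Nat.succ i)
      else rowEx S a g l (Nat.succ i)

def newPair (S : List Row) (a : Nat) : List Row :=
  upd S a (ins S.length) ++
    [⟨succGr (nth S a).gr, Nat.succ S.length, 1, Nat.mul 3 (nth S a).hi, 0, [], 0, false⟩,
     ⟨negGr (succGr (nth S a).gr), S.length, 1, Nat.mul 3 (nth S a).hi, 0, [(nth S a).cj], 0, false⟩]

def newReal (S : List Row) (a : Nat) : List Row :=
  upd S a (ins S.length) ++ [⟨0, S.length, 1, Nat.mul 3 (nth S a).hi, 0, [(nth S a).cj], 0, false⟩]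

def check (C : Ctx) : Cert → List Row → Bool
  | .E a b c1 c2, S =>
    Nat.ble C.nt a && Nat.ble C.nt b && Nat.blt a S.length && Nat.blt b S.length &&
    Nat.ble (cnt (nth S a).cj (nth S (nth S b).cj).out) (cnt b (nth S a).out) &&
    (bif Nat.beq (nth S b).cj a then check C c1 (upd S a (ins b))
     else check C c1 (upd (upd S a (ins b)) (nth S b).cj (ins (nth S a).cj))) &&
    check C c2 (upd S a fun r => { r with dec := setBits r.dec [b] })
  | .NO a c1 c2 c3, S =>
    Nat.ble C.nt a && Nat.blt a S.length && rowEx S a (succGr (nth S a).gr) S 0 &&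
    check C c1 (upd S a fun r => { r with done := true }) && check C c2 (newPair S a) &&
    check C c3 (newReal S a)
  | .NP a c1 c2, S =>
    Nat.ble C.nt a && Nat.blt a S.length && !(Nat.beq (succGr (nth S a).gr) 0) &&
    rowEx S a (succGr (nth S a).gr) S 0 &&
    check C c1 (upd S a fun r => { r with done := true }) && check C c2 (newPair S a)
  | .SP a k c1 c2, S =>
    Nat.blt a S.length && !(Nat.beq k 0) &&
    check C c1 (upd (upd S a fun r => { r with hi := k }) (nth S a).cj fun r => { r with hi := k }) &&
    check C c2 (upd (upd S a fun r => { r with lo := Nat.succ k }) (nth S a).cj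
      fun r => { r with lo := Nat.succ k })
  | .CO a c, S =>
    Nat.ble C.nt a && Nat.ble C.nt (nth S a).cj && Nat.blt a S.length && (nth S (nth S a).cj).done &&
    Nat.ble (ipl (nth S (nth S a).cj).out (nth S (nth S a).cj).out) (ipl (nth S a).out (nth S a).out) &&
    check C c (upd S a fun r => { r with done := true })
  | .Z x y c, S =>
    Nat.blt x S.length && Nat.blt y S.length && ipEx C S x y &&
    Nat.ble (ipl (nth S x).out (nth S y).out) (ipl (nth S (nth S x).cj).out (nth S (nth S y).cj).out) &&
    check C c (upd (upd S (nth S y).cj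
        fun r => { r with dec := setBits r.dec (nth S (nth S x).cj).out }) (nth S x).cj
        fun r => { r with dec := setBits r.dec (nth S (nth S y).cj).out })
  | .LC l c, S =>
    (!(Nat.beq (lineAt C.lines l).hi 0)) &&
    Nat.ble (lineAt C.lines l).hi (ipl (outs S (lineAt C.lines l).nodes) (outs S (lineAt C.lines l).nodes)) &&
    check C c (setDone S (lineAt C.lines l).nodes)
  | .BC l c, S =>
    (!(Nat.beq (blkAt C.blks l).hi 0)) &&
    Nat.ble (blkAt C.blks l).hi (Nat.succ (blkSum S (blkAt C.blks l).tgt (blkAt C.blks l).src)) &&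
    check C c (blkSet S (blkAt C.blks l).tgt (blkAt C.blks l).src)
  | .LX l, S =>
    ((!(Nat.beq (lineAt C.lines l).hi 0)) &&
      Nat.blt (lineAt C.lines l).hi
        (ipl (outs S (lineAt C.lines l).nodes) (outs S (lineAt C.lines l).nodes))) ||
    (allDone S (lineAt C.lines l).nodes &&
      Nat.blt (ipl (outs S (lineAt C.lines l).nodes) (outs S (lineAt C.lines l).nodes))
        (lineAt C.lines l).lo)
  | .BX l, S =>
    ((!(Nat.beq (blkAt C.blks l).hi 0)) &&
      Nat.ble (blkAt C.blks l).hi (blkSum S (blkAt C.blks l).tgt (blkAt C.blks l).src)) ||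
    (blkEx S (blkAt C.blks l).tgt (blkAt C.blks l).src &&
      Nat.blt (blkSum S (blkAt C.blks l).tgt (blkAt C.blks l).src) (blkAt C.blks l).lo)
  | .XN x y, S =>
    Nat.blt x S.length && Nat.blt y S.length && ipEx C S x y &&
    Nat.blt (ipl (nth S x).out (nth S y).out)
      (ipl (nth S (nth S x).cj).out (nth S (nth S y).cj).out)
  | .XT x y, S =>
    Nat.blt x S.length && Nat.blt y S.length &&
    (xt1 C S x y || xt1 C S (nth S y).cj (nth S x).cj)
  | .XL ms, S => xl S ms

/-! decoding of certificates -/

def digits : Nat → Nat → List Nat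
  | 0, _ => []
  | f + 1, m => Nat.mod m 4294967296 :: digits f (Nat.div m 4294967296)

def muls : Nat → List Nat → List Mul × List Nat
  | k + 1, x :: w :: s :: l => (⟨x, w, Nat.beq s 1⟩ :: (muls k l).1, (muls k l).2)
  | _, l => ([], l)

def parse : Nat → List Nat → Cert × List Nat
  | 0, l => (.LX 0, l)
  | f + 1, op :: l =>
    match op, l with
    | 0, a :: b :: l => 
      let r1 := parse f l
      let r2 := parse f r1.2
      (.E a b r1.1 r2.1, r2.2)
    | 1, a :: l =>
      let r1 := parse f l
      let r2 := parse f r1.2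
      let r3 := parse f r2.2
      (.NO a r1.1 r2.1 r3.1, r3.2)
    | 2, a :: l =>
      let r1 := parse f l
      let r2 := parse f r1.2
      (.NP a r1.1 r2.1, r2.2)
    | 3, a :: k :: l =>
      let r1 := parse f l
      let r2 := parse f r1.2
      (.SP a k r1.1 r2.1, r2.2)
    | 4, a :: l => let r := parse f l; (.CO a r.1, r.2)
    | 5, a :: b :: l => let r := parse f l; (.Z a b r.1, r.2)
    | 6, a :: l => let r := parse f l; (.LC a r.1, r.2)
    | 7, a :: l => let r := parse f l; (.BC a r.1, r.2)
    | 8, a :: l => (.LX a, l)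
    | 9, a :: l => (.BX a, l)
    | 10, a :: b :: l => (.XN a b, l)
    | 11, a :: b :: l => (.XT a b, l)
    | 12, k :: l => let r := muls k l; (.XL r.1, r.2)
    | _, l => (.LX 0, l)
  | _, l => (.LX 0, l)

/-! the initial state: window `a..n+1-a` of lines with two sheets -/

def DN (a b : Nat) : Nat := Nat.div (Nat.mul (Nat.mul (a + 1) (b + 1)) (a + b + 2)) 2

def lineIx (n a j w : Nat) : Nat := n + 1 + 2 * (j - a) + w

def rowT (n a j : Nat) : Row :=
  ⟨Nat.mod (n + j) 3, n - j, DN (n - j) j, DN (n - j) j, bif Nat.beq j 0 then 0 else DN (n - j) (j - 1),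
    (bif Nat.blt j n then [j + 1] else []) ++
      (bif Nat.ble a j && Nat.ble j (n + 1 - a) then [lineIx n a j 0, lineIx n a j 1] else []),
    2 ^ (n + 1 + 2 * (n + 2 - 2 * a)) - 1, Nat.ble a j && Nat.ble j (n + 1 - a)⟩

def rowC (n a : Nat) (sw : Bool) (j w : Nat) : Row :=
  ⟨Nat.mod (n + 1 + j) 3, lineIx n a (n + 1 - j) (bif sw then 1 - w else w), 1, DN (n + 1 - j) j, 0,
    (bif Nat.blt j (n + 1 - a) then [lineIx n a (j + 1) w] else []) ++ [j - 1],
    setBits (2 ^ (n + 1) - 1)
      ((bif Nat.blt j (n + 1 - a) then [lineIx n a (j + 1) 0, lineIx n a (j + 1) 1] else []) ++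
       (bif Nat.ble (a + 2) j then [lineIx n a (j - 2) 0, lineIx n a (j - 2) 1] else [])),
    false⟩

def rowOf (n a : Nat) (sw : Bool) (i : Nat) : Row :=
  bif Nat.ble i n then rowT n a i
  else rowC n a sw (a + Nat.div (i - (n + 1)) 2) (Nat.mod (i - (n + 1)) 2)

def initS (n a : Nat) (sw : Bool) : List Row :=
  (List.range (n + 1 + 2 * (n + 2 - 2 * a))).map (rowOf n a sw)

def initL (n a lo hi : Nat) : List Line :=
  (List.range (n + 2 - 2 * a)).map fun k => ⟨[lineIx n a (a + k) 0, lineIx n a (a + k) 1], lo, hi⟩

def initC (n a lo hi : Nat) : Ctx := ⟨n + 1, initL n a lo hi, []⟩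

def run (n a lo hi : Nat) (sw : Bool) (k m : Nat) : Bool :=
  check (initC n a lo hi) (parse k (digits k m)).1 (initS n a sw)

end Pool.Agent.Helper363.Nita
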