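import Pool.Agent.Helper363.Nita.InitI4

namespace Pool.Agent.Helper363.Nita

section init
variable {G : NG} {n : ℕ} {A : Arr G n} {c d : ℤ → G.B} {sw : Bool} {a : ℕ}

theorem init_sat (h : A.Good2) (hc : ChainData A c d sw) (ha : 1 ≤ a) (ha' : 2 * a ≤ n + 1)
    {lo hi : ℕ} (hlo : (lo : ℤ) ≤ ip (G.T (A.u 1)) (G.T (A.u 1)))
    (hhi : hi ≠ 0 → ip (G.T (A.u 1)) (G.T (A.u 1)) ≤ (hi : ℤ)) :
    Sat (world0 A) (initC n a lo hi) (initS n a sw) (phi0 A c d a) := by
  refine ⟨?_, ?_⟩
  · rw [initS_length]
    exact glob0 h hc ha ha' hlo hhi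
  · intro i hi
    rw [initS_length] at hi ⊢
    rw [nth_initS n a sw hi]
    by_cases hin : i ≤ n
    · have e : rowOf n a sw i = rowT n a i := by
        unfold rowOf
        rw [show Nat.ble i n = true from Nat.ble_eq.symm ▸ hin]
        rfl
      rw [e]
      exact rowT_sat h hc ha ha' hin
    · have hb : Nat.ble i n = false := by
        rw [← Bool.not_eq_true, Nat.ble_eq]
        exact hin
      have e : rowOf n a sw i = rowC n a sw (a + (i - (n + 1)) / 2) ((i - (n + 1)) % 2) := by
        unfold rowOf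
        rw [hb]
        rfl
      rw [e]
      have hr := rowC_sat (j := a + (i - (n + 1)) / 2) (w := (i - (n + 1)) % 2) h hc ha ha' (Nat.le_add_right _ _)
        (by omega) (Nat.mod_lt _ (by norm_num))
      have hix : lineIx n a (a + (i - (n + 1)) / 2) ((i - (n + 1)) % 2) = i := by
        unfold lineIx
        rw [Nat.add_sub_cancel_left]
        omega
      rw [hix] at hr
      exact hr

end init

end Pool.Agent.Helper363.Nita
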