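import Pool.Agent.Helper363.Nita.Sound
import Pool.Agent.Helper363.Nita.InitI5

namespace Pool.Agent.Helper363.Nita

theorem chainData {G : NG} {n : ℕ} (A : Arr G n) (h : A.Good2) :
    ∃ (c d : ℤ → G.B) (sw : Bool), ChainData A c d sw := by
  obtain ⟨c, d, h1, h2, h3⟩ := A.chain h
  rcases h3 with h3 | h3
  · exact ⟨c, d, false, h1, h2, by simpa using h3⟩
  · exact ⟨c, d, true, h1, h2, by simpa using h3⟩

/-- a family of checked certificates for depth `n` -/
def Cf (n lo hi : ℕ) (sw : Bool) : Prop :=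
  ∃ a k m : ℕ, 1 ≤ a ∧ 2 * a ≤ n + 1 ∧ run n a lo hi sw k m = true

theorem contra {G : NG} {n : ℕ} (hc : ∀ sw, Cf n 8 8 sw ∧ Cf n 9 0 sw) (A : Arr G n)
    (h : A.Good2) : False := by
  obtain ⟨c, d, sw, hd⟩ := chainData A h
  have hR := A.corner h
  obtain ⟨⟨a, k, m, ha, ha', hr⟩, ⟨a2, k2, m2, hb, hb', hr2⟩⟩ := hc sw
  by_cases h8 : ip (G.T (A.u 1)) (G.T (A.u 1)) = 8
  · exact sound _ _ _ (init_sat h hd ha ha' (lo := 8) (hi := 8) (by rw [h8]; norm_num)
      (by intro _; rw [h8]; norm_num)) hr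
  · exact sound _ _ _ (init_sat h hd hb hb' (lo := 9) (hi := 0)
      (by push_cast; omega) (by intro h0; exact absurd rfl h0)) hr2

end Pool.Agent.Helper363.Nita
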