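import Pool.Agent.Helper363.Nita.KK

namespace Pool.Agent.Helper363.Nita

open Finsupp

variable {G : NG} {n : ℕ}

namespace Arr
variable (A : Arr G n)

theorem split_bv {B : Type} {x y : B →₀ ℤ} {z : B} (hx : 0 ≤ x) (hy : 0 ≤ y)
    (h : x + y = bv z) : (x = bv z ∧ y = 0) ∨ (x = 0 ∧ y = bv z) := by
  classical
  have hz : x z + y z = 1 := by
    have := congrArg (fun f => f z) h
    simpa [bv] using this
  have ho : ∀ b, b ≠ z → x b = 0 ∧ y b = 0 := by
    intro b hb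
    have h1 := congrArg (fun f => f b) h
    have h2 := hx b
    have h3 := hy b
    simp only [Finsupp.add_apply, bv, Finsupp.single_apply, if_neg (Ne.symm hb),
      Finsupp.coe_zero, Pi.zero_apply] at h1 h2 h3
    omega
  have h2 := hx z
  have h3 := hy z
  simp only [Finsupp.coe_zero, Pi.zero_apply] at h2 h3
  rcases (by omega : (x z = 1 ∧ y z = 0) ∨ (x z = 0 ∧ y z = 1)) with ⟨h4, h5⟩ | ⟨h4, h5⟩
  · left
    constructor
    · ext b
      by_cases hb : b = z
      · subst hb; simp [bv, h4]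
      · rw [(ho b hb).1]; simp [bv, Finsupp.single_apply, Ne.symm hb]
    · ext b
      by_cases hb : b = z
      · subst hb; simp [h5]
      · rw [(ho b hb).2]; rfl
  · right
    constructor
    · ext b
      by_cases hb : b = z
      · subst hb; simp [h4]
      · rw [(ho b hb).1]; rfl
    · ext b
      by_cases hb : b = z
      · subst hb; simp [bv, h5]
      · rw [(ho b hb).2]; simp [bv, Finsupp.single_apply, Ne.symm hb]

theorem bv_self {B : Type} (b : B) : (bv b) b = 1 := by simp [bv]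

theorem bv_ne_Corner {B : Type} {b c : B} (h : b ≠ c) : (bv b) c = 0 := by
  simp [bv, Finsupp.single_apply, h]

theorem bv_nonneg_Corner {B : Type} (b : B) : 0 ≤ bv b := by
  intro y
  by_cases h : b = y
  · subst h; simp [bv]
  · simp [bv, Finsupp.single_apply, h]

theorem bv_le {B : Type} {x : B →₀ ℤ} (hx : 0 ≤ x) {b : B} (hb : 1 ≤ x b) : bv b ≤ x := by
  intro y
  by_cases h : b = y
  · subst h; rw [bv_self]; exact hb
  · rw [bv_ne_Corner h]; exact hx y

theorem bv2_le {B : Type} {x : B →₀ ℤ} (hx : 0 ≤ x) {b c : B} (hbc : b ≠ c) (hb : 1 ≤ x b)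
    (hc : 1 ≤ x c) : bv b + bv c ≤ x := by
  intro y
  rw [Finsupp.add_apply]
  by_cases h : b = y
  · subst h; rw [bv_self, bv_ne_Corner hbc.symm]; linarith
  · rw [bv_ne_Corner h, zero_add]; exact bv_le hx hc y

theorem bv3_le {B : Type} {x : B →₀ ℤ} (hx : 0 ≤ x) {a b c : B} (hab : a ≠ b) (hac : a ≠ c)
    (hbc : b ≠ c) (ha : 1 ≤ x a) (hb : 1 ≤ x b)
    (hc : 1 ≤ x c) : bv a + bv b + bv c ≤ x := by
  intro y
  rw [Finsupp.add_apply, Finsupp.add_apply]
  by_cases h : a = y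
  · subst h; rw [bv_self, bv_ne_Corner hab.symm, bv_ne_Corner hac.symm]; linarith
  · rw [bv_ne_Corner h, zero_add]
    have := bv2_le hx hbc hb hc y
    rwa [Finsupp.add_apply] at this

theorem dimZ_zero2 (a : ℤ) : 2 * dimZ a 0 = (a + 1) * (a + 2) := by
  unfold dimZ
  obtain ⟨k, hk⟩ := Int.even_mul_succ_self (a + 1)
  have h1 : (a + 1) * (0 + 1) * (a + 0 + 2) = 2 * k := by linear_combination hk
  rw [h1, Int.mul_ediv_cancel_left _ two_ne_zero]
  linear_combination -hk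

theorem dimZ_one (a : ℤ) : dimZ a 1 = (a + 1) * (a + 3) := by
  unfold dimZ
  have h1 : (a + 1) * (1 + 1) * (a + 1 + 2) = 2 * ((a + 1) * (a + 3)) := by ring
  rw [h1, Int.mul_ediv_cancel_left _ two_ne_zero]

theorem dimZ_two2 (a : ℤ) : 2 * dimZ a 2 = 3 * (a + 1) * (a + 4) := by
  unfold dimZ
  obtain ⟨k, hk⟩ := Int.even_mul_succ_self (a + 1)
  have h1 : (a + 1) * (2 + 1) * (a + 2 + 2) = 2 * (3 * (k + (a + 1))) := by
    linear_combination 3 * hk
  rw [h1, Int.mul_ediv_cancel_left _ two_ne_zero]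
  linear_combination -3 * hk

set_option maxHeartbeats 4000000 in
/-- the corner argument -/
theorem corner (h : A.Good2) : 8 ≤ ip (G.T (A.u 1)) (G.T (A.u 1)) := by
  classical
  by_contra hR
  push Not at hR
  have hG := h.good
  have hn := hG.hn
  have hnz : (4 : ℤ) ≤ n := by exact_mod_cast hn
  have h3 : ip (A.u 0) (A.u 3) = 0 := h.e0 3 (by norm_num) (by omega)
  have ht : ∀ j : ℤ, 0 ≤ j → j ≤ n → ∃ v, A.t j = bv v := by
    intro j h1 h2
    obtain ⟨a, b, _, _, _, hv⟩ := A.E_ex (a := n - j) (b := j) ⟨by omega, h1, by omega⟩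
    exact ⟨_, hv⟩
  obtain ⟨v0, hv0⟩ := ht 0 le_rfl (by omega)
  obtain ⟨v1, hv1⟩ := ht 1 (by norm_num) (by omega)
  obtain ⟨v2, hv2⟩ := ht 2 (by norm_num) (by omega)
  have hut : ∀ i j : ℤ, ip (A.u i) (A.t j) = 0 := fun i j => A.ip_u_E hG i _ _
  have hu0p := A.u_nonneg hG 0
  have hu1p := A.u_nonneg hG 1
  have hu2p := A.u_nonneg hG 2
  have hp0 : ip (A.u 0) (A.u 0) = 2 := by rw [A.ip_u_self hG le_rfl (by omega), h.p2]
  have hp1 : ip (A.u 1) (A.u 1) = 2 := by
    rw [A.ip_u_self hG (by norm_num) (by omega), h.p2]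
  have hp2 : ip (A.u 2) (A.u 2) = 2 := by
    rw [A.ip_u_self hG (by norm_num) (by omega), h.p2]
  -- degrees
  set m : ℤ := n + 2 with hm
  have hmpos : 0 < m := by omega
  have dgu0 : 2 * G.dg (A.u 0) = m * (m + 1) := by
    rw [A.dg_u le_rfl (by omega), sub_zero, dimZ_zero2]; rw [hm]; ring
  have dgt0 : 2 * G.dg (A.t 0) = m * (m - 1) := by
    rw [A.dg_t le_rfl (by omega), sub_zero, dimZ_zero2]; rw [hm]; ring
  have dgt1 : G.dg (A.t 1) = m * (m - 2) := by
    rw [A.dg_t (by norm_num) (by omega), dimZ_one]; rw [hm]; ring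
  have dgt2 : 2 * G.dg (A.t 2) = 3 * m * (m - 3) := by
    rw [A.dg_t (by norm_num) (by omega), dimZ_two2]; rw [hm]; ring
  -- inner product of S u0 and t0
  have hSu0t0 : ip (G.S (A.u 0)) (A.t 0) = 2 := by
    have h1 := A.Tt (j := 0) le_rfl (by omega)
    have h2 : A.s (0 - 1) = 0 := A.s_out (Or.inl (by norm_num))
    rw [h2, add_zero] at h1
    rw [G.adjoint', h1, ip_add_right, hp0, hut]; norm_num
  have hv0v0 : ip (A.t 0) (A.t 0) = 1 := by rw [hv0]; exact ip_bv_self _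
  have hv1v1 : ip (A.t 1) (A.t 1) = 1 := by rw [hv1]; exact ip_bv_self _
  -- constituents of u0
  obtain ⟨c', d', hcd', hu0'⟩ := G.norm_two hu0p hp0
  have hu0c' : A.u 0 c' = 1 := by
    rw [hu0', Finsupp.add_apply, bv_self, bv_ne_Corner hcd'.symm]; norm_num
  have hu0d' : A.u 0 d' = 1 := by
    rw [hu0', Finsupp.add_apply, bv_self, bv_ne_Corner hcd']; norm_num
  have hSc' : A.t 0 ≤ G.S (bv c') := by
    have := A.S_ge hG (j := 0) le_rfl (by omega) c'
    rwa [hu0c', one_smul] at this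
  have hSd' : A.t 0 ≤ G.S (bv d') := by
    have := A.S_ge hG (j := 0) le_rfl (by omega) d'
    rwa [hu0d', one_smul] at this
  have hSu0 : G.S (A.u 0) = G.S (bv c') + G.S (bv d') := by rw [hu0', map_add]
  -- w
  have hwp : 0 ≤ G.S (A.u 0) - (2 : ℤ) • A.t 0 := by
    intro y
    have h1 := hSc' y
    have h2 := hSd' y
    rw [hSu0]
    simp only [Finsupp.coe_zero, Pi.zero_apply, Finsupp.sub_apply, Finsupp.add_apply,
      Finsupp.smul_apply, smul_eq_mul]
    linarith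
  have hSS : ip (G.S (A.u 0)) (G.S (A.u 0)) = ip (G.T (A.u 1)) (G.T (A.u 1)) - 2 := by
    rw [← G.normal, A.R_end h]
  have hwn : ip (G.S (A.u 0) - (2 : ℤ) • A.t 0) (G.S (A.u 0) - (2 : ℤ) • A.t 0) =
      ip (G.T (A.u 1)) (G.T (A.u 1)) - 6 := by
    rw [ip_sub_left, ip_sub_right, ip_sub_right, ip_smul_left, ip_smul_left, ip_smul_right,
      ip_smul_right, hSS, hSu0t0, hv0v0, ip_comm (A.t 0) (G.S (A.u 0)), hSu0t0]
    ring
  have hwd : 2 * G.dg (G.S (A.u 0) - (2 : ℤ) • A.t 0) = m * (m + 5) := by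
    rw [G.dg_sub, G.dg_S, G.dg_smul]
    linear_combination 3 * dgu0 - 2 * dgt0
  have hwne : ip (G.S (A.u 0) - (2 : ℤ) • A.t 0) (G.S (A.u 0) - (2 : ℤ) • A.t 0) ≠ 0 := by
    intro h1
    have h2 := ip_self_eq_zero h1
    rw [h2, G.dg_zero] at hwd
    nlinarith
  have hwnn := ip_self_nonneg (G.S (A.u 0) - (2 : ℤ) • A.t 0)
  have hw1 : ip (G.S (A.u 0) - (2 : ℤ) • A.t 0) (G.S (A.u 0) - (2 : ℤ) • A.t 0) = 1 := by
    omega
  obtain ⟨z, hz⟩ := G.norm_one hwp hw1
  have hSu0z : G.S (A.u 0) = (2 : ℤ) • A.t 0 + bv z := by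
    rw [← hz]; abel
  have hdz : 2 * G.d z = m * (m + 5) := by
    rw [← G.dg_bv, ← hz]; exact hwd
  have ht0z : ip (A.t 0) (bv z) = 0 := by
    rw [← hz, ip_sub_right, ip_smul_right, ip_comm (A.t 0) (G.S (A.u 0)), hSu0t0, hv0v0]
    norm_num
  -- choose c, d
  obtain ⟨c, d, hcd, hu0, hSc, hSd⟩ : ∃ c d, c ≠ d ∧ A.u 0 = bv c + bv d ∧
      G.S (bv c) = A.t 0 + bv z ∧ G.S (bv d) = A.t 0 := by
    have h1 : (G.S (bv c') - A.t 0) + (G.S (bv d') - A.t 0) = bv z := by
      rw [← hz, hSu0, two_smul]; abel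
    have h2 : 0 ≤ G.S (bv c') - A.t 0 := fun y => by
      have := hSc' y
      simp only [Finsupp.coe_zero, Pi.zero_apply, Finsupp.sub_apply]
      linarith
    have h4 : 0 ≤ G.S (bv d') - A.t 0 := fun y => by
      have := hSd' y
      simp only [Finsupp.coe_zero, Pi.zero_apply, Finsupp.sub_apply]
      linarith
    rcases split_bv h2 h4 h1 with ⟨h5, h6⟩ | ⟨h5, h6⟩
    · exact ⟨c', d', hcd', hu0', by rw [← h5]; abel, sub_eq_zero.1 h6⟩
    · exact ⟨d', c', hcd'.symm, by rw [hu0', add_comm], by rw [← h6]; abel, sub_eq_zero.1 h5⟩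
  have hu0d : A.u 0 d = 1 := by
    rw [hu0, Finsupp.add_apply, bv_self, bv_ne_Corner hcd]; norm_num
  -- e
  have hTdn : ip (G.T (bv d)) (G.T (bv d)) = 1 := by rw [G.normal, hSd, hv0v0]
  obtain ⟨e, he⟩ := G.norm_one (G.T_pos (bv_nonneg_Corner d)) hTdn
  have hu1e : 1 ≤ A.u 1 e := by
    have h1 := A.S_u_ge hG h3 (j := 0) le_rfl (by omega) d
    rw [hu0d, zero_add, G.S_apply, he, ip_bv_right] at h1
    exact h1
  have hTce : G.T (bv c) e = 1 := by
    have h1 : ip (G.T (bv c)) (G.T (bv d)) = 1 := by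
      rw [G.normal, hSc, hSd, ip_add_left, hv0v0, ip_comm (bv z), ht0z]; norm_num
    rw [he, ip_bv_right] at h1
    exact h1
  have hTde : G.T (bv d) e = 1 := by rw [he, bv_self]
  have hdd : 6 * G.d d = m * (m - 1) := by
    have h1 := G.dg_S (bv d)
    rw [hSd, G.dg_bv] at h1
    linarith
  have hde : 2 * G.d e = m * (m - 1) := by
    have h1 := G.dg_T (bv d)
    rw [he, G.dg_bv, G.dg_bv] at h1
    linarith
  obtain ⟨e1, e2, he12, hu1⟩ := G.norm_two hu1p hp1
  obtain ⟨e', hee', hu1⟩ : ∃ e', e ≠ e' ∧ A.u 1 = bv e + bv e' := by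
    by_cases h1 : e1 = e
    · subst h1; exact ⟨e2, he12, hu1⟩
    · by_cases h2 : e2 = e
      · subst h2; exact ⟨e1, Ne.symm h1, by rw [hu1, add_comm]⟩
      · rw [hu1, Finsupp.add_apply, bv_ne_Corner h1, bv_ne_Corner h2] at hu1e
        norm_num at hu1e
  have hu1e1 : A.u 1 e = 1 := by
    rw [hu1, Finsupp.add_apply, bv_self, bv_ne_Corner hee'.symm]; norm_num
  have hu1e' : A.u 1 e' = 1 := by
    rw [hu1, Finsupp.add_apply, bv_self, bv_ne_Corner hee']; norm_num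
  -- S (bv e)
  have hSec : G.S (bv e) c = 1 := by rw [← G.adj]; exact hTce
  have hSed : G.S (bv e) d = 1 := by rw [← G.adj]; exact hTde
  have hSev1 : 1 ≤ G.S (bv e) v1 := by
    have h1 := A.S_ge hG (j := 1) (by norm_num) (by omega) e v1
    rw [hu1e1, one_smul, hv1, bv_self] at h1
    exact h1
  have hu0v1 : A.u 0 v1 = 0 := by
    have h1 := hut 0 1
    rwa [hv1, ip_bv_right] at h1
  have hcv1 : c ≠ v1 := by
    rintro rfl
    rw [hu0, Finsupp.add_apply, bv_self, bv_ne_Corner hcd.symm] at hu0v1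
    norm_num at hu0v1
  have hdv1 : d ≠ v1 := by
    rintro rfl
    rw [hu0, Finsupp.add_apply, bv_self, bv_ne_Corner hcd] at hu0v1
    norm_num at hu0v1
  have hSe_ge : bv c + bv d + bv v1 ≤ G.S (bv e) :=
    bv3_le (G.S_pos (bv_nonneg_Corner e)) hcd hcv1 hdv1 hSec.ge hSed.ge hSev1
  have hSe : G.S (bv e) = A.u 0 + A.t 1 := by
    have h1 : 0 ≤ G.S (bv e) - (A.u 0 + A.t 1) := by
      intro y
      have := hSe_ge y
      rw [← hu0, ← hv1] at this
      simp only [Finsupp.coe_zero, Pi.zero_apply, Finsupp.sub_apply]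
      linarith
    have h2 : G.dg (G.S (bv e) - (A.u 0 + A.t 1)) = 0 := by
      rw [G.dg_sub, G.dg_add, G.dg_S, G.dg_bv, dgt1]
      have h4 : 2 * (3 * G.d e - (G.dg (A.u 0) + m * (m - 2))) = 0 := by
        linear_combination 3 * hde - dgu0
      linarith
    exact sub_eq_zero.1 (G.dg_eq_zero h1 h2)
  have hTen : ip (G.T (bv e)) (G.T (bv e)) = 3 := by
    rw [G.normal, hSe, ip_add_left, ip_add_right, ip_add_right, hp0, hut, ip_comm (A.t 1),
      hut, hv1v1]
    norm_num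
  have hTep := G.T_pos (bv_nonneg_Corner e)
  have hle1 : ∀ y, G.T (bv e) y ≤ 1 := by
    intro y
    have h1 := mul_le_ip hTep hTep y
    rw [hTen] at h1
    by_contra h2
    push Not at h2
    nlinarith
  have hTev0 : G.T (bv e) v0 = 1 := by
    have h1 := A.T_ge hG (j := 1) le_rfl (by omega) e v0
    rw [hu1e1, one_smul, sub_self, hv0, bv_self] at h1
    exact le_antisymm (hle1 v0) h1
  -- arrows to u2
  have hTe2 : ip (G.T (bv e)) (A.u 2) = 1 := by
    have h1 := A.S_u_ge hG h3 (j := 1) (by norm_num) (by omega) e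
    have h2 := A.S_u_ge hG h3 (j := 1) (by norm_num) (by omega) e'
    have h4 := h.kap 1 (by norm_num) (by omega)
    norm_num at h1 h2 h4
    rw [hu1e1, G.S_apply, ip_comm] at h1
    rw [hu1e', G.S_apply, ip_comm] at h2
    have h5 : G.T (A.u 1) = G.T (bv e) + G.T (bv e') := by rw [hu1, map_add]
    rw [h5, ip_add_left] at h4
    linarith
  obtain ⟨g1, g2, hg12, hu2'⟩ := G.norm_two hu2p hp2
  obtain ⟨g, g', hgg', hu2, hTeg, hTeg'⟩ : ∃ g g', g ≠ g' ∧ A.u 2 = bv g + bv g' ∧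
      G.T (bv e) g = 1 ∧ G.T (bv e) g' = 0 := by
    have h1 := hTe2
    rw [hu2', ip_add_right, ip_bv_right, ip_bv_right] at h1
    have h2 := hTep g1
    have h4 := hTep g2
    simp only [Finsupp.coe_zero, Pi.zero_apply] at h2 h4
    rcases (by omega : (G.T (bv e) g1 = 1 ∧ G.T (bv e) g2 = 0) ∨
      (G.T (bv e) g2 = 1 ∧ G.T (bv e) g1 = 0)) with ⟨h5, h6⟩ | ⟨h5, h6⟩
    · exact ⟨g1, g2, hg12, hu2', h5, h6⟩
    · exact ⟨g2, g1, hg12.symm, by rw [hu2', add_comm], h5, h6⟩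
  have hu2g : A.u 2 g = 1 := by
    rw [hu2, Finsupp.add_apply, bv_self, bv_ne_Corner hgg'.symm]; norm_num
  have hu2v0 : A.u 2 v0 = 0 := by
    have h1 := hut 2 0
    rwa [hv0, ip_bv_right] at h1
  have hgv0 : g ≠ v0 := by
    rintro rfl
    omega
  have hTe_ge : bv v0 + bv g ≤ G.T (bv e) := bv2_le hTep hgv0.symm hTev0.ge hTeg.ge
  have hxp : 0 ≤ G.T (bv e) - (bv v0 + bv g) := by
    intro y
    have := hTe_ge y
    simp only [Finsupp.coe_zero, Pi.zero_apply, Finsupp.sub_apply]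
    linarith
  have hxn : ip (G.T (bv e) - (bv v0 + bv g)) (G.T (bv e) - (bv v0 + bv g)) = 1 := by
    have a1 : ip (bv v0) (bv v0) = 1 := ip_bv_self v0
    have a2 : ip (bv g) (bv g) = 1 := ip_bv_self g
    have a3 : ip (bv g) (bv v0) = 0 := by rw [ip_bv_right, bv_ne_Corner hgv0]
    have a4 : ip (bv v0) (bv g) = 0 := by rw [ip_comm, a3]
    have a5 : ip (G.T (bv e)) (bv v0) = 1 := by rw [ip_bv_right, hTev0]
    have a6 : ip (G.T (bv e)) (bv g) = 1 := by rw [ip_bv_right, hTeg]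
    have a7 : ip (bv v0) (G.T (bv e)) = 1 := by rw [ip_comm, a5]
    have a8 : ip (bv g) (G.T (bv e)) = 1 := by rw [ip_comm, a6]
    rw [ip_sub_left, ip_sub_right, ip_sub_right, ip_add_left, ip_add_left, ip_add_right,
      ip_add_right, ip_add_right, hTen, a1, a2, a3, a4, a5, a6, a7, a8]
    norm_num
  obtain ⟨k, hk⟩ := G.norm_one hxp hxn
  have hTe : G.T (bv e) = bv v0 + bv g + bv k := by rw [← hk]; abel
  have hkv0 : k ≠ v0 := by
    rintro rfl
    have h1 := hTev0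
    rw [hTe, Finsupp.add_apply, Finsupp.add_apply, bv_self, bv_ne_Corner hgv0] at h1
    norm_num at h1
  have hkg : k ≠ g := by
    rintro rfl
    have h1 := hTeg
    rw [hTe, Finsupp.add_apply, Finsupp.add_apply, bv_self, bv_ne_Corner hgv0.symm] at h1
    norm_num at h1
  have hkg' : k ≠ g' := by
    rintro rfl
    have h1 := hTeg'
    have h2 : 0 ≤ (bv v0 : G.B →₀ ℤ) k := bv_nonneg_Corner v0 k
    have h4 : 0 ≤ (bv g : G.B →₀ ℤ) k := bv_nonneg_Corner g k
    rw [hTe, Finsupp.add_apply, Finsupp.add_apply, bv_self] at h1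
    linarith
  have hR2 : G.T (A.u 1) = G.S (A.u 0) + A.u 2 := by
    have h1 := A.R2 (by omega : 2 ≤ n) (j := 0) le_rfl (by omega)
    have h2 : A.u (0 - 1) = 0 := A.u_out (Or.inl (by norm_num))
    rw [h2, add_zero, zero_add, zero_add] at h1
    exact h1
  have hkz : k = z := by
    have h1 : G.T (bv e) k ≤ G.T (A.u 1) k := G.T_mono (bv_le hu1p hu1e) k
    have h2 : 1 ≤ G.T (bv e) k := by
      have h2 : 0 ≤ (bv v0 : G.B →₀ ℤ) k := bv_nonneg_Corner v0 k
      have h4 : 0 ≤ (bv g : G.B →₀ ℤ) k := bv_nonneg_Corner g k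
      rw [hTe, Finsupp.add_apply, Finsupp.add_apply, bv_self]
      linarith
    rw [hR2, hSu0z, hu2, hv0] at h1
    simp only [Finsupp.add_apply, Finsupp.smul_apply, smul_eq_mul] at h1
    rw [bv_ne_Corner hkv0.symm, bv_ne_Corner hkg.symm, bv_ne_Corner hkg'.symm] at h1
    by_contra h5
    rw [bv_ne_Corner (Ne.symm h5)] at h1
    linarith
  have hdg : 2 * G.d g = m * (m - 7) := by
    have h1 := G.dg_T (bv e)
    rw [hTe, G.dg_add, G.dg_add, ← hv0, G.dg_bv, G.dg_bv, G.dg_bv, hkz] at h1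
    linear_combination 2 * h1 - dgt0 - hdz + 3 * hde
  have hfin : G.dg (A.t 2) ≤ 3 * G.d g := by
    have h1 := A.S_ge hG (j := 2) (by norm_num) (by omega) g
    rw [hu2g, one_smul] at h1
    have h2 := G.dg_mono h1
    rwa [G.dg_S, G.dg_bv] at h2
  nlinarith

end Arr
end Pool.Agent.Helper363.Nita
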