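import Pool.Agent.Helper363.Nita.Base
import Pool.Agent.Helper363.Nita.CDef

namespace Pool.Agent.Helper363.Nita

namespace CNITA
variable {ι A : Type} [CommRing A] [Algebra ℂ A] (C : CNITA ι A)


/-! ### algebra lemmas -/

theorem repr_mul' (i j m : ι) : C.b.repr (C.b i * C.b j) m = (C.N i j m : ℂ) := by
  have h : C.b i * C.b j = Finsupp.linearCombination ℂ C.b
      ((C.N i j).mapRange (fun n : ℕ => (n : ℂ)) Nat.cast_zero) := by
    rw [C.mul_b, Finsupp.linearCombination_apply, Finsupp.sum_mapRange_index (by simp)]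
  rw [h, C.b.repr_linearCombination, Finsupp.mapRange_apply]

theorem bar_bar' (i : ι) : C.bar (C.bar i) = i := by
  apply C.b.injective
  rw [← C.conj_b, ← C.conj_b, C.conj_conj]

theorem bar_one' : C.bar C.one = C.one := by
  apply C.b.injective
  rw [← C.conj_b, C.b_one, map_one]

theorem repr_conj' (a : A) (m : ι) : C.b.repr (C.conj a) m = C.b.repr a (C.bar m) := by
  classical
  have h : (C.b.coord m) ∘ₗ C.conj.toLinearMap = C.b.coord (C.bar m) := by
    apply C.b.ext
    intro i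
    simp only [LinearMap.comp_apply, AlgEquiv.toLinearMap_apply, Module.Basis.coord_apply, C.conj_b,
      Module.Basis.repr_self, Finsupp.single_apply]
    by_cases h1 : C.bar i = m
    · rw [if_pos h1, if_pos (by rw [← h1, C.bar_bar'])]
    · rw [if_neg h1, if_neg (fun h2 => h1 (by rw [h2, C.bar_bar']))]
  exact LinearMap.congr_fun h a

theorem N_comm' (i j : ι) : C.N i j = C.N j i := by
  ext m
  have h : (C.N i j m : ℂ) = (C.N j i m : ℂ) := by
    rw [← C.repr_mul', ← C.repr_mul', mul_comm]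
  exact_mod_cast h

theorem N_bar' (i j m : ι) : C.N (C.bar i) (C.bar j) (C.bar m) = C.N i j m := by
  have h : (C.N (C.bar i) (C.bar j) (C.bar m) : ℂ) = (C.N i j m : ℂ) := by
    rw [← C.repr_mul', ← C.repr_mul', ← C.conj_b, ← C.conj_b, ← map_mul, C.repr_conj', C.bar_bar']
  exact_mod_cast h

open Classical in
theorem N_one' (i m : ι) : C.N i C.one m = if i = m then 1 else 0 := by
  have h : (C.N i C.one m : ℂ) = ((if i = m then 1 else 0 : ℕ) : ℂ) := by
    rw [← C.repr_mul', C.b_one, mul_one, Module.Basis.repr_self, Finsupp.single_apply]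
    push_cast
    rfl
  exact_mod_cast h

theorem g_one' (i : ι) : C.g i C.one = 1 := by
  classical
  have h := C.table i (C.bar i) C.one
  rw [C.N_bar_one, C.bar_bar', C.N_one', if_pos rfl] at h
  simpa using h.symm

open Classical in
theorem N_to_one' (i j : ι) : C.N i j C.one = if C.bar j = i then 1 else 0 := by
  have h := C.table i j C.one
  rw [C.g_one', C.N_one', one_mul] at h
  exact_mod_cast h

theorem tau_mul' (a : A) (m : ι) :
    C.b.repr (a * C.b (C.bar m)) C.one = C.b.repr a m := by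
  classical
  have h : (C.b.coord C.one) ∘ₗ (LinearMap.mulRight ℂ (C.b (C.bar m))) = C.b.coord m := by
    apply C.b.ext
    intro i
    simp only [LinearMap.comp_apply, LinearMap.mulRight_apply, Module.Basis.coord_apply,
      Module.Basis.repr_self, Finsupp.single_apply]
    rw [C.repr_mul', C.N_to_one', C.bar_bar']
    by_cases h1 : m = i
    · rw [if_pos h1, if_pos h1.symm]; simp
    · rw [if_neg h1, if_neg (fun h2 => h1 h2.symm)]; simp
  exact LinearMap.congr_fun h a

theorem N_adj' (i j m : ι) : C.N i j m = C.N (C.bar j) m i := by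
  have h : (C.N i j m : ℂ) = (C.N (C.bar j) m i : ℂ) := by
    rw [← C.repr_mul', ← C.repr_mul', ← C.tau_mul', ← C.tau_mul' (C.b (C.bar j) * C.b m) i]
    have h1 : C.b (C.bar j) * C.b m * C.b (C.bar i) =
        C.conj (C.b i * C.b j * C.b (C.bar m)) := by
      rw [map_mul, map_mul, C.conj_b, C.conj_b, C.conj_b, C.bar_bar']
      ring
    rw [h1, C.repr_conj', C.bar_one']
  exact_mod_cast h

/-! ### the graph -/

/-- the row of multiplication by `b w` with grading shift `e` -/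
noncomputable def vec (w : ι) (e : ZMod 3) (p : ι × ZMod 3) : ι × ZMod 3 →₀ ℤ :=
  Finsupp.mapDomain (fun j => (j, p.2 + e))
    ((C.N w p.1).mapRange (fun n : ℕ => (n : ℤ)) Nat.cast_zero)

open Classical in
theorem vec_apply (w : ι) (e : ZMod 3) (p q : ι × ZMod 3) :
    C.vec w e p q = if q.2 = p.2 + e then (C.N w p.1 q.1 : ℤ) else 0 := by
  unfold vec
  have hinj : Function.Injective (fun j : ι => ((j, p.2 + e) : ι × ZMod 3)) := by
    intro a b h
    exact congrArg Prod.fst h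
  by_cases h : q.2 = p.2 + e
  · rw [if_pos h]
    have hq : q = (fun j : ι => ((j, p.2 + e) : ι × ZMod 3)) q.1 := Prod.ext rfl h
    conv_lhs => rw [hq]
    rw [Finsupp.mapDomain_apply hinj, Finsupp.mapRange_apply]
  · rw [if_neg h]
    apply Finsupp.mapDomain_notin_range
    rintro ⟨j, hj⟩
    exact h (congrArg Prod.snd hj).symm

/-- multiplication by `b w` with grading shift `e` -/
noncomputable def op (w : ι) (e : ZMod 3) : (ι × ZMod 3 →₀ ℤ) →ₗ[ℤ] (ι × ZMod 3 →₀ ℤ) :=
  Finsupp.linearCombination ℤ (C.vec w e)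

theorem op_bv (w : ι) (e : ZMod 3) (p : ι × ZMod 3) : C.op w e (bv p) = C.vec w e p := by
  unfold op
  rw [Finsupp.linearCombination_single, one_smul]

open Classical in
/-- the component of grading `k`, as an element of the algebra -/
noncomputable def th (k : ZMod 3) : (ι × ZMod 3 →₀ ℤ) →ₗ[ℤ] A :=
  Finsupp.linearCombination ℤ (fun p : ι × ZMod 3 => if p.2 = k then C.b p.1 else 0)

open Classical in
theorem th_bv (k : ZMod 3) (p : ι × ZMod 3) :
    C.th k (bv p) = if p.2 = k then C.b p.1 else 0 := by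
  unfold th
  rw [Finsupp.linearCombination_single, one_smul]

theorem single_eq_smul_bv (p : ι × ZMod 3) (c : ℤ) :
    (Finsupp.single p c : ι × ZMod 3 →₀ ℤ) = c • bv p := by
  rw [Finsupp.smul_single, smul_eq_mul, mul_one]

theorem repr_th (k : ZMod 3) (F : ι × ZMod 3 →₀ ℤ) (j : ι) :
    C.b.repr (C.th k F) j = ((F (j, k) : ℤ) : ℂ) := by
  classical
  induction F using Finsupp.induction_linear with
  | zero => simp
  | add F G hF hG =>
    rw [map_add, map_add, Finsupp.add_apply, hF, hG, Finsupp.add_apply]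
    push_cast
    rfl
  | single p c =>
    rw [single_eq_smul_bv, map_smul, C.th_bv, map_zsmul, Finsupp.smul_apply, Finsupp.smul_apply,
      Finsupp.single_apply]
    by_cases h : p.2 = k
    · rw [if_pos h, Module.Basis.repr_self, Finsupp.single_apply]
      by_cases h1 : p.1 = j
      · rw [if_pos h1, if_pos (Prod.ext h1 h)]
        simp
      · rw [if_neg h1, if_neg (fun h2 => h1 (by rw [h2]))]
        simp
    · rw [if_neg h, map_zero, if_neg (fun h2 => h (by rw [h2]))]
      simp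

theorem th_inj {F G : ι × ZMod 3 →₀ ℤ} (h : ∀ k, C.th k F = C.th k G) : F = G := by
  ext ⟨j, k⟩
  have h1 := C.repr_th k F j
  rw [h k, C.repr_th k G j] at h1
  exact_mod_cast h1.symm

theorem th_vec (k : ZMod 3) (w : ι) (e : ZMod 3) (p : ι × ZMod 3) :
    C.th k (C.vec w e p) = C.b w * C.th (k - e) (bv p) := by
  classical
  apply C.b.repr.injective
  ext j
  rw [C.repr_th, C.vec_apply, C.th_bv]
  by_cases h : k = p.2 + e
  · rw [if_pos h, if_pos (by rw [h]; ring), C.repr_mul']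
    simp
  · rw [if_neg h, if_neg (fun h2 => h (by rw [h2]; ring)), mul_zero, map_zero]
    simp

theorem th_op (k : ZMod 3) (w : ι) (e : ZMod 3) (F : ι × ZMod 3 →₀ ℤ) :
    C.th k (C.op w e F) = C.b w * C.th (k - e) F := by
  induction F using Finsupp.induction_linear with
  | zero => simp
  | add F G hF hG => rw [map_add, map_add, hF, hG, map_add, mul_add]
  | single p c =>
    rw [single_eq_smul_bv, map_smul, map_smul, map_smul, C.op_bv, C.th_vec, mul_smul_comm]

/-- forget the grading -/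
noncomputable def ph (F : ι × ZMod 3 →₀ ℤ) : A := ∑ k : ZMod 3, C.th k F

theorem ph_bv (p : ι × ZMod 3) : C.ph (bv p) = C.b p.1 := by
  classical
  unfold ph
  simp only [C.th_bv]
  rw [Finset.sum_ite_eq]
  simp

theorem ph_add (F G : ι × ZMod 3 →₀ ℤ) : C.ph (F + G) = C.ph F + C.ph G := by
  unfold ph
  rw [← Finset.sum_add_distrib]
  exact Finset.sum_congr rfl fun k _ => map_add _ _ _

theorem ph_zero : C.ph 0 = 0 := by
  unfold ph
  simp

theorem ph_smul (c : ℤ) (F : ι × ZMod 3 →₀ ℤ) : C.ph (c • F) = c • C.ph F := by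
  unfold ph
  rw [Finset.smul_sum]
  exact Finset.sum_congr rfl fun k _ => map_smul _ _ _

theorem ph_op (w : ι) (e : ZMod 3) (F : ι × ZMod 3 →₀ ℤ) :
    C.ph (C.op w e F) = C.b w * C.ph F := by
  unfold ph
  simp only [C.th_op]
  rw [← Finset.mul_sum]
  congr 1
  exact Equiv.sum_comp (Equiv.subRight e) (fun k => C.th k F)

/-- degree of a vector -/
noncomputable def dl (F : ι × ZMod 3 →₀ ℤ) : ℤ := F.sum fun y c => c * (C.degNat y.1 : ℤ)

theorem dl_add (F G : ι × ZMod 3 →₀ ℤ) : C.dl (F + G) = C.dl F + C.dl G := by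
  unfold dl
  exact Finsupp.sum_add_index' (by simp) (by intros; ring)

theorem dl_zero : C.dl 0 = 0 := by
  unfold dl
  simp

theorem dl_single (p : ι × ZMod 3) (c : ℤ) :
    C.dl (Finsupp.single p c) = c * (C.degNat p.1 : ℤ) := by
  unfold dl
  rw [Finsupp.sum_single_index (by simp)]

theorem deg_ph (F : ι × ZMod 3 →₀ ℤ) : C.deg (C.ph F) = ((C.dl F : ℤ) : ℂ) := by
  induction F using Finsupp.induction_linear with
  | zero => rw [C.ph_zero, C.dl_zero]; simp
  | add F G hF hG => rw [C.ph_add, C.dl_add, map_add, hF, hG]; push_cast; rfl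
  | single p c =>
    rw [C.dl_single, single_eq_smul_bv, C.ph_smul, map_zsmul, C.ph_bv, C.deg_b, zsmul_eq_mul]
    push_cast
    rfl

theorem op_op (x y : ι) (h6 : C.b x * C.b x = C.b (C.bar x) + C.b y) (F : ι × ZMod 3 →₀ ℤ) :
    C.op x 1 (C.op x 1 F) = C.op (C.bar x) (-1) F + C.op y (-1) F := by
  apply C.th_inj
  intro k
  rw [map_add, C.th_op, C.th_op, C.th_op, C.th_op, ← mul_assoc, h6, add_mul]
  have : k - 1 - 1 = k - -1 := by
    revert k
    decide
  rw [this]

theorem op_comm (x : ι) (F : ι × ZMod 3 →₀ ℤ) :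
    C.op x 1 (C.op (C.bar x) (-1) F) = C.op (C.bar x) (-1) (C.op x 1 F) := by
  apply C.th_inj
  intro k
  rw [C.th_op, C.th_op, C.th_op, C.th_op]
  have h1 : k - 1 - -1 = k := by ring
  have h2 : k - -1 - 1 = k := by ring
  rw [h1, h2]
  ring

theorem vec_nonneg (w : ι) (e : ZMod 3) (p q : ι × ZMod 3) : 0 ≤ C.vec w e p q := by
  classical
  rw [C.vec_apply]
  split_ifs
  · exact Int.natCast_nonneg _
  · exact le_rfl

theorem dl_op (x : ι) (h3 : C.degNat x = 3) (p : ι × ZMod 3) :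
    C.dl (C.op x 1 (bv p)) = 3 * (C.degNat p.1 : ℤ) := by
  have h : ((C.dl (C.op x 1 (bv p)) : ℤ) : ℂ) = ((3 * (C.degNat p.1 : ℤ) : ℤ) : ℂ) := by
    rw [← C.deg_ph, C.ph_op, C.ph_bv, map_mul, C.deg_b, C.deg_b, h3]
    push_cast
    rfl
  exact_mod_cast h

/-- the graded graph of a table algebra -/
noncomputable def gNG (x y : ι) (h3 : C.degNat x = 3)
    (h6 : C.b x * C.b x = C.b (C.bar x) + C.b y) : NG where
  B := ι × ZMod 3
  T := C.op x 1
  S := C.op (C.bar x) (-1)
  T_nonneg b y := by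
    rw [C.op_bv]
    exact C.vec_nonneg _ _ _ _
  adj b y := by
    classical
    rw [C.op_bv, C.op_bv, C.vec_apply, C.vec_apply]
    have h : C.N x b.1 y.1 = C.N (C.bar x) y.1 b.1 := by
      rw [C.N_comm' x b.1, C.N_adj' b.1 x y.1]
    by_cases h1 : y.2 = b.2 + 1
    · rw [if_pos h1, if_pos (by rw [h1]; ring), h]
    · rw [if_neg h1, if_neg (fun h2 => h1 (by rw [h2]; ring))]
  comm F := C.op_comm x F
  tri b q := by
    rw [C.op_op x y h6, Finsupp.add_apply]
    have := C.vec_nonneg y (-1) b q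
    rw [← C.op_bv] at this
    linarith
  bar p := (C.bar p.1, - p.2)
  bar_bar p := by
    show (C.bar (C.bar p.1), - - p.2) = p
    rw [C.bar_bar', neg_neg]
  T_bar b y := by
    classical
    rw [C.op_bv, C.op_bv, C.vec_apply, C.vec_apply]
    show (if - y.2 = - b.2 + 1 then (C.N x (C.bar b.1) (C.bar y.1) : ℤ) else 0) = _
    have h : C.N x (C.bar b.1) (C.bar y.1) = C.N (C.bar x) b.1 y.1 := by
      rw [← C.N_bar' (C.bar x) b.1 y.1, C.bar_bar']
    by_cases h1 : y.2 = b.2 + -1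
    · rw [if_pos h1, if_pos (by rw [h1]; ring), h]
    · rw [if_neg h1, if_neg (fun h2 => h1 (by rw [← neg_neg y.2, h2]; ring))]
  d p := (C.degNat p.1 : ℤ)
  d_pos p := by exact_mod_cast C.degNat_pos p.1
  d_bar p := by
    show (C.degNat (C.bar p.1) : ℤ) = (C.degNat p.1 : ℤ)
    rw [C.degNat_bar]
  d_T p := C.dl_op x h3 p
  gr p := p.2
  gr_T b y h := by
    classical
    rw [C.op_bv, C.vec_apply] at h
    by_contra h1
    exact h (if_neg h1)
  gr_bar p := rfl

/-! ### the array -/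

/-- vertices of the array -/
def Vf (f : ℤ → ℤ → ι) (a b : ℕ) : ι × ZMod 3 := (f (2 * b + 1) (a + b + 1), (a : ZMod 3) - b)

theorem Vf_bar {x : ι} {n : ℕ} {f : ℤ → ℤ → ι} (hf : C.IsArray x n f) (a b : ℕ)
    (hab : a + b ≤ n) : (C.bar (Vf f a b).1, - (Vf f a b).2) = Vf f b a := by
  have h := hf.2.2.1 (2 * a + 1) (a + b + 1) (by omega) (by omega) ⟨a, rfl⟩ (by omega) (by omega)
  have e1 : (2 * ((a : ℤ) + b + 1) - (2 * a + 1)) = 2 * b + 1 := by ring
  rw [e1] at h
  unfold Vf
  have e2 : (b : ℤ) + a + 1 = a + b + 1 := by ring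
  rw [e2, h]
  simp only [neg_sub]

theorem Vf_mul {x : ι} {n : ℕ} {f : ℤ → ℤ → ι} (hf : C.IsArray x n f) (a b : ℕ)
    (hab : a + b < n) : C.b x * C.b (Vf f a b).1 = C.b (Vf f (a + 1) b).1 +
      (if 1 ≤ a then C.b (Vf f (a - 1) (b + 1)).1 else 0) +
      (if 1 ≤ b then C.b (Vf f a (b - 1)).1 else 0) := by
  by_cases h0 : a + b = 0
  · have ha : a = 0 := by omega
    have hb : b = 0 := by omega
    subst ha hb
    have e1 : (Vf f 0 0).1 = C.one := by
      rw [← hf.1]
      simp [Vf]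
    have e2 : (Vf f (0 + 1) 0).1 = x := by
      rw [← hf.2.1]
      simp [Vf]
    rw [e1, e2, C.b_one]
    simp
  · have h := hf.2.2.2 (2 * b + 1) (a + b + 1) (by omega) (by omega) ⟨b, rfl⟩ (by omega) (by omega)
    have t1 : C.val f (2 * b + 1 - 2) ((a : ℤ) + b + 1 - 1) =
        if 1 ≤ b then C.b (Vf f a (b - 1)).1 else 0 := by
      unfold val
      by_cases hb : 1 ≤ b
      · rw [if_neg (by omega), if_pos hb]
        obtain ⟨c, rfl⟩ : ∃ c, b = c + 1 := ⟨b - 1, by omega⟩
        unfold Vf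
        rw [Nat.add_sub_cancel]
        congr 2
        · push_cast; ring
        · push_cast; ring
      · rw [if_pos (by omega), if_neg hb]
    have t2 : C.val f (2 * b + 1 + 2) ((a : ℤ) + b + 1) =
        if 1 ≤ a then C.b (Vf f (a - 1) (b + 1)).1 else 0 := by
      unfold val
      by_cases ha : 1 ≤ a
      · rw [if_neg (by omega), if_pos ha]
        obtain ⟨c, rfl⟩ : ∃ c, a = c + 1 := ⟨a - 1, by omega⟩
        unfold Vf
        rw [Nat.add_sub_cancel]
        congr 2
        all_goals (push_cast; try ring)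
      · rw [if_pos (by omega), if_neg ha]
    have t3 : C.val f (2 * b + 1) ((a : ℤ) + b + 1 + 1) = C.b (Vf f (a + 1) b).1 := by
      unfold val
      rw [if_neg (by omega)]
      unfold Vf
      congr 2
      push_cast
      ring
    rw [t1, t2, t3] at h
    show C.b x * C.b (f (2 * b + 1) (a + b + 1)) = _
    rw [h]
    ring

theorem Vf_snd1 (f : ℤ → ℤ → ι) (a b : ℕ) : (Vf f (a + 1) b).2 = (Vf f a b).2 + 1 := by
  unfold Vf
  push_cast
  ring

theorem Vf_snd2 (f : ℤ → ℤ → ι) (a b : ℕ) (ha : 1 ≤ a) :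
    (Vf f (a - 1) (b + 1)).2 = (Vf f a b).2 + 1 := by
  obtain ⟨c, rfl⟩ : ∃ c, a = c + 1 := ⟨a - 1, by omega⟩
  unfold Vf
  rw [Nat.add_sub_cancel]
  push_cast
  have h3 : (3 : ZMod 3) = 0 := rfl
  linear_combination -h3

theorem Vf_snd3 (f : ℤ → ℤ → ι) (a b : ℕ) (hb : 1 ≤ b) :
    (Vf f a (b - 1)).2 = (Vf f a b).2 + 1 := by
  obtain ⟨c, rfl⟩ : ∃ c, b = c + 1 := ⟨b - 1, by omega⟩
  unfold Vf
  rw [Nat.add_sub_cancel]
  push_cast
  ring

theorem Vf_T {x : ι} {n : ℕ} {f : ℤ → ℤ → ι} (hf : C.IsArray x n f) (a b : ℕ)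
    (hab : a + b < n) : C.op x 1 (bv (Vf f a b)) = bv (Vf f (a + 1) b) +
      (if 1 ≤ a then bv (Vf f (a - 1) (b + 1)) else 0) +
      (if 1 ≤ b then bv (Vf f a (b - 1)) else 0) := by
  classical
  have hm := C.Vf_mul hf a b hab
  apply C.th_inj
  intro k
  rw [C.th_op, C.th_bv, map_add, map_add, C.th_bv, Vf_snd1]
  have e2 : C.th k (if 1 ≤ a then bv (Vf f (a - 1) (b + 1)) else 0) =
      if (Vf f a b).2 + 1 = k then (if 1 ≤ a then C.b (Vf f (a - 1) (b + 1)).1 else 0) else 0 := by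
    by_cases ha : 1 ≤ a
    · rw [if_pos ha, C.th_bv, Vf_snd2 f a b ha, if_pos ha]
    · rw [if_neg ha, if_neg ha, map_zero]
      simp
  have e3 : C.th k (if 1 ≤ b then bv (Vf f a (b - 1)) else 0) =
      if (Vf f a b).2 + 1 = k then (if 1 ≤ b then C.b (Vf f a (b - 1)).1 else 0) else 0 := by
    by_cases hb : 1 ≤ b
    · rw [if_pos hb, C.th_bv, Vf_snd3 f a b hb, if_pos hb]
    · rw [if_neg hb, if_neg hb, map_zero]
      simp
  rw [e2, e3]
  by_cases hk : (Vf f a b).2 + 1 = k
  · rw [if_pos hk, if_pos hk, if_pos hk, if_pos (by rw [← hk]; ring), hm]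
  · rw [if_neg hk, if_neg hk, if_neg hk, if_neg (fun h => hk (by rw [h]; ring))]
    simp

theorem two_dimZ (a b : ℤ) : 2 * dimZ a b = (a + 1) * (b + 1) * (a + b + 2) := by
  unfold dimZ
  apply Int.mul_ediv_cancel'
  rcases Int.even_or_odd a with ⟨c, hc⟩ | ⟨c, hc⟩
  · rcases Int.even_or_odd b with ⟨e, he⟩ | ⟨e, he⟩
    · exact ⟨(a + 1) * (b + 1) * (c + e + 1), by rw [hc, he]; ring⟩
    · exact ⟨(a + 1) * (e + 1) * (a + b + 2), by rw [he]; ring⟩
  · exact ⟨(c + 1) * (b + 1) * (a + b + 2), by rw [hc]; ring⟩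

theorem Vf_d {x : ι} (h3 : C.degNat x = 3) {n : ℕ} {f : ℤ → ℤ → ι} (hf : C.IsArray x n f) :
    ∀ s : ℕ, ∀ a b : ℕ, a + b = s → a + b ≤ n → (C.degNat (Vf f a b).1 : ℤ) = dimZ a b := by
  intro s
  induction s using Nat.strong_induction_on with
  | _ s ih =>
    have hpos : ∀ a b : ℕ, a + 1 + b = s → a + 1 + b ≤ n →
        (C.degNat (Vf f (a + 1) b).1 : ℤ) = dimZ (a + 1 : ℕ) b := by
      intro a b hs hn
      have h := C.dl_op x h3 (Vf f a b)
      rw [C.Vf_T hf a b (by omega), C.dl_add, C.dl_add] at h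
      have hbv : ∀ p : ι × ZMod 3, C.dl (bv p) = (C.degNat p.1 : ℤ) := by
        intro p
        rw [C.dl_single, one_mul]
      rw [hbv, ih (a + b) (by omega) a b rfl (by omega)] at h
      have e2 : C.dl (if 1 ≤ a then bv (Vf f (a - 1) (b + 1)) else 0) =
          dimZ ((a : ℤ) - 1) (b + 1) := by
        by_cases ha : 1 ≤ a
        · rw [if_pos ha, hbv, ih (a - 1 + (b + 1)) (by omega) _ _ rfl (by omega)]
          rw [Nat.cast_sub ha]
          push_cast
          rfl
        · have ha0 : a = 0 := by omega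
          rw [if_neg ha, C.dl_zero, ha0]
          unfold dimZ
          simp
      have e3 : C.dl (if 1 ≤ b then bv (Vf f a (b - 1)) else 0) =
          dimZ (a : ℤ) (b - 1) := by
        by_cases hb : 1 ≤ b
        · rw [if_pos hb, hbv, ih (a + (b - 1)) (by omega) _ _ rfl (by omega)]
          rw [Nat.cast_sub hb]
          push_cast
          rfl
        · have hb0 : b = 0 := by omega
          rw [if_neg hb, C.dl_zero, hb0]
          unfold dimZ
          simp
      rw [e2, e3] at h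
      have d1 := two_dimZ (a : ℤ) b
      have d2 := two_dimZ ((a : ℤ) - 1) (b + 1)
      have d3 := two_dimZ (a : ℤ) (b - 1)
      have d4 := two_dimZ ((a : ℤ) + 1) b
      push_cast
      have : 2 * (C.degNat (Vf f (a + 1) b).1 : ℤ) = 2 * dimZ ((a : ℤ) + 1) b := by
        rw [d4]
        linear_combination 2 * h + 3 * d1 - d2 - d3
      linarith
    intro a b hs hn
    rcases a with _ | a
    · rcases b with _ | b
      · have e1 : (Vf f 0 0).1 = C.one := by
          rw [← hf.1]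
          simp [Vf]
        have e2 : (C.degNat C.one : ℂ) = 1 := by
          rw [← C.deg_b, C.b_one, map_one]
        have e3 : C.degNat C.one = 1 := by exact_mod_cast e2
        rw [e1, e3]
        decide
      · have h1 := C.Vf_bar hf (b + 1) 0 (by omega)
        rw [← h1]
        show (C.degNat (C.bar (Vf f (b + 1) 0).1) : ℤ) = _
        rw [C.degNat_bar, hpos b 0 (by omega) (by omega)]
        unfold dimZ
        congr 1
        try ring
    · exact hpos a b (by omega) hn

/-- TARGET: an array gives an array of the graded graph on `ι × ZMod 3`, and a longer array of that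
graph gives a longer array -/
theorem toNG (x y : ι) (h3 : C.degNat x = 3) (h6 : C.b x * C.b x = C.b (C.bar x) + C.b y)
    {n : ℕ} (hn : 2 ≤ n) {f : ℤ → ℤ → ι} (hf : C.IsArray x n f) :
    ∃ (G : NG) (M : Arr G n), ∀ M' : Arr G (n + 1), (∀ a b, a + b ≤ n → M'.V a b = M.V a b) →
      ∃ f', C.IsArray x (n + 1) f' := by
  refine ⟨C.gNG x y h3 h6, ⟨Vf f, fun a b h => C.Vf_bar hf a b h,
    fun a b h => C.Vf_d h3 hf _ a b rfl h, fun a b h => rfl, fun a b h => C.Vf_T hf a b h⟩, ?_⟩
  intro M' hM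
  set f' : ℤ → ℤ → ι := fun k i =>
    (show ι × ZMod 3 from M'.V (i - 1 - (k - 1) / 2).toNat ((k - 1) / 2).toNat).1 with hf'
  have key : ∀ a b : ℕ, f' (2 * b + 1) (a + b + 1) = (show ι × ZMod 3 from M'.V a b).1 := by
    intro a b
    have e1 : (2 * (b : ℤ) + 1 - 1) / 2 = b := by omega
    have e2 : (a : ℤ) + b + 1 - 1 - b = a := by ring
    simp only [hf', e1, e2, Int.toNat_natCast]
  have hmul : ∀ a b : ℕ, a + b < n + 1 →
      C.b x * C.b (f' (2 * b + 1) (a + b + 1)) = C.b (f' (2 * b + 1) (a + b + 1 + 1)) +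
      (if 1 ≤ a then C.b (f' (2 * b + 1 + 2) (a + b + 1)) else 0) +
      (if 1 ≤ b then C.b (f' (2 * b + 1 - 2) (a + b + 1 - 1)) else 0) := by
    intro a b hab
    have h := M'.T_V a b hab
    have h' := congrArg (fun F : ι × ZMod 3 →₀ ℤ => C.ph F) h
    have h1 : C.ph (C.op x 1 (bv (show ι × ZMod 3 from M'.V a b))) =
        C.ph (bv (show ι × ZMod 3 from M'.V (a + 1) b) +
          (if 1 ≤ a then bv (show ι × ZMod 3 from M'.V (a - 1) (b + 1)) else 0) +
          (if 1 ≤ b then bv (show ι × ZMod 3 from M'.V a (b - 1)) else 0)) := h'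
    rw [C.ph_op, C.ph_bv, C.ph_add, C.ph_add, C.ph_bv] at h1
    rw [key a b, h1]
    congr 1
    · congr 1
      · have e1 : (a : ℤ) + b + 1 + 1 = ((a + 1 : ℕ) : ℤ) + b + 1 := by push_cast; ring
        rw [e1, key (a + 1) b]
      · by_cases ha : 1 ≤ a
        · rw [if_pos ha, if_pos ha, C.ph_bv]
          obtain ⟨c, rfl⟩ : ∃ c, a = c + 1 := ⟨a - 1, by omega⟩
          have e1 : ((c + 1 : ℕ) : ℤ) + b + 1 = (c : ℤ) + ((b + 1 : ℕ) : ℤ) + 1 := by
            push_cast; ring
          have e2 : 2 * (b : ℤ) + 1 + 2 = 2 * ((b + 1 : ℕ) : ℤ) + 1 := by push_cast; ring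
          rw [e1, e2, key c (b + 1), Nat.add_sub_cancel]
        · rw [if_neg ha, if_neg ha, C.ph_zero]
    · by_cases hb : 1 ≤ b
      · rw [if_pos hb, if_pos hb, C.ph_bv]
        obtain ⟨c, rfl⟩ : ∃ c, b = c + 1 := ⟨b - 1, by omega⟩
        have e1 : (a : ℤ) + ((c + 1 : ℕ) : ℤ) + 1 - 1 = (a : ℤ) + (c : ℤ) + 1 := by
          push_cast; ring
        have e2 : 2 * ((c + 1 : ℕ) : ℤ) + 1 - 2 = 2 * (c : ℤ) + 1 := by push_cast; ring
        rw [e1, e2, key a c, Nat.add_sub_cancel]
      · rw [if_neg hb, if_neg hb, C.ph_zero]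
  refine ⟨f', ?_, ?_, ?_, ?_⟩
  · have h := key 0 0
    rw [hM 0 0 (by omega)] at h
    have e1 : (show ι × ZMod 3 from Vf f 0 0).1 = C.one := by
      rw [← hf.1]
      simp [Vf]
    simp only [Nat.cast_zero, mul_zero, zero_add] at h
    rw [h]
    exact e1
  · have h := key 1 0
    rw [hM 1 0 (by omega)] at h
    have e1 : (show ι × ZMod 3 from Vf f 1 0).1 = x := by
      rw [← hf.2.1]
      simp [Vf]
    have e2 : ((1 : ℕ) : ℤ) + ((0 : ℕ) : ℤ) + 1 = 2 := by norm_num
    have e3 : 2 * ((0 : ℕ) : ℤ) + 1 = 1 := by norm_num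
    rw [e2, e3] at h
    rw [h]
    exact e1
  · intro k i hi1 hi2 hk hk1 hk2
    obtain ⟨c, hc⟩ := hk
    obtain ⟨b, rfl⟩ := Int.eq_ofNat_of_zero_le (by omega : 0 ≤ c)
    obtain ⟨a, ha⟩ := Int.eq_ofNat_of_zero_le (by omega : 0 ≤ i - 1 - b)
    have hi : i = (a : ℤ) + b + 1 := by omega
    subst hi hc
    have hab : b + a ≤ n + 1 := by omega
    have h := M'.bar_V b a hab
    have h' : (C.bar (show ι × ZMod 3 from M'.V b a).1) = (show ι × ZMod 3 from M'.V a b).1 :=
      congrArg (fun p : ι × ZMod 3 => p.1) h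
    have e1 : 2 * ((a : ℤ) + b + 1) - (2 * b + 1) = 2 * a + 1 := by ring
    have e2 : (a : ℤ) + b + 1 = b + a + 1 := by ring
    rw [e1, key a b, e2, key b a, h']
  · intro k i hi1 hi2 hk hk1 hk2
    obtain ⟨c, hc⟩ := hk
    obtain ⟨b, rfl⟩ := Int.eq_ofNat_of_zero_le (by omega : 0 ≤ c)
    obtain ⟨a, ha⟩ := Int.eq_ofNat_of_zero_le (by omega : 0 ≤ i - 1 - b)
    have hi : i = (a : ℤ) + b + 1 := by omega
    subst hi hc
    rw [hmul a b (by omega)]
    have t1 : C.val f' (2 * b + 1 - 2) ((a : ℤ) + b + 1 - 1) =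
        if 1 ≤ b then C.b (f' (2 * b + 1 - 2) (a + b + 1 - 1)) else 0 := by
      unfold val
      by_cases hb : 1 ≤ b
      · rw [if_neg (by omega), if_pos hb]
      · rw [if_pos (by omega), if_neg hb]
    have t2 : C.val f' (2 * b + 1 + 2) ((a : ℤ) + b + 1) =
        if 1 ≤ a then C.b (f' (2 * b + 1 + 2) (a + b + 1)) else 0 := by
      unfold val
      by_cases ha' : 1 ≤ a
      · rw [if_neg (by omega), if_pos ha']
      · rw [if_pos (by omega), if_neg ha']
    have t3 : C.val f' (2 * b + 1) ((a : ℤ) + b + 1 + 1) =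
        C.b (f' (2 * b + 1) (a + b + 1 + 1)) := by
      unfold val
      rw [if_neg (by omega)]
    rw [t1, t2, t3]
    ring

end CNITA
end Pool.Agent.Helper363.Nita
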