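import Pool.Agent.Helper363.Nita.XX

namespace Pool.Agent.Helper363.Nita

open Finsupp

variable {G : NG} {n : ℕ}

namespace Arr
variable (A : Arr G n)

theorem na_add_le {B : Type} {x y z : B →₀ ℤ} (hx : 0 ≤ x) (hy : 0 ≤ y) (hxy : ip x y = 0)
    (h1 : x ≤ z) (h2 : y ≤ z) : x + y ≤ z := by
  intro b
  have h := mul_le_ip hx hy b
  rw [hxy] at h
  have hxb : 0 ≤ x b := hx b
  have hyb : 0 ≤ y b := hy b
  have h1b := h1 b
  have h2b := h2 b
  rw [Finsupp.add_apply]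
  rcases mul_eq_zero.1 (le_antisymm h (mul_nonneg hxb hyb)) with h0 | h0
  · rw [h0, zero_add]; exact h2b
  · rw [h0, add_zero]; exact h1b

theorem na_bv_nonneg {B : Type} (f : B) : 0 ≤ bv f := by
  intro y
  by_cases h : f = y
  · subst h; simp [bv]
  · simp [bv, Finsupp.single_apply, h]

theorem na_bv_le {B : Type} {z : B →₀ ℤ} (hz : 0 ≤ z) {f : B} (h : z f ≠ 0) : bv f ≤ z := by
  intro y
  by_cases hy : f = y
  · subst hy
    have h1 : 0 ≤ z f := hz f
    simp only [bv, Finsupp.single_eq_same]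
    omega
  · have h1 : 0 ≤ z y := hz y
    simpa [bv, Finsupp.single_apply, hy] using h1

theorem na_ip_ne {B : Type} {x y : B →₀ ℤ} (h : ip x y ≠ 0) : ∃ b, x b ≠ 0 ∧ y b ≠ 0 := by
  unfold ip at h
  obtain ⟨b, _, hb⟩ := Finset.exists_ne_zero_of_sum_ne_zero h
  exact ⟨b, left_ne_zero_of_mul hb, right_ne_zero_of_mul hb⟩

theorem na_le_smul {B : Type} {k : ℤ} (hk : 1 ≤ k) {x : B →₀ ℤ} (hx : 0 ≤ x) : x ≤ k • x := by
  intro b
  have h1 : 0 ≤ x b := hx b
  rw [Finsupp.smul_apply, smul_eq_mul]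
  nlinarith

theorem na_two_dimZ (a b : ℤ) : 2 * dimZ a b = (a + 1) * (b + 1) * (a + b + 2) := by
  unfold dimZ
  apply Int.mul_ediv_cancel'
  rcases Int.even_or_odd (a + 1) with h | h
  · exact Dvd.dvd.mul_right (Dvd.dvd.mul_right h.two_dvd _) _
  · rcases Int.even_or_odd (b + 1) with h' | h'
    · exact Dvd.dvd.mul_right (Dvd.dvd.mul_left h'.two_dvd _) _
    · apply Dvd.dvd.mul_left
      have := h.add_odd h'
      rw [show a + 1 + (b + 1) = a + b + 2 by ring] at this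
      exact this.two_dvd

theorem na_disj {B : Type} {x y : B →₀ ℤ} (hx : 0 ≤ x) (hy : 0 ≤ y) (hxy : ip x y = 0) {c : B}
    (hc : x c ≠ 0) : y c = 0 := by
  have h := mul_le_ip hx hy c
  rw [hxy] at h
  have hxb : 0 ≤ x c := hx c
  have hyb : 0 ≤ y c := hy c
  rcases mul_eq_zero.1 (le_antisymm h (mul_nonneg hxb hyb)) with h0 | h0
  · exact absurd h0 hc
  · exact h0

/-- constituents of `u j` are not in the array -/
theorem na_notE (hG : A.Good) {j : ℤ} {c : G.B} (hc : A.u j c ≠ 0) (a b : ℤ) :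
    A.E a b c = 0 :=
  na_disj (A.u_nonneg hG j) (A.E_nonneg a b) (A.ip_u_E hG j a b) hc

/-- each constituent of `u j` receives an arrow from `u (j - 1)` -/
theorem T_u_ge (hG : A.Good) (h3 : ip (A.u 0) (A.u 3) = 0) {j : ℤ} (h1 : 2 ≤ j) (h2 : j ≤ n + 1) :
    A.u j ≤ G.T (A.u (j - 1)) := by
  have hn4 := hG.hn
  have hR := A.R2 (by omega) (j := j - 2) (by omega) (by omega)
  rw [show j - 2 + 1 = j - 1 by ring, show j - 2 - 1 = j - 3 by ring,
    show j - 2 + 2 = j by ring] at hR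
  intro c
  have hc := congrArg (fun f => f c) hR
  simp only [Finsupp.add_apply] at hc
  by_cases h0 : A.u j c = 0
  · rw [h0]
    exact G.T_pos (A.u_nonneg hG _) c
  · have h4 : A.u (j - 3) c = 0 := by
      rcases eq_or_lt_of_le h1 with h | h
      · rw [A.u_out (Or.inl (by omega))]; rfl
      · have h5 := A.ip_u_u hG (i := j - 3) (k := 3) (by omega) (by norm_num) (by omega)
        rw [h3, show j - 3 + 3 = j by ring, ip_comm] at h5
        exact na_disj (A.u_nonneg hG _) (A.u_nonneg hG _) h5 h0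
    have h5 : 0 ≤ G.S (A.u (j - 2)) c := G.S_pos (A.u_nonneg hG _) c
    omega

/-- each constituent of `u j` has an arrow to `u (j + 1)` -/
theorem S_u_ge (hG : A.Good) (h3 : ip (A.u 0) (A.u 3) = 0) {j : ℤ} (h1 : 0 ≤ j) (h2 : j ≤ n - 1) :
    A.u j ≤ G.S (A.u (j + 1)) := by
  have hn4 := hG.hn
  have hR := A.R2 (by omega) (j := j + 1) (by omega) (by omega)
  rw [show j + 1 + 1 = j + 2 by ring, show j + 1 - 1 = j by ring,
    show j + 1 + 2 = j + 3 by ring] at hR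
  intro c
  have hc := congrArg (fun f => f c) hR
  simp only [Finsupp.add_apply] at hc
  by_cases h0 : A.u j c = 0
  · rw [h0]
    exact G.S_pos (A.u_nonneg hG _) c
  · have h4 : A.u (j + 3) c = 0 := by
      rcases lt_or_ge (n + 1 : ℤ) (j + 3) with h | h
      · rw [A.u_out (Or.inr h)]; rfl
      · have h5 := A.ip_u_u hG (i := j) (k := 3) (by omega) (by norm_num) (by omega)
        rw [h3] at h5
        exact na_disj (A.u_nonneg hG _) (A.u_nonneg hG _) h5 h0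
    have h5 : 0 ≤ G.T (A.u (j + 2)) c := G.T_pos (A.u_nonneg hG _) c
    omega

theorem na_one_le (hG : A.Good) {j : ℤ} {c : G.B} (hc : A.u j c ≠ 0) : 1 ≤ A.u j c := by
  have h1 : 0 ≤ A.u j c := A.u_nonneg hG j c
  omega

/-- a target of an arrow -/
theorem na_up (hG : A.Good) (h3 : ip (A.u 0) (A.u 3) = 0) {q : ℤ} (h1 : 0 ≤ q) (h2 : q ≤ n - 1)
    {c : G.B} (hc : A.u q c ≠ 0) : ∃ f, A.u (q + 1) f ≠ 0 ∧ bv f ≤ G.T (bv c) := by
  have h4 := A.S_u_ge hG h3 h1 h2 c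
  rw [G.S_apply] at h4
  have h5 := A.na_one_le hG hc
  obtain ⟨f, hf1, hf2⟩ := na_ip_ne (x := A.u (q + 1)) (y := G.T (bv c)) (by omega)
  exact ⟨f, hf1, na_bv_le (G.T_pos (na_bv_nonneg c)) hf2⟩

theorem na_down (hG : A.Good) (h3 : ip (A.u 0) (A.u 3) = 0) {q : ℤ} (h1 : 2 ≤ q) (h2 : q ≤ n + 1)
    {c : G.B} (hc : A.u q c ≠ 0) : ∃ f, A.u (q - 1) f ≠ 0 ∧ bv f ≤ G.S (bv c) := by
  have h4 := A.T_u_ge hG h3 h1 h2 c
  rw [G.T_apply] at h4
  have h5 := A.na_one_le hG hc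
  obtain ⟨f, hf1, hf2⟩ := na_ip_ne (x := A.u (q - 1)) (y := G.S (bv c)) (by omega)
  exact ⟨f, hf1, na_bv_le (G.S_pos (na_bv_nonneg c)) hf2⟩

theorem na_t_le_T (hG : A.Good) {j : ℤ} (h1 : 1 ≤ j) (h2 : j ≤ n + 1) {c : G.B}
    (hc : A.u j c ≠ 0) : A.t (j - 1) ≤ G.T (bv c) :=
  (na_le_smul (A.na_one_le hG hc) (A.t_nonneg _)).trans (A.T_ge hG h1 h2 c)

theorem na_t_le_S (hG : A.Good) {j : ℤ} (h1 : 0 ≤ j) (h2 : j ≤ n) {c : G.B}
    (hc : A.u j c ≠ 0) : A.t j ≤ G.S (bv c) :=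
  (na_le_smul (A.na_one_le hG hc) (A.t_nonneg _)).trans (A.S_ge hG h1 h2 c)

theorem na_step_up (hG : A.Good) (h3 : ip (A.u 0) (A.u 3) = 0) {q : ℤ} (h1 : 1 ≤ q)
    (h2 : q ≤ n - 1) {c : G.B} (hc : A.u q c ≠ 0) :
    ∃ f, A.u (q + 1) f ≠ 0 ∧ dimZ (n - (q - 1)) (q - 1) + G.d f ≤ 3 * G.d c := by
  obtain ⟨f, hf1, hf2⟩ := A.na_up hG h3 (by omega) h2 hc
  refine ⟨f, hf1, ?_⟩
  have h4 := A.na_t_le_T hG h1 (by omega) hc
  have h5 : A.t (q - 1) + bv f ≤ G.T (bv c) :=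
    na_add_le (A.t_nonneg _) (na_bv_nonneg f) (by rw [ip_bv_right]; exact A.na_notE hG hf1 _ _) h4 hf2
  have h6 := G.dg_mono h5
  rw [G.dg_add, G.dg_T, G.dg_bv, G.dg_bv, A.dg_t (by omega) (by omega)] at h6
  exact h6

theorem na_step_down (hG : A.Good) (h3 : ip (A.u 0) (A.u 3) = 0) {q : ℤ} (h1 : 2 ≤ q)
    (h2 : q ≤ n) {c : G.B} (hc : A.u q c ≠ 0) :
    ∃ f, A.u (q - 1) f ≠ 0 ∧ dimZ (n - q) q + G.d f ≤ 3 * G.d c := by
  obtain ⟨f, hf1, hf2⟩ := A.na_down hG h3 h1 (by omega) hc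
  refine ⟨f, hf1, ?_⟩
  have h4 := A.na_t_le_S hG (by omega) h2 hc
  have h5 : A.t q + bv f ≤ G.S (bv c) :=
    na_add_le (A.t_nonneg _) (na_bv_nonneg f) (by rw [ip_bv_right]; exact A.na_notE hG hf1 _ _) h4 hf2
  have h6 := G.dg_mono h5
  rw [G.dg_add, G.dg_S, G.dg_bv, G.dg_bv, A.dg_t (by omega) (by omega)] at h6
  exact h6

/-- lower bound for the degrees of constituents -/
theorem lam (hG : A.Good) (h3 : ip (A.u 0) (A.u 3) = 0) {q : ℤ} (h1 : 1 ≤ q) (h2 : q ≤ n - 1)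
    {c : G.B} (hc : A.u q c ≠ 0) :
    3 * dimZ (n - (q - 1)) (q - 1) + dimZ (n - (q + 1)) (q + 1) ≤ 8 * G.d c := by
  obtain ⟨c0, hc0, hmin⟩ := (A.u q).support.exists_min_image G.d
    ⟨c, Finsupp.mem_support_iff.2 hc⟩
  have hcc := hmin c (Finsupp.mem_support_iff.2 hc)
  obtain ⟨f, hf1, hf2⟩ := A.na_step_up hG h3 h1 h2 (Finsupp.mem_support_iff.1 hc0)
  obtain ⟨e, he1, he2⟩ := A.na_step_down hG h3 (q := q + 1) (by omega) (by omega) hf1
  rw [show q + 1 - 1 = q by ring] at he1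
  have hce := hmin e (Finsupp.mem_support_iff.2 he1)
  linarith

theorem e_last (hG : A.Good) (hp : 2 ≤ A.p) (hn : 6 ≤ n) (h3 : ip (A.u 0) (A.u 3) = 0) :
    ip (A.u 0) (A.u n) = 0 := by
  by_contra hne
  obtain ⟨c, hc0, hcn⟩ := na_ip_ne hne
  have hnZ : (6:ℤ) ≤ n := by exact_mod_cast hn
  have h4 := A.na_t_le_S hG (j := 0) le_rfl (by omega) hc0
  have h5 := A.na_t_le_S hG (j := n) (by omega) le_rfl hcn
  obtain ⟨e, he1, he2⟩ := A.na_down hG h3 (q := n) (by omega) (by omega) hcn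
  have h6 : A.t 0 + A.t n ≤ G.S (bv c) := by
    refine na_add_le (A.t_nonneg _) (A.t_nonneg _) ?_ h4 h5
    unfold t
    rw [hG.ip_E _ _ _ _ ⟨by omega, by omega, by omega⟩ ⟨by omega, by omega, by omega⟩,
      if_neg (by omega)]
  have h7 : A.t 0 + A.t n + bv e ≤ G.S (bv c) := by
    refine na_add_le (add_nonneg (A.t_nonneg _) (A.t_nonneg _)) (na_bv_nonneg e) ?_ h6 he2
    rw [ip_bv_right, Finsupp.add_apply]
    have e1 : A.t 0 e = 0 := A.na_notE hG he1 _ _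
    have e2 : A.t n e = 0 := A.na_notE hG he1 _ _
    rw [e1, e2, add_zero]
  have h8 := G.dg_mono h7
  rw [G.dg_add, G.dg_add, G.dg_S, G.dg_bv, G.dg_bv, A.dg_t (by omega) (by omega),
    A.dg_t (by omega) (by omega)] at h8
  have h9 := A.d_le_corner hG hp hc0
  obtain ⟨f, hf1, hf2⟩ := A.na_step_up hG h3 (q := n - 1) (by omega) le_rfl he1
  rw [show (n : ℤ) - 1 + 1 = n by ring] at hf1
  have h10 := A.na_t_le_T hG (j := n) (by omega) (by omega) hf1
  have h11 := G.dg_mono h10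
  rw [G.dg_T, G.dg_bv, A.dg_t (by omega) (by omega)] at h11
  have d1 := na_two_dimZ ((n : ℤ) - 0) 0
  have d2 := na_two_dimZ ((n : ℤ) - n) n
  have d3 := na_two_dimZ ((n : ℤ) - (n - 1 - 1)) (n - 1 - 1)
  have d4 := na_two_dimZ ((n : ℤ) - (n - 1)) (n - 1)
  obtain ⟨m, hm⟩ : ∃ m : ℤ, m = n + 2 := ⟨_, rfl⟩
  have hnm : (n : ℤ) = m - 2 := by rw [hm]; ring
  rw [hnm] at *
  nlinarith

theorem e_pred7 (hG : A.Good) (hp : 2 ≤ A.p) (hn : n = 7) (h3 : ip (A.u 0) (A.u 3) = 0) :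
    ip (A.u 0) (A.u 6) = 0 := by
  by_contra hne
  obtain ⟨c, hc0, hcn⟩ := na_ip_ne hne
  have hnZ : (n : ℤ) = 7 := by exact_mod_cast hn
  have h4 := A.na_t_le_S hG (j := 0) le_rfl (by omega) hc0
  have h5 := A.na_t_le_S hG (j := 6) (by omega) (by omega) hcn
  obtain ⟨e, he1, he2⟩ := A.na_down hG h3 (q := 6) (by omega) (by omega) hcn
  have h6 : A.t 0 + A.t 6 ≤ G.S (bv c) := by
    refine na_add_le (A.t_nonneg _) (A.t_nonneg _) ?_ h4 h5
    unfold t
    rw [hG.ip_E _ _ _ _ ⟨by omega, by omega, by omega⟩ ⟨by omega, by omega, by omega⟩,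
      if_neg (by omega)]
  have h7 : A.t 0 + A.t 6 + bv e ≤ G.S (bv c) := by
    refine na_add_le (add_nonneg (A.t_nonneg _) (A.t_nonneg _)) (na_bv_nonneg e) ?_ h6 he2
    rw [ip_bv_right, Finsupp.add_apply]
    have e1 : A.t 0 e = 0 := A.na_notE hG he1 _ _
    have e2 : A.t 6 e = 0 := A.na_notE hG he1 _ _
    rw [e1, e2, add_zero]
  have h8 := G.dg_mono h7
  rw [G.dg_add, G.dg_add, G.dg_S, G.dg_bv, G.dg_bv, A.dg_t (by omega) (by omega),
    A.dg_t (by omega) (by omega)] at h8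
  have h9 := A.d_le_corner hG hp hc0
  have hpos := G.d_pos e
  rw [hnZ] at h8 h9
  norm_num [dimZ] at h8 h9
  omega

/-- all the inner products vanish -/
theorem e_zero (hG : A.Good) (hp : 2 ≤ A.p) (hn : 7 ≤ n) {k : ℤ} (h1 : 1 ≤ k) (h2 : k ≤ n) :
    ip (A.u 0) (A.u k) = 0 := by
  have h3 : ip (A.u 0) (A.u 3) = 0 := A.e_low hG hp (by omega) (by norm_num) (by omega)
  by_cases hk : k ≤ n - 2
  · exact A.e_low hG hp (by omega) h1 hk
  · by_cases hk1 : k = n - 1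
    · rw [hk1]
      rcases Nat.lt_or_ge n 8 with h8 | h8
      · have h7 : n = 7 := by omega
        have := A.e_pred7 hG hp h7 h3
        have e : (n : ℤ) - 1 = 6 := by omega
        rw [e]; exact this
      · exact A.e_pred hG hp h8
    · have hk2 : k = n := by omega
      rw [hk2]
      exact A.e_last hG hp (by omega) h3

theorem na_num (n : ℕ) (hn : 7 ≤ n) (hn' : n ≤ 42) : ∃ q : ℤ, 2 ≤ q ∧ q ≤ n - 1 ∧
    8 * dimZ (n + 1 - q) q < 3 * (3 * dimZ (n - (q - 1)) (q - 1) + dimZ (n - (q + 1)) (q + 1)) ∧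
    12 * dimZ (n + 1 - q) q < 16 * dimZ (n - q) q +
      (3 * dimZ (n - (q - 1 - 1)) (q - 1 - 1) + dimZ (n - (q - 1 + 1)) (q - 1 + 1)) := by
  refine ⟨((n + 1) / 2 : ℕ), ?_⟩
  interval_cases n <;> norm_num [dimZ]

/-- the norm is at most two -/
theorem p_le_two (hG : A.Good) (hp : 2 ≤ A.p) (hn : 7 ≤ n) (hn' : n ≤ 42)
    (h3 : ip (A.u 0) (A.u 3) = 0) : A.p = 2 := by
  classical
  obtain ⟨q, hq1, hq2, hnum1, hnum2⟩ := na_num n hn hn'
  obtain ⟨x, hx⟩ : ∃ x, x = A.u q := ⟨_, rfl⟩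
  have hx0 : 0 ≤ x := by rw [hx]; exact A.u_nonneg hG q
  have hxx : ip x x = A.p := by rw [hx]; exact A.ip_u_self hG (by omega) (by omega)
  have hdx : G.dg x = dimZ (n + 1 - q) q := by rw [hx]; exact A.dg_u (by omega) (by omega)
  obtain ⟨Λ, hΛ⟩ : ∃ Λ, Λ = 3 * dimZ (n - (q - 1)) (q - 1) + dimZ (n - (q + 1)) (q + 1) :=
    ⟨_, rfl⟩
  have hlam : ∀ c, x c ≠ 0 → Λ ≤ 8 * G.d c := by
    intro c hc
    rw [hΛ]
    rw [hx] at hc
    exact A.lam hG h3 (by omega) hq2 hc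
  obtain ⟨r, hr⟩ : ∃ r, r = ∑ c ∈ x.support, x c := ⟨_, rfl⟩
  have hrL : r * Λ ≤ 8 * G.dg x := by
    unfold NG.dg
    rw [hr, Finsupp.sum, Finset.mul_sum, Finset.sum_mul]
    apply Finset.sum_le_sum
    intro c hc
    have h4 := hlam c (Finsupp.mem_support_iff.1 hc)
    have h5 : 0 ≤ x c := hx0 c
    nlinarith
  have hdpos : 0 ≤ dimZ (n + 1 - q) q := by
    rw [← hdx]; exact G.dg_nonneg hx0
  rw [← hΛ, ← hdx] at hnum1
  have hr2 : r ≤ 2 := by
    by_contra hcon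
    have h4 : 3 ≤ r := by omega
    have h5 : 0 < Λ := by
      rw [hdx] at hnum1
      omega
    nlinarith
  by_cases hall : ∀ c, x c ≤ 1
  · have h4 : A.p = r := by
      rw [← hxx, hr]
      unfold ip
      rw [Finsupp.sum]
      apply Finset.sum_congr rfl
      intro c hc
      have h5 := hall c
      have h6 : 0 ≤ x c := hx0 c
      have h7 := Finsupp.mem_support_iff.1 hc
      have h8 : x c = 1 := by omega
      rw [h8]; rfl
    omega
  · push Not at hall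
    obtain ⟨c, hc⟩ := hall
    exfalso
    have hcs : c ∈ x.support := Finsupp.mem_support_iff.2 (by omega)
    have hle : x c ≤ r := by
      rw [hr]
      exact Finset.single_le_sum (f := fun c => x c) (fun b _ => hx0 b) hcs
    have hc2 : x c = 2 := by omega
    have hothers : ∀ b, b ≠ c → x b = 0 := by
      intro b hb
      by_contra hb0
      have hbs : b ∈ x.support := Finsupp.mem_support_iff.2 hb0
      have h4 : x b + x c ≤ r := by
        rw [hr, ← Finset.sum_pair (f := fun c => x c) hb]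
        apply Finset.sum_le_sum_of_subset_of_nonneg
        · intro a ha
          rw [Finset.mem_insert, Finset.mem_singleton] at ha
          rcases ha with rfl | rfl
          · exact hbs
          · exact hcs
        · intro a _ _
          exact hx0 a
      have h5 : 0 ≤ x b := hx0 b
      omega
    have hxe : x = (2 : ℤ) • bv c := by
      ext b
      by_cases hb : b = c
      · subst hb
        simp [bv, hc2]
      · rw [hothers b hb]
        simp [bv, Finsupp.single_apply, Ne.symm hb]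
    have hdc : G.dg x = 2 * G.d c := by
      rw [hxe, G.dg_smul, G.dg_bv]
    have huc : A.u q c = 2 := by rw [← hx]; exact hc2
    obtain ⟨e, he1, he2⟩ := A.na_down hG h3 hq1 (by omega) (c := c) (by rw [huc]; norm_num)
    have h4 := A.S_ge hG (j := q) (by omega) (by omega) c
    rw [huc] at h4
    have h5 : (2 : ℤ) • A.t q + bv e ≤ G.S (bv c) := by
      refine na_add_le ?_ (na_bv_nonneg e) ?_ h4 he2
      · exact smul_nonneg (by norm_num) (A.t_nonneg q)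
      · rw [ip_bv_right, Finsupp.smul_apply]
        have e1 : A.t q e = 0 := A.na_notE hG he1 _ _
        rw [e1, smul_zero]
    have h6 := G.dg_mono h5
    rw [G.dg_add, G.dg_smul, G.dg_S, G.dg_bv, G.dg_bv, A.dg_t (by omega) (by omega)] at h6
    have h7 := A.lam hG h3 (q := q - 1) (by omega) (by omega) he1
    rw [← hdx] at hnum2
    omega

end Arr
end Pool.Agent.Helper363.Nita
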