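import Pool.Agent.Helper363.Nita.Lin
import Pool.Agent.Helper363.Nita.ChkDef

namespace Pool.Agent.Helper363.Nita

/-- the vector of a list of nodes -/
noncomputable def rv {B : Type} (φ : ℕ → B) : List ℕ → (B →₀ ℤ)
  | [] => 0
  | j :: l => bv (φ j) + rv φ l

/-- fixed semantic data: the set `L` of invisible basis elements, the invisible part `W i` of the
row of node `i` (only for `i < nt`) -/
structure World (G : NG) where
  nt : ℕ
  L : G.B → Prop
  W : ℕ → (G.B →₀ ℤ)
  W_nonneg : ∀ i, 0 ≤ W i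
  W_L : ∀ i z, W i z ≠ 0 → L z
  W_zero : ∀ i, nt ≤ i → W i = 0
  L_bar : ∀ z, L z → L (G.bar z)

/-- meaning of a row: only depends on the number `K` of nodes and the map `φ` -/
structure RowSat {G : NG} (w : World G) (K : ℕ) (φ : ℕ → G.B) (i : ℕ) (r : Row) : Prop where
  cjlt : r.cj < K
  bar : G.bar (φ i) = φ r.cj
  grlt : r.gr < 3
  gr : G.gr (φ i) = (r.gr : ZMod 3)
  lo : (r.lo : ℤ) ≤ G.d (φ i)
  hi : r.hi ≠ 0 → G.d (φ i) ≤ (r.hi : ℤ)
  off : G.dg (w.W i) = (r.off : ℤ)
  outlt : ∀ j ∈ r.out, j < K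
  low : rv φ r.out + w.W i ≤ G.T (bv (φ i))
  declt : r.dec < 2 ^ K
  dec : ∀ j < K, tb r.dec j = true → G.T (bv (φ i)) (φ j) = (cnt j r.out : ℤ)
  done : r.done = true → G.T (bv (φ i)) = rv φ r.out + w.W i

/-- global facts -/
structure Glob {G : NG} (w : World G) (C : Ctx) (K : ℕ) (φ : ℕ → G.B) : Prop where
  ntC : C.nt = w.nt
  ntK : w.nt ≤ K
  inj : ∀ i < K, ∀ j < K, φ i = φ j → i = j
  barnt : ∀ i < K, w.nt ≤ i → ∀ j < w.nt, G.bar (φ i) ≠ φ j
  nodeL : ∀ i < K, ¬ w.L (φ i)
  arrL : ∀ i < K, w.nt ≤ i → ∀ z, w.L z → G.T (bv (φ i)) z = 0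
  Lin : ∀ z, w.L z → ∀ y, G.T (bv y) z ≠ 0 → w.L y ∨ ∃ i < w.nt, y = φ i
  lines : ∀ l ∈ C.lines, (∀ c ∈ l.nodes, w.nt ≤ c ∧ c < K) ∧
    (l.lo : ℤ) ≤ ip (G.T (rv φ l.nodes)) (G.T (rv φ l.nodes)) ∧
    (l.hi ≠ 0 → ip (G.T (rv φ l.nodes)) (G.T (rv φ l.nodes)) ≤ (l.hi : ℤ))
  blks : ∀ b ∈ C.blks, (∀ c ∈ b.src, c < K) ∧ (∀ c ∈ b.tgt, c < K) ∧
    (b.lo : ℤ) ≤ ip (G.T (rv φ b.src)) (rv φ b.tgt) ∧
    (b.hi ≠ 0 → ip (G.T (rv φ b.src)) (rv φ b.tgt) < (b.hi : ℤ))

/-- meaning of a state -/
structure Sat {G : NG} (w : World G) (C : Ctx) (S : List Row) (φ : ℕ → G.B) : Prop where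
  glob : Glob w C S.length φ
  row : ∀ i < S.length, RowSat w S.length φ i (nth S i)

/-! ### lists of rows -/

theorem upd_length (S : List Row) (a : ℕ) (f : Row → Row) : (upd S a f).length = S.length := by
  induction S generalizing a with
  | nil => rfl
  | cons r l ih =>
    cases a with
    | zero => rfl
    | succ a => simp [upd, ih]

theorem nth_upd_eq (S : List Row) (a : ℕ) (f : Row → Row) (h : a < S.length) :
    nth (upd S a f) a = f (nth S a) := by
  induction S generalizing a with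
  | nil => simp at h
  | cons r l ih =>
    cases a with
    | zero => rfl
    | succ a => simpa [upd, nth] using ih a (by simpa using h)

theorem nth_upd_ne (S : List Row) (a i : ℕ) (f : Row → Row) (h : i ≠ a) :
    nth (upd S a f) i = nth S i := by
  induction S generalizing a i with
  | nil => rfl
  | cons r l ih =>
    cases a with
    | zero =>
      cases i with
      | zero => exact absurd rfl h
      | succ i => rfl
    | succ a =>
      cases i with
      | zero => rfl
      | succ i => simpa [upd, nth] using ih a i (by omega)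

theorem nth_append_left (S U : List Row) (i : ℕ) (h : i < S.length) :
    nth (S ++ U) i = nth S i := by
  induction S generalizing i with
  | nil => simp at h
  | cons r l ih =>
    cases i with
    | zero => rfl
    | succ i => simpa [nth] using ih i (by simpa using h)

theorem nth_append_right (S U : List Row) (i : ℕ) :
    nth (S ++ U) (S.length + i) = nth U i := by
  induction S with
  | nil => simp
  | cons r l ih =>
    have : (r :: l).length + i = (l.length + i) + 1 := by simp; omega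
    rw [this]
    simpa [nth] using ih

/-- updating one row -/
theorem Sat.upd {G : NG} {w : World G} {C : Ctx} {S : List Row} {φ : ℕ → G.B} (h : Sat w C S φ)
    {a : ℕ} {f : Row → Row} (ha : a < S.length → RowSat w S.length φ a (f (nth S a))) :
    Sat w C (upd S a f) φ := by
  refine ⟨by rw [upd_length]; exact h.glob, ?_⟩
  intro i hi
  rw [upd_length] at hi ⊢
  by_cases hia : i = a
  · subst hia; rw [nth_upd_eq _ _ _ hi]; exact ha hi
  · rw [nth_upd_ne _ _ _ _ hia]; exact h.row i hi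

theorem rv_congr {B : Type} {φ ψ : ℕ → B} {K : ℕ} (h : ∀ i < K, φ i = ψ i) {l : List ℕ}
    (hl : ∀ j ∈ l, j < K) : rv φ l = rv ψ l := by
  induction l with
  | nil => rfl
  | cons j l ih =>
    simp only [rv]
    rw [h j (hl j (by simp)), ih fun k hk => hl k (by simp [hk])]

/-- rows keep their meaning when nodes are added -/
theorem RowSat.ext {G : NG} {w : World G} {K K' : ℕ} {φ ψ : ℕ → G.B} {i : ℕ} {r : Row}
    (hr : RowSat w K φ i r) (hi : i < K) (hK : K ≤ K') (h : ∀ i < K, φ i = ψ i) :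
    RowSat w K' ψ i r := by
  have hrv : rv ψ r.out = rv φ r.out := (rv_congr h hr.outlt).symm
  refine ⟨by have := hr.cjlt; omega, ?_, hr.grlt, ?_, ?_, ?_, hr.off, ?_, ?_, ?_, ?_, ?_⟩
  · rw [← h i hi, ← h _ hr.cjlt]; exact hr.bar
  · rw [← h i hi]; exact hr.gr
  · rw [← h i hi]; exact hr.lo
  · rw [← h i hi]; exact hr.hi
  · intro j hj; have := hr.outlt j hj; omega
  · rw [hrv, ← h i hi]; exact hr.low
  · exact lt_of_lt_of_le hr.declt (Nat.pow_le_pow_right (by norm_num) hK)
  · intro j hj ht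
    by_cases hjK : j < K
    · rw [← h i hi, ← h j hjK]; exact hr.dec j hjK ht
    · exfalso
      have h1 : r.dec < 2 ^ j := lt_of_lt_of_le hr.declt (Nat.pow_le_pow_right (by norm_num) (by omega))
      have h2 : Nat.shiftRight r.dec j = 0 := by
        have : r.dec >>> j = 0 := by rw [Nat.shiftRight_eq_div_pow]; exact Nat.div_eq_of_lt h1
        exact this
      unfold tb at ht
      rw [h2] at ht
      revert ht
      decide
  · intro hd; rw [hrv, ← h i hi]; exact hr.done hd

end Pool.Agent.Helper363.Nita
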