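import Pool.Agent.Helper363.Nita.Chain
import Pool.Agent.Helper363.Nita.SatDef

namespace Pool.Agent.Helper363.Nita

variable {G : NG} {n : ℕ}

/-- the interpretation of the initial nodes: `t_0, ..., t_n`, then `c_a, d_a, c_(a+1), ...` -/
noncomputable def phi0 (A : Arr G n) (c d : ℤ → G.B) (a : ℕ) (i : ℕ) : G.B :=
  if i ≤ n then A.V (n - i) i
  else if (i - (n + 1)) % 2 = 0 then c ((a + (i - (n + 1)) / 2 : ℕ) : ℤ)
  else d ((a + (i - (n + 1)) / 2 : ℕ) : ℤ)

/-- the levels below `n` are invisible -/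
noncomputable def world0 (A : Arr G n) : World G where
  nt := n + 1
  L := fun y => ∃ a b : ℕ, a + b < n ∧ y = A.V a b
  W := fun i => if i ≤ n then A.s ((i : ℤ) - 1) else 0
  W_nonneg := by
    intro i
    split_ifs
    · exact A.s_nonneg _
    · exact le_refl _
  W_L := by
    intro i z hz
    split_ifs at hz with hi
    · by_cases h : 0 ≤ (n : ℤ) - 1 - ((i : ℤ) - 1) ∧ 0 ≤ (i : ℤ) - 1 ∧
          (n : ℤ) - 1 - ((i : ℤ) - 1) + ((i : ℤ) - 1) ≤ n
      · obtain ⟨a', b', h1, h2, h3, h4⟩ := A.E_ex h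
        refine ⟨a', b', by omega, ?_⟩
        unfold Arr.s at hz
        rw [h4] at hz
        by_contra hne
        exact hz (by simp [bv, Finsupp.single_apply, Ne.symm hne])
      · unfold Arr.s at hz
        rw [A.E_out h] at hz
        simp at hz
    · simp at hz
  W_zero := by
    intro i hi
    rw [if_neg (by omega)]
  L_bar := by
    rintro z ⟨a, b, h, rfl⟩
    exact ⟨b, a, by omega, A.bar_V a b h.le⟩

/-- the labelled sheets, `sw` tells whether conjugation exchanges them -/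
structure ChainData (A : Arr G n) (c d : ℤ → G.B) (sw : Bool) : Prop where
  u_eq : ∀ j : ℤ, 1 ≤ j → j ≤ n → A.u j = bv (c j) + bv (d j) ∧ c j ≠ d j
  mat : ∀ j : ℤ, 1 ≤ j → j ≤ n - 1 → G.T (bv (c j)) (c (j + 1)) = 1 ∧
      G.T (bv (c j)) (d (j + 1)) = 0 ∧
      G.T (bv (d j)) (c (j + 1)) = 0 ∧ G.T (bv (d j)) (d (j + 1)) = 1
  bar : ∀ j : ℤ, 1 ≤ j → j ≤ n →
    G.bar (c j) = (if sw = true then d (n + 1 - j) else c (n + 1 - j)) ∧
    G.bar (d j) = (if sw = true then c (n + 1 - j) else d (n + 1 - j))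

end Pool.Agent.Helper363.Nita
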