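import Pool.Agent.Helper363.Nita.SatDef

namespace Pool.Agent.Helper363.Nita

section basic
variable {B : Type} {φ : ℕ → B}

theorem rv_nonneg (φ : ℕ → B) (l : List ℕ) : 0 ≤ rv φ l := by
  classical
  induction l with
  | nil => exact le_refl _
  | cons j l ih =>
    intro b
    have h1 := ih b
    show (0 : B →₀ ℤ) b ≤ (bv (φ j) + rv φ l) b
    rw [Finsupp.add_apply]
    have h2 : 0 ≤ (bv (φ j) : B →₀ ℤ) b := by
      simp only [bv, Finsupp.single_apply]
      split_ifs <;> norm_num
    simp only [Finsupp.coe_zero, Pi.zero_apply] at h1 ⊢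
    linarith

theorem rv_append (φ : ℕ → B) (l m : List ℕ) : rv φ (l ++ m) = rv φ l + rv φ m := by
  induction l with
  | nil => simp [rv]
  | cons j l ih => simp [rv, ih, add_assoc]

theorem rv_apply {K : ℕ} (inj : ∀ i < K, ∀ j < K, φ i = φ j → i = j) {l : List ℕ}
    (hl : ∀ j ∈ l, j < K) {i : ℕ} (hi : i < K) : rv φ l (φ i) = (cnt i l : ℤ) := by
  classical
  induction l with
  | nil => simp [rv, cnt]
  | cons j l ih =>
    have ih' := ih (fun k hk => hl k (List.mem_cons_of_mem _ hk))
    have hj := hl j List.mem_cons_self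
    show (bv (φ j) + rv φ l) (φ i) = _
    rw [Finsupp.add_apply, ih']
    simp only [bv, Finsupp.single_apply, cnt]
    by_cases h : i = j
    · subst h
      rw [if_pos rfl, Nat.beq_refl]
      simp only [cond_true]
      push_cast
      ring
    · have h1 : φ j ≠ φ i := fun h2 => h (inj j hj i hi h2).symm
      have h2 : Nat.beq i j = false := by
        rw [← Bool.not_eq_true]
        exact fun h3 => h (Nat.eq_of_beq_eq_true h3)
      rw [if_neg h1, h2]
      simp

theorem rv_apply_out {l : List ℕ} {y : B} (hy : ∀ j ∈ l, φ j ≠ y) : rv φ l y = 0 := by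
  classical
  induction l with
  | nil => rfl
  | cons j l ih =>
    show (bv (φ j) + rv φ l) y = 0
    rw [Finsupp.add_apply, ih (fun k hk => hy k (List.mem_cons_of_mem _ hk))]
    simp only [bv, Finsupp.single_apply]
    rw [if_neg (hy j List.mem_cons_self), add_zero]

/-- inner product with the vector of a list -/
theorem ip_rv_nil (φ : ℕ → B) (x : B →₀ ℤ) : ip (rv φ []) x = 0 := ip_zero_left x

theorem ip_rv_cons (φ : ℕ → B) (x : B →₀ ℤ) (j : ℕ) (l : List ℕ) :
    ip (rv φ (j :: l)) x = x (φ j) + ip (rv φ l) x := by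
  show ip (bv (φ j) + rv φ l) x = _
  rw [ip_add_left, ip_bv_left]

theorem ip_rv_rv {K : ℕ} (inj : ∀ i < K, ∀ j < K, φ i = φ j → i = j) {l m : List ℕ}
    (hl : ∀ j ∈ l, j < K) (hm : ∀ j ∈ m, j < K) : ip (rv φ l) (rv φ m) = (ipl l m : ℤ) := by
  induction l with
  | nil => simp [ip_rv_nil, ipl]
  | cons j l ih =>
    rw [ip_rv_cons, ih (fun k hk => hl k (List.mem_cons_of_mem _ hk)),
      rv_apply inj hm (hl j List.mem_cons_self)]
    show (cnt j m : ℤ) + (ipl l m : ℤ) = ((cnt j m + ipl l m : ℕ) : ℤ)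
    push_cast
    rfl

/-- if `x ≤ y` pointwise for nonnegative `x` and the norms agree then `x = y` -/
theorem eq_of_norm {x y : B →₀ ℤ} (hx : 0 ≤ x) (hxy : x ≤ y) (h : ip y y ≤ ip x x) : x = y := by
  have hz : 0 ≤ y - x := by
    intro b
    simpa using hxy b
  have h1 : ip y y = ip x x + 2 * ip x (y - x) + ip (y - x) (y - x) := by
    have h2 : ip y y = ip (x + (y - x)) (x + (y - x)) := by
      rw [add_sub_cancel]
    rw [h2, ip_add_left, ip_add_right, ip_add_right, ip_comm (y - x) x]
    ring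
  have h3 := ip_nonneg hx hz
  have h4 := ip_self_nonneg (y - x)
  have h5 : ip (y - x) (y - x) = 0 := by linarith
  have h6 := ip_self_eq_zero h5
  exact (sub_eq_zero.mp h6).symm

theorem tb_eq (m j : ℕ) : tb m j = m.testBit j := by
  have h1 : tb m j = decide ((m >>> j) &&& 1 = 1) := by
    show Nat.beq ((m >>> j) &&& 1) 1 = _
    by_cases h : (m >>> j) &&& 1 = 1
    · rw [h]; rfl
    · have h2 : Nat.beq ((m >>> j) &&& 1) 1 = false := by
        rw [← Bool.not_eq_true]
        exact fun h3 => h (Nat.eq_of_beq_eq_true h3)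
      rw [h2, decide_eq_false h]
  rw [h1, Nat.testBit_eq_decide_div_mod_eq, Nat.and_one_is_mod, Nat.shiftRight_eq_div_pow]

theorem tb_setBits (m : ℕ) (l : List ℕ) (j : ℕ) :
    tb (setBits m l) j = true ↔ tb m j = true ∨ j ∈ l := by
  induction l with
  | nil => simp [setBits]
  | cons y l ih =>
    have h1 : setBits m (y :: l) = (1 <<< y) ||| setBits m l := rfl
    rw [h1, tb_eq, Nat.testBit_or, Nat.one_shiftLeft, Nat.testBit_two_pow, Bool.or_eq_true,
      ← tb_eq, ih, List.mem_cons, decide_eq_true_eq]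
    constructor
    · rintro (h | h | h)
      · exact Or.inr (Or.inl h.symm)
      · exact Or.inl h
      · exact Or.inr (Or.inr h)
    · rintro (h | h | h)
      · exact Or.inr (Or.inl h)
      · exact Or.inl h.symm
      · exact Or.inr (Or.inr h)

theorem setBits_lt {m K : ℕ} {l : List ℕ} (hm : m < 2 ^ K) (hl : ∀ j ∈ l, j < K) :
    setBits m l < 2 ^ K := by
  induction l with
  | nil => exact hm
  | cons y l ih =>
    have h1 : setBits m (y :: l) = (1 <<< y) ||| setBits m l := rfl
    rw [h1, Nat.one_shiftLeft]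
    apply Nat.or_lt_two_pow
    · exact Nat.pow_lt_pow_right (by norm_num) (hl y List.mem_cons_self)
    · exact ih (fun k hk => hl k (List.mem_cons_of_mem _ hk))

theorem tb_ones (k j : ℕ) : tb (2 ^ k - 1) j = true ↔ j < k := by
  rw [tb_eq, Nat.testBit_two_pow_sub_one, decide_eq_true_eq]

theorem tb_zero (j : ℕ) : tb 0 j = false := by
  rw [tb_eq, Nat.zero_testBit]

end basic

end Pool.Agent.Helper363.Nita
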