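import Pool.Agent.Helper363.Nita.InitDef
import Pool.Agent.Helper363.Nita.SndA

namespace Pool.Agent.Helper363.Nita

section init
variable {G : NG} {n : ℕ} {A : Arr G n} {c d : ℤ → G.B} {sw : Bool} {a : ℕ}

theorem aux_nth_eq (S : List Row) (i : ℕ) (h : i < S.length) : nth S i = S[i] := by
  induction S generalizing i with
  | nil => simp at h
  | cons r l ih =>
    cases i with
    | zero => rfl
    | succ i => simpa [nth] using ih i (by simpa using h)

theorem initS_length (n a : ℕ) (sw : Bool) :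
    (initS n a sw).length = n + 1 + 2 * (n + 2 - 2 * a) := by
  simp [initS]

theorem nth_initS (n a : ℕ) (sw : Bool) {i : ℕ} (hi : i < n + 1 + 2 * (n + 2 - 2 * a)) :
    nth (initS n a sw) i = rowOf n a sw i := by
  rw [aux_nth_eq _ _ (by rw [initS_length]; exact hi)]
  simp [initS]

/-- the interpretation at the index of a sheet -/
theorem phi0_line (A : Arr G n) (c d : ℤ → G.B) {j w : ℕ} (hj : a ≤ j) (hw : w < 2) :
    phi0 A c d a (lineIx n a j w) = if w = 0 then c j else d j := by
  unfold phi0 lineIx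
  rw [if_neg (by omega)]
  have h1 : n + 1 + 2 * (j - a) + w - (n + 1) = 2 * (j - a) + w := by omega
  have h2 : (2 * (j - a) + w) % 2 = w := by omega
  have h3 : a + (2 * (j - a) + w) / 2 = j := by omega
  rw [h1, h2, h3]

theorem aux_u_one {j : ℤ} (hc : ChainData A c d sw) (h1 : 1 ≤ j) (h2 : j ≤ n) (w : ℕ) :
    A.u j (if w = 0 then c j else d j) = 1 := by
  obtain ⟨e, hne⟩ := hc.u_eq j h1 h2
  rw [e]
  split_ifs
  · simp [bv, Finsupp.single_apply, hne.symm]
  · simp [bv, Finsupp.single_apply, hne]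

theorem aux_u_V (h : A.Good2) (j : ℤ) {i : ℕ} (hi : i ≤ n) : A.u j (A.V (n - i) i) = 0 := by
  have h1 := A.ip_u_E h.good j ((n - i : ℕ) : ℤ) (i : ℤ)
  rw [A.E_nat (n - i) i (by omega), ip_bv_right] at h1
  exact h1

theorem aux_V_inj (h : A.Good2) {i j : ℕ} (hi : i ≤ n) (hj : j ≤ n)
    (e : A.V (n - i) i = A.V (n - j) j) : i = j := by
  by_contra hne
  have h1 := h.good.ip_E ((n - i : ℕ) : ℤ) (i : ℤ) ((n - j : ℕ) : ℤ) (j : ℤ)
    ⟨by positivity, by positivity, by omega⟩ ⟨by positivity, by positivity, by omega⟩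
  rw [A.E_nat (n - i) i (by omega), A.E_nat (n - j) j (by omega), e, ip_bv_self,
    if_neg (by rintro ⟨-, h2⟩; exact hne (by exact_mod_cast h2))] at h1
  exact one_ne_zero h1

theorem aux_u_disj (h : A.Good2) {j k : ℤ} (h1 : 1 ≤ j) (h2 : j < k) (h3 : k ≤ n) (x : G.B)
    (hj : A.u j x = 1) (hk : A.u k x = 1) : False := by
  have e1 := A.ip_u_u h.good (i := j) (k := k - j) (by omega) (by omega) (by omega)
  rw [h.e0 (k - j) (by omega) (by omega)] at e1
  have e2 : j + (k - j) = k := by ring
  rw [e2] at e1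
  have e3 := mul_le_ip (A.u_nonneg h.good j) (A.u_nonneg h.good k) x
  rw [e1, hj, hk] at e3
  omega

theorem aux_index (n a : ℕ) (ha' : 2 * a ≤ n + 1) {i : ℕ} (hi : i < n + 1 + 2 * (n + 2 - 2 * a))
    (hn : ¬ i ≤ n) : ∃ j w : ℕ, a ≤ j ∧ j ≤ n + 1 - a ∧ w < 2 ∧ i = lineIx n a j w := by
  refine ⟨a + (i - (n + 1)) / 2, (i - (n + 1)) % 2, by omega, by omega, by omega, ?_⟩
  unfold lineIx
  omega

/-- different nodes are different basis elements -/
theorem phi0_inj (h : A.Good2) (hc : ChainData A c d sw) (ha : 1 ≤ a) (ha' : 2 * a ≤ n + 1) :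
    ∀ i < n + 1 + 2 * (n + 2 - 2 * a), ∀ j < n + 1 + 2 * (n + 2 - 2 * a),
      phi0 A c d a i = phi0 A c d a j → i = j := by
  intro i hi i' hi' he
  by_cases h1 : i ≤ n <;> by_cases h2 : i' ≤ n
  · unfold phi0 at he
    rw [if_pos h1, if_pos h2] at he
    exact aux_V_inj h h1 h2 he
  · exfalso
    obtain ⟨j, w, hj1, hj2, hw, rfl⟩ := aux_index n a ha' hi' h2
    rw [phi0_line A c d hj1 hw] at he
    unfold phi0 at he
    rw [if_pos h1] at he
    have e1 := aux_u_one hc (j := j) (by omega) (by omega) w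
    rw [← he, aux_u_V h _ h1] at e1
    exact zero_ne_one e1
  · exfalso
    obtain ⟨j, w, hj1, hj2, hw, rfl⟩ := aux_index n a ha' hi h1
    rw [phi0_line A c d hj1 hw] at he
    unfold phi0 at he
    rw [if_pos h2] at he
    have e1 := aux_u_one hc (j := j) (by omega) (by omega) w
    rw [he, aux_u_V h _ h2] at e1
    exact zero_ne_one e1
  · obtain ⟨j, w, hj1, hj2, hw, rfl⟩ := aux_index n a ha' hi h1
    obtain ⟨j', w', hj1', hj2', hw', rfl⟩ := aux_index n a ha' hi' h2
    rw [phi0_line A c d hj1 hw, phi0_line A c d hj1' hw'] at he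
    have e1 := aux_u_one hc (j := j) (by omega) (by omega) w
    have e2 := aux_u_one hc (j := j') (by omega) (by omega) w'
    rcases lt_trichotomy j j' with hlt | heq | hgt
    · rw [he] at e1
      exact (aux_u_disj h (by omega) (by omega) (by omega) _ e1 e2).elim
    · subst heq
      have hne := (hc.u_eq j (by omega) (by omega)).2
      have hww : w = w' := by
        interval_cases w <;> interval_cases w'
        · rfl
        · simp only [if_true, one_ne_zero, if_false] at he
          exact absurd he hne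
        · simp only [if_true, one_ne_zero, if_false] at he
          exact absurd he.symm hne
        · rfl
      rw [hww]
    · rw [← he] at e2
      exact (aux_u_disj h (by omega) (by omega) (by omega) _ e2 e1).elim

end init

end Pool.Agent.Helper363.Nita
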