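import Pool.Agent.Helper363.Nita.InitI1

namespace Pool.Agent.Helper363.Nita

section init
variable {G : NG} {n : ℕ} {A : Arr G n} {c d : ℤ → G.B} {sw : Bool} {a : ℕ}

theorem V_inj (h : A.Good) {a b c d : ℕ} (h1 : a + b ≤ n) (h2 : c + d ≤ n)
    (he : A.V a b = A.V c d) : a = c ∧ b = d := by
  have h3 := h.ip_E a b c d ⟨by positivity, by positivity, by exact_mod_cast h1⟩
    ⟨by positivity, by positivity, by exact_mod_cast h2⟩
  rw [A.E_nat a b h1, A.E_nat c d h2, he, ip_bv_self] at h3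
  by_contra hne
  rw [if_neg (by intro h4; exact hne ⟨by exact_mod_cast h4.1, by exact_mod_cast h4.2⟩)] at h3
  exact one_ne_zero h3

theorem cd_ne_V (h : A.Good2) (hc : ChainData A c d sw) {j : ℤ} (h1 : 1 ≤ j) (h2 : j ≤ n)
    {a b : ℕ} (hab : a + b ≤ n) : c j ≠ A.V a b ∧ d j ≠ A.V a b := by
  classical
  have h3 := A.ip_u_E h.good j a b
  rw [A.E_nat a b hab, ip_bv_right, (hc.u_eq j h1 h2).1, Finsupp.add_apply] at h3
  have hnn : ∀ x y : G.B, 0 ≤ (bv x : G.B →₀ ℤ) y := by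
    intro x y
    simp only [bv, Finsupp.single_apply]
    split_ifs <;> norm_num
  have hone : ∀ x : G.B, (bv x : G.B →₀ ℤ) x = 1 := by
    intro x
    simp [bv]
  constructor
  · intro he
    have h4 := hnn (d j) (A.V a b)
    rw [he, hone] at h3
    omega
  · intro he
    have h4 := hnn (c j) (A.V a b)
    rw [he, hone] at h3
    omega

theorem phi0_low (A : Arr G n) (c d : ℤ → G.B) (a : ℕ) {i : ℕ} (hi : i ≤ n) :
    phi0 A c d a i = A.V (n - i) i := by
  unfold phi0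
  rw [if_pos hi]

theorem phi0_cases (A : Arr G n) (c d : ℤ → G.B) {a : ℕ} (ha : 1 ≤ a) {i : ℕ}
    (hi : i < n + 1 + 2 * (n + 2 - 2 * a)) :
    (i ≤ n ∧ phi0 A c d a i = A.V (n - i) i) ∨
    (n + 1 ≤ i ∧ ∃ j : ℤ, 1 ≤ j ∧ j ≤ n ∧ (phi0 A c d a i = c j ∨ phi0 A c d a i = d j)) := by
  rcases Nat.lt_or_ge n i with hin | hin
  · right
    refine ⟨hin, ((a + (i - (n + 1)) / 2 : ℕ) : ℤ), by omega, by omega, ?_⟩
    unfold phi0
    rw [if_neg (by omega)]
    by_cases h0 : (i - (n + 1)) % 2 = 0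
    · left
      rw [if_pos h0]
    · right
      rw [if_neg h0]
  · exact Or.inl ⟨hin, phi0_low A c d a hin⟩

theorem E_apply_ne (A : Arr G n) (a b : ℤ) {y : G.B} (hy : A.E a b y ≠ 0) :
    ∃ a' b' : ℕ, a' + b' ≤ n ∧ y = A.V a' b' := by
  classical
  by_cases h : 0 ≤ a ∧ 0 ≤ b ∧ a + b ≤ n
  · obtain ⟨a', b', -, -, h3, h4⟩ := A.E_ex h
    refine ⟨a', b', h3, ?_⟩
    rw [h4] at hy
    by_contra hne
    exact hy (by simp [bv, Finsupp.single_apply, Ne.symm hne])
  · rw [A.E_out h] at hy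
    simp at hy

theorem T_V_ne (A : Arr G n) {x x2 : ℕ} (hx : x + x2 < n) {y : G.B}
    (hy : G.T (bv y) (A.V x x2) ≠ 0) : ∃ a' b' : ℕ, a' + b' ≤ n ∧ y = A.V a' b' := by
  rw [G.adj, ← A.E_nat x x2 hx.le,
    A.S_E (by positivity) (by positivity) (by exact_mod_cast hx)] at hy
  rw [Finsupp.add_apply, Finsupp.add_apply] at hy
  by_cases h1 : A.E (x : ℤ) ((x2 : ℤ) + 1) y = 0
  · by_cases h2 : A.E ((x : ℤ) + 1) ((x2 : ℤ) - 1) y = 0
    · rw [h1, h2] at hy
      exact E_apply_ne A _ _ (by simpa using hy)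
    · exact E_apply_ne A _ _ h2
  · exact E_apply_ne A _ _ h1

theorem glob0 (h : A.Good2) (hc : ChainData A c d sw) (ha : 1 ≤ a) (ha' : 2 * a ≤ n + 1)
    {lo hi : ℕ} (hlo : (lo : ℤ) ≤ ip (G.T (A.u 1)) (G.T (A.u 1)))
    (hhi : hi ≠ 0 → ip (G.T (A.u 1)) (G.T (A.u 1)) ≤ (hi : ℤ)) :
    Glob (world0 A) (initC n a lo hi) (n + 1 + 2 * (n + 2 - 2 * a)) (phi0 A c d a) := by
  have hn4 : 4 ≤ n := h.good.hn
  refine ⟨rfl, ?_, phi0_inj h hc ha ha', ?_, ?_, ?_, ?_, ?_, ?_⟩
  · show n + 1 ≤ n + 1 + 2 * (n + 2 - 2 * a)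
    omega
  · intro i hi hin j hj hbar
    have hin' : n + 1 ≤ i := hin
    have hj' : j < n + 1 := hj
    rw [phi0_low A c d a (by omega : j ≤ n)] at hbar
    have h1 : phi0 A c d a i = A.V j (n - j) := by
      rw [← A.bar_V (n - j) j (by omega), ← hbar, G.bar_bar]
    rcases phi0_cases A c d ha hi with ⟨h2, -⟩ | ⟨-, k, hk1, hk2, hk⟩
    · omega
    · have h3 := cd_ne_V h hc hk1 hk2 (a := j) (b := n - j) (by omega)
      rcases hk with hk | hk
      · exact h3.1 (hk.symm.trans h1)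
      · exact h3.2 (hk.symm.trans h1)
  · intro i hi hL
    obtain ⟨x, y, hxy, he⟩ := hL
    rcases phi0_cases A c d ha hi with ⟨h2, h3⟩ | ⟨-, k, hk1, hk2, hk⟩
    · have h4 := V_inj h.good (a := n - i) (b := i) (c := x) (d := y) (by omega) (by omega)
        (h3.symm.trans he)
      omega
    · have h3 := cd_ne_V h hc hk1 hk2 (a := x) (b := y) (by omega)
      rcases hk with hk | hk
      · exact h3.1 (hk.symm.trans he)
      · exact h3.2 (hk.symm.trans he)
  · intro i hi hin z hL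
    have hin' : n + 1 ≤ i := hin
    obtain ⟨x, y, hxy, rfl⟩ := hL
    by_contra hne
    obtain ⟨x', y', hxy', he⟩ := T_V_ne A hxy hne
    rcases phi0_cases A c d ha hi with ⟨h2, h3⟩ | ⟨-, k, hk1, hk2, hk⟩
    · omega
    · have h3 := cd_ne_V h hc hk1 hk2 (a := x') (b := y') hxy'
      rcases hk with hk | hk
      · exact h3.1 (hk.symm.trans he)
      · exact h3.2 (hk.symm.trans he)
  · intro z hL y hne
    obtain ⟨x, x2, hxy, rfl⟩ := hL
    obtain ⟨x', y', hxy', he⟩ := T_V_ne A hxy hne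
    rcases Nat.lt_or_ge (x' + y') n with hlt | hge
    · exact Or.inl ⟨x', y', hlt, he⟩
    · refine Or.inr ⟨y', ?_, ?_⟩
      · show y' < n + 1
        omega
      · rw [phi0_low A c d a (by omega : y' ≤ n), he]
        congr 1
        omega
  · intro l hl
    have hl' : l ∈ (List.range (n + 2 - 2 * a)).map fun k =>
      (⟨[lineIx n a (a + k) 0, lineIx n a (a + k) 1], lo, hi⟩ : Line) := hl
    rw [List.mem_map] at hl'
    obtain ⟨k, hk, rfl⟩ := hl'
    rw [List.mem_range] at hk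
    have hrv : rv (phi0 A c d a) [lineIx n a (a + k) 0, lineIx n a (a + k) 1] =
        A.u ((a + k : ℕ) : ℤ) := by
      show bv (phi0 A c d a (lineIx n a (a + k) 0)) +
        (bv (phi0 A c d a (lineIx n a (a + k) 1)) + 0) = _
      rw [phi0_line A c d (by omega : a ≤ a + k) (by norm_num : 0 < 2),
        phi0_line A c d (by omega : a ≤ a + k) (by norm_num : 1 < 2)]
      rw [(hc.u_eq ((a + k : ℕ) : ℤ) (by omega) (by omega)).1]
      simp
    have hR := A.R_const h (j := ((a + k : ℕ) : ℤ)) (by omega) (by omega)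
    refine ⟨?_, ?_, ?_⟩
    · intro x hx
      have hx' : x ∈ [lineIx n a (a + k) 0, lineIx n a (a + k) 1] := hx
      simp only [List.mem_cons, List.not_mem_nil, or_false] at hx'
      show n + 1 ≤ x ∧ x < n + 1 + 2 * (n + 2 - 2 * a)
      unfold lineIx at hx'
      rcases hx' with hx' | hx' <;> omega
    · show (lo : ℤ) ≤ ip (G.T (rv (phi0 A c d a) [lineIx n a (a + k) 0, lineIx n a (a + k) 1]))
        (G.T (rv (phi0 A c d a) [lineIx n a (a + k) 0, lineIx n a (a + k) 1]))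
      rw [hrv, hR]
      exact hlo
    · intro hne
      show ip (G.T (rv (phi0 A c d a) [lineIx n a (a + k) 0, lineIx n a (a + k) 1]))
        (G.T (rv (phi0 A c d a) [lineIx n a (a + k) 0, lineIx n a (a + k) 1])) ≤ (hi : ℤ)
      rw [hrv, hR]
      exact hhi hne
  · intro b hb
    have hb' : b ∈ ([] : List Blk) := hb
    simp at hb'

end init

end Pool.Agent.Helper363.Nita
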