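import Pool.Agent.Helper363.Nita.InitI2

namespace Pool.Agent.Helper363.Nita

section init
variable {G : NG} {n : ℕ} {A : Arr G n} {c d : ℤ → G.B} {sw : Bool} {a : ℕ}

theorem phi0_le (A : Arr G n) (c d : ℤ → G.B) (a : ℕ) {i : ℕ} (hi : i ≤ n) :
    phi0 A c d a i = A.V (n - i) i := by
  unfold phi0; rw [if_pos hi]

theorem bv_phi0_le (A : Arr G n) (c d : ℤ → G.B) (a : ℕ) {i : ℕ} (hi : i ≤ n) :
    (bv (phi0 A c d a i) : G.B →₀ ℤ) = A.t i := by
  rw [phi0_le A c d a hi]
  unfold Arr.t
  rw [← A.E_nat (n - i) i (by omega), Nat.cast_sub hi]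

theorem DN_cast (x y : ℕ) : ((DN x y : ℕ) : ℤ) = dimZ x y := by
  have h : DN x y = ((x + 1) * (y + 1) * (x + y + 2)) / 2 := rfl
  rw [h, dimZ]
  push_cast
  rfl

theorem phi0_gt (A : Arr G n) (c d : ℤ → G.B) (ha' : 2 * a ≤ n + 1) {i : ℕ} (hi : n < i)
    (hK : i < n + 1 + 2 * (n + 2 - 2 * a)) :
    ∃ k : ℕ, a ≤ k ∧ k ≤ n + 1 - a ∧ (phi0 A c d a i = c k ∨ phi0 A c d a i = d k) := by
  refine ⟨a + (i - (n + 1)) / 2, by omega, by omega, ?_⟩
  unfold phi0
  rw [if_neg (by omega)]
  split_ifs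
  · left; rfl
  · right; rfl

theorem u_orth (h : A.Good2) {i k : ℕ} (hi : i ≤ n) (hk : k ≤ n) (hne : i ≠ k) :
    ip (A.u i) (A.u k) = 0 := by
  rcases lt_or_gt_of_ne hne with hlt | hlt
  · have h1 := A.ip_u_u h.good (i := (i : ℤ)) (k := ((k : ℤ) - i)) (by omega) (by omega) (by omega)
    rw [show (i : ℤ) + ((k : ℤ) - i) = k by ring] at h1
    rw [h1]
    exact h.e0 _ (by omega) (by omega)
  · have h1 := A.ip_u_u h.good (i := (k : ℤ)) (k := ((i : ℤ) - k)) (by omega) (by omega) (by omega)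
    rw [show (k : ℤ) + ((i : ℤ) - k) = i by ring] at h1
    rw [ip_comm, h1]
    exact h.e0 _ (by omega) (by omega)

theorem u_phi0_low (h : A.Good2) (c d : ℤ → G.B) (a : ℕ) (j : ℤ) {i : ℕ} (hi : i ≤ n) :
    A.u j (phi0 A c d a i) = 0 := by
  have h1 := A.ip_u_E h.good j ((n : ℤ) - i) i
  have h2 := bv_phi0_le A c d a hi
  unfold Arr.t at h2
  rw [← h2, ip_bv_right] at h1
  exact h1

theorem u_phi0_out (h : A.Good2) (hc : ChainData A c d sw) (ha : 1 ≤ a) (ha' : 2 * a ≤ n + 1)
    {j : ℕ} (hj : j ≤ n) (hw : ¬ (a ≤ j ∧ j ≤ n + 1 - a)) {i : ℕ}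
    (hi : i < n + 1 + 2 * (n + 2 - 2 * a)) :
    A.u j (phi0 A c d a i) = 0 := by
  by_cases hin : i ≤ n
  · exact u_phi0_low h c d a j hin
  · obtain ⟨k, hk1, hk2, hk3⟩ := phi0_gt A c d ha' (by omega : n < i) hi
    have hkj : j ≠ k := by rintro rfl; exact hw ⟨hk1, hk2⟩
    have horth := u_orth h hj (by omega : k ≤ n) hkj
    obtain ⟨hu, hcd⟩ := hc.u_eq k (by omega) (by omega)
    have h0 : ∀ x, 0 ≤ A.u (j : ℤ) x := A.u_nonneg h.good j
    have h1 : 1 ≤ A.u (k : ℤ) (phi0 A c d a i) := by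
      classical
      rw [hu, Finsupp.add_apply]
      rcases hk3 with hk3 | hk3
      · rw [hk3]
        have e1 : (bv (c k) : G.B →₀ ℤ) (c k) = 1 := by simp [bv]
        have e2 : 0 ≤ (bv (d k) : G.B →₀ ℤ) (c k) := by
          simp only [bv, Finsupp.single_apply]; split_ifs <;> norm_num
        omega
      · rw [hk3]
        have e1 : (bv (d k) : G.B →₀ ℤ) (d k) = 1 := by simp [bv]
        have e2 : 0 ≤ (bv (c k) : G.B →₀ ℤ) (d k) := by
          simp only [bv, Finsupp.single_apply]; split_ifs <;> norm_num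
        omega
    have h2 := mul_le_ip (A.u_nonneg h.good j) (A.u_nonneg h.good k) (phi0 A c d a i)
    rw [horth] at h2
    have h3 := h0 (phi0 A c d a i)
    nlinarith

theorem rowT_rv (h : A.Good2) (hc : ChainData A c d sw) (ha : 1 ≤ a) (ha' : 2 * a ≤ n + 1)
    {j : ℕ} (hj : j ≤ n) :
    rv (phi0 A c d a) (rowT n a j).out =
      A.t (j + 1) + (if a ≤ j ∧ j ≤ n + 1 - a then A.u j else 0) := by
  have e : (rowT n a j).out = (bif Nat.blt j n then [j + 1] else []) ++
      (bif Nat.ble a j && Nat.ble j (n + 1 - a) then [lineIx n a j 0, lineIx n a j 1] else []) := rfl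
  rw [e, rv_append]
  congr 1
  · by_cases hjn : j < n
    · have : Nat.blt j n = true := by simpa using hjn
      rw [this]
      simp only [cond_true, rv, add_zero]
      rw [bv_phi0_le A c d a (by omega : j + 1 ≤ n)]
      push_cast
      rfl
    · have : Nat.blt j n = false := by
        rw [Bool.eq_false_iff]; intro hh; exact hjn (by simpa using hh)
      rw [this]
      simp only [cond_false, rv]
      rw [A.t_out (by right; omega)]
  · by_cases hw : a ≤ j ∧ j ≤ n + 1 - a
    · have : (Nat.ble a j && Nat.ble j (n + 1 - a)) = true := by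
        rw [Bool.and_eq_true]; exact ⟨by simpa using hw.1, by simpa using hw.2⟩
      rw [this, if_pos hw]
      simp only [cond_true, rv, add_zero]
      rw [phi0_line A c d hw.1 (by norm_num : 0 < 2), phi0_line A c d hw.1 (by norm_num : 1 < 2)]
      rw [(hc.u_eq j (by omega) (by omega)).1]
      simp
    · have : (Nat.ble a j && Nat.ble j (n + 1 - a)) = false := by
        rw [Bool.eq_false_iff]; intro hh
        rw [Bool.and_eq_true] at hh
        exact hw ⟨by simpa using hh.1, by simpa using hh.2⟩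
      rw [this, if_neg hw]
      rfl

theorem rowT_outlt (ha' : 2 * a ≤ n + 1) {j : ℕ} (hj : j ≤ n) :
    ∀ i ∈ (rowT n a j).out, i < n + 1 + 2 * (n + 2 - 2 * a) := by
  have e : (rowT n a j).out = (bif Nat.blt j n then [j + 1] else []) ++
      (bif Nat.ble a j && Nat.ble j (n + 1 - a) then [lineIx n a j 0, lineIx n a j 1] else []) := rfl
  intro i hi
  rw [e, List.mem_append] at hi
  rcases hi with hi | hi
  · by_cases hjn : j < n
    · have : Nat.blt j n = true := by simpa using hjn
      rw [this] at hi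
      simp at hi
      omega
    · have : Nat.blt j n = false := by
        rw [Bool.eq_false_iff]; intro hh; exact hjn (by simpa using hh)
      rw [this] at hi
      simp at hi
  · by_cases hw : a ≤ j ∧ j ≤ n + 1 - a
    · have : (Nat.ble a j && Nat.ble j (n + 1 - a)) = true := by
        rw [Bool.and_eq_true]; exact ⟨by simpa using hw.1, by simpa using hw.2⟩
      rw [this] at hi
      simp only [cond_true, List.mem_cons, List.not_mem_nil, or_false, lineIx] at hi
      omega
    · have : (Nat.ble a j && Nat.ble j (n + 1 - a)) = false := by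
        rw [Bool.eq_false_iff]; intro hh
        rw [Bool.and_eq_true] at hh
        exact hw ⟨by simpa using hh.1, by simpa using hh.2⟩
      rw [this] at hi
      simp at hi

theorem rowT_sat (h : A.Good2) (hc : ChainData A c d sw) (ha : 1 ≤ a) (ha' : 2 * a ≤ n + 1)
    {j : ℕ} (hj : j ≤ n) :
    RowSat (world0 A) (n + 1 + 2 * (n + 2 - 2 * a)) (phi0 A c d a) j (rowT n a j) := by
  have hTt : G.T (bv (phi0 A c d a j)) = A.t (j + 1) + A.s (j - 1) + A.u j := by
    rw [bv_phi0_le A c d a hj]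
    exact A.Tt (by omega) (by omega)
  have hW : (world0 A).W j = A.s ((j : ℤ) - 1) := by
    show (if j ≤ n then A.s ((j : ℤ) - 1) else 0) = _
    rw [if_pos hj]
  have hrv := rowT_rv h hc ha ha' hj
  have hd : G.d (phi0 A c d a j) = ((DN (n - j) j : ℕ) : ℤ) := by
    rw [phi0_le A c d a hj, A.d_V _ _ (by omega), DN_cast]
  refine ⟨?_, ?_, ?_, ?_, ?_, ?_, ?_, rowT_outlt ha' hj, ?_, ?_, ?_, ?_⟩
  · show n - j < _
    omega
  · show G.bar (phi0 A c d a j) = phi0 A c d a (n - j)
    rw [phi0_le A c d a hj, phi0_le A c d a (by omega), A.bar_V _ _ (by omega)]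
    congr 1
    omega
  · show Nat.mod (n + j) 3 < 3
    exact Nat.mod_lt _ (by norm_num)
  · show G.gr (phi0 A c d a j) = ((Nat.mod (n + j) 3 : ℕ) : ZMod 3)
    rw [phi0_le A c d a hj, A.gr_V _ _ (by omega), Nat.cast_sub hj]
    have e : ((Nat.mod (n + j) 3 : ℕ) : ZMod 3) = ((n + j : ℕ) : ZMod 3) :=
      ZMod.natCast_mod (n + j) 3
    rw [e]
    push_cast
    have h3 : (3 : ZMod 3) = 0 := by decide
    linear_combination (-(j : ZMod 3)) * h3
  · rw [hd]; exact le_refl _
  · intro _
    rw [hd]; exact le_refl _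
  · show G.dg ((world0 A).W j) = _
    rw [hW]
    show _ = (((bif Nat.beq j 0 then 0 else DN (n - j) (j - 1)) : ℕ) : ℤ)
    by_cases hj0 : j = 0
    · subst hj0
      rw [A.s_out (by left; norm_num)]
      rw [G.dg_zero]
      rfl
    · have : Nat.beq j 0 = false := by
        rw [Bool.eq_false_iff]; intro hh
        exact hj0 (Nat.eq_of_beq_eq_true hh)
      rw [this, cond_false, A.dg_s (by omega) (by omega), DN_cast]
      rw [Nat.cast_sub hj, Nat.cast_sub (by omega : 1 ≤ j)]
      congr 1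
      push_cast
      ring
  · rw [hrv, hTt, hW]
    have hu := A.u_nonneg h.good (j : ℤ)
    intro x
    have hux := hu x
    simp only [Finsupp.coe_zero, Pi.zero_apply] at hux
    split_ifs
    · simp only [Finsupp.add_apply]
      linarith
    · simp only [Finsupp.add_apply, Finsupp.coe_zero, Pi.zero_apply]
      linarith
  · show 2 ^ (n + 1 + 2 * (n + 2 - 2 * a)) - 1 < 2 ^ (n + 1 + 2 * (n + 2 - 2 * a))
    have : 0 < 2 ^ (n + 1 + 2 * (n + 2 - 2 * a)) := by positivity
    omega
  · intro i hi _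
    have hg := glob0 h hc ha ha' (lo := 0) (hi := 0) (by simpa using ip_self_nonneg _)
      (by intro h0; exact absurd rfl h0)
    have hs : A.s ((j : ℤ) - 1) (phi0 A c d a i) = 0 := by
      by_contra hne
      exact hg.nodeL i hi ((world0 A).W_L j _ (by rw [hW]; exact hne))
    rw [← rv_apply (phi0_inj h hc ha ha') (rowT_outlt ha' hj) hi, hrv, hTt]
    simp only [Finsupp.add_apply]
    rw [hs]
    by_cases hw : a ≤ j ∧ j ≤ n + 1 - a
    · rw [if_pos hw]; ring
    · rw [if_neg hw, u_phi0_out h hc ha ha' hj hw hi]; simp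
  · intro hdone
    have hw : a ≤ j ∧ j ≤ n + 1 - a := by
      have hh : (Nat.ble a j && Nat.ble j (n + 1 - a)) = true := hdone
      rw [Bool.and_eq_true] at hh
      exact ⟨by simpa using hh.1, by simpa using hh.2⟩
    rw [hTt, hrv, hW, if_pos hw]
    abel

end init

end Pool.Agent.Helper363.Nita
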