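import Pool.Agent.Helper363.Nita.InitI3

namespace Pool.Agent.Helper363.Nita

section init
variable {G : NG} {n : ℕ} {A : Arr G n} {c d : ℤ → G.B} {sw : Bool} {a : ℕ}

theorem rC_u_one (hc : ChainData A c d sw) {j : ℕ} (h1 : 1 ≤ j) (h2 : j ≤ n) (w : ℕ) :
    A.u (j : ℤ) (if w = 0 then c j else d j) = 1 := by
  classical
  obtain ⟨h3, h4⟩ := hc.u_eq j (by exact_mod_cast h1) (by exact_mod_cast h2)
  rw [h3]
  split_ifs
  · simp [bv, Finsupp.single_apply, Ne.symm h4]
  · simp [bv, Finsupp.single_apply, h4]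

/-- if `u j` is one at `x` and `y` is nonnegative and orthogonal to `u j` then `y x = 0` -/
theorem rC_zero (h : A.Good2) {j : ℤ} {x : G.B} (hx : A.u j x = 1) {y : G.B →₀ ℤ} (hy : 0 ≤ y)
    (hip : ip (A.u j) y = 0) : y x = 0 := by
  have h1 := mul_le_ip (A.u_nonneg h.good j) hy x
  rw [hx, hip, one_mul] at h1
  exact le_antisymm h1 (hy x)

theorem rC_uu (h : A.Good2) {j k : ℤ} (hj : 0 ≤ j) (hj' : j ≤ n + 1) (hk : 0 ≤ k) (hk' : k ≤ n + 1)
    (hne : j ≠ k) (hd : j - k ≤ n) (hd' : k - j ≤ n) : ip (A.u j) (A.u k) = 0 := by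
  rcases lt_or_gt_of_ne hne with hlt | hlt
  · have h1 := A.ip_u_u h.good (i := j) (k := k - j) hj (by linarith) (by linarith)
    rw [show j + (k - j) = k by ring] at h1
    rw [h1]
    exact h.e0 _ (by omega) hd'
  · have h1 := A.ip_u_u h.good (i := k) (k := j - k) hk (by linarith) (by linarith)
    rw [show k + (j - k) = j by ring] at h1
    rw [ip_comm, h1]
    exact h.e0 _ (by omega) hd

/-- value of the row of `x` at a node of level `n` -/
theorem rC_T_V (h : A.Good2) {j : ℕ} (hj : 1 ≤ j) (hj' : j ≤ n) {x : G.B} (hx : A.u (j : ℤ) x = 1)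
    {k : ℕ} (hk : k ≤ n) : G.T (bv x) (A.V (n - k) k) = if k + 1 = j then 1 else 0 := by
  have h4 := h.good.hn
  rw [G.adj]
  have ht : A.t (k : ℤ) = bv (A.V (n - k) k) := by
    have := A.E_nat (n - k) k (by omega)
    unfold Arr.t
    rw [← this]
    congr 1
    push_cast [hk]
    ring
  rw [← ht, A.St (by omega) (by positivity) (by exact_mod_cast hk)]
  have e1 : A.t ((k : ℤ) - 1) x = 0 := rC_zero h hx (A.t_nonneg _) (A.ip_u_E h.good _ _ _)
  have e2 : A.s (k : ℤ) x = 0 := rC_zero h hx (A.s_nonneg _) (A.ip_u_E h.good _ _ _)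
  simp only [Finsupp.add_apply, e1, e2, zero_add]
  split_ifs with hkj
  · rw [← hkj] at hx
    push_cast at hx
    exact hx
  · apply rC_zero h hx (A.u_nonneg h.good _)
    apply rC_uu h <;> omega

theorem rC_phi_low (A : Arr G n) (c d : ℤ → G.B) (a : ℕ) {k : ℕ} (hk : k ≤ n) :
    phi0 A c d a k = A.V (n - k) k := by
  unfold phi0
  rw [if_pos hk]

theorem rC_gz (h : A.Good2) (hc : ChainData A c d sw) {j : ℕ} (hj : 3 ≤ j) (hj' : j ≤ n)
    (w w' : ℕ) : G.T (bv (if w = 0 then c j else d j))
      (if w' = 0 then c ((j - 2 : ℕ) : ℤ) else d ((j - 2 : ℕ) : ℤ)) = 0 := by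
  have e := h.gz ((j - 2 : ℕ) : ℤ) (by positivity) (by omega)
  rw [show (((j - 2 : ℕ) : ℤ) + 2) = j by omega] at e
  have hu1 := rC_u_one hc (j := j - 2) (by omega) (by omega) w'
  have hnn : 0 ≤ G.T (A.u j) := G.T_pos (A.u_nonneg h.good _)
  have h1 := mul_le_ip hnn (A.u_nonneg h.good ((j - 2 : ℕ) : ℤ))
    (if w' = 0 then c ((j - 2 : ℕ) : ℤ) else d ((j - 2 : ℕ) : ℤ))
  rw [hu1, e, mul_one] at h1
  obtain ⟨h3, h4⟩ := hc.u_eq j (by omega) (by exact_mod_cast hj')
  rw [h3, map_add, Finsupp.add_apply] at h1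
  have p1 := G.T_nonneg (c j) (if w' = 0 then c ((j - 2 : ℕ) : ℤ) else d ((j - 2 : ℕ) : ℤ))
  have p2 := G.T_nonneg (d j) (if w' = 0 then c ((j - 2 : ℕ) : ℤ) else d ((j - 2 : ℕ) : ℤ))
  by_cases hw : w = 0
  · rw [if_pos hw]; linarith
  · rw [if_neg hw]; linarith

theorem rC_bv_nonneg {B : Type} (y : B) : (0 : B →₀ ℤ) ≤ bv y := by
  classical
  intro z
  simp only [bv, Finsupp.single_apply, Finsupp.coe_zero, Pi.zero_apply]
  split_ifs <;> norm_num

theorem rC_bv_le {B : Type} {T : B →₀ ℤ} (hT : 0 ≤ T) {y : B} (hy : 1 ≤ T y) : bv y ≤ T := by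
  classical
  intro z
  have := hT z
  simp only [bv, Finsupp.single_apply, Finsupp.coe_zero, Pi.zero_apply] at this ⊢
  split_ifs with hz
  · subst hz; exact hy
  · exact this

theorem rC_bv_add_le {B : Type} {T : B →₀ ℤ} (hT : 0 ≤ T) {y z : B} (hy : 1 ≤ T y) (hz : 1 ≤ T z)
    (hne : y ≠ z) : bv y + bv z ≤ T := by
  classical
  intro x
  have := hT x
  simp only [bv, Finsupp.single_apply, Finsupp.coe_zero, Pi.zero_apply, Finsupp.add_apply] at this ⊢
  by_cases h1 : y = x
  · subst h1
    rw [if_pos rfl, if_neg (Ne.symm hne)]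
    simpa using hy
  · rw [if_neg h1]
    by_cases h2 : z = x
    · subst h2
      rw [if_pos rfl]; simpa using hz
    · rw [if_neg h2]; simpa using this

theorem rC_cnt_cons (x y : ℕ) (l : List ℕ) :
    cnt x (y :: l) = if x = y then cnt x l + 1 else cnt x l := by
  have h0 : cnt x (y :: l) = bif Nat.beq x y then Nat.succ (cnt x l) else cnt x l := rfl
  rw [h0]
  by_cases h : x = y
  · subst h
    rw [if_pos rfl, Nat.beq_refl, cond_true]
  · have h1 : Nat.beq x y = false := by
      rw [← Bool.not_eq_true, Nat.beq_eq]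
      exact h
    rw [h1, if_neg h, cond_false]

theorem rC_DN (a b : ℕ) : ((DN a b : ℕ) : ℤ) = dimZ a b := by
  unfold DN dimZ
  have : Nat.div (Nat.mul (Nat.mul (a + 1) (b + 1)) (a + b + 2)) 2 =
    ((a + 1) * (b + 1) * (a + b + 2)) / 2 := rfl
  rw [this]
  push_cast
  rfl

theorem rowC_sat (h : A.Good2) (hc : ChainData A c d sw) (ha : 1 ≤ a) (ha' : 2 * a ≤ n + 1)
    {j w : ℕ} (hj : a ≤ j) (hj' : j ≤ n + 1 - a) (hw : w < 2) :
    RowSat (world0 A) (n + 1 + 2 * (n + 2 - 2 * a)) (phi0 A c d a) (lineIx n a j w)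
      (rowC n a sw j w) := by
  have hj1 : 1 ≤ j := by omega
  have hjn : j ≤ n := by omega
  have hu1 : A.u (j : ℤ) (if w = 0 then c j else d j) = 1 := rC_u_one hc hj1 hjn w
  have hphi : phi0 A c d a (lineIx n a j w) = if w = 0 then c j else d j :=
    phi0_line A c d hj hw
  have hW : (world0 A).W (lineIx n a j w) = 0 := by
    show (if lineIx n a j w ≤ n then A.s (((lineIx n a j w : ℕ) : ℤ) - 1) else 0) = 0
    rw [if_neg]
    unfold lineIx
    omega
  have hlow : phi0 A c d a (j - 1) = A.V (n - (j - 1)) (j - 1) :=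
    rC_phi_low A c d a (by omega)
  -- value at j - 1
  have hTlow : G.T (bv (if w = 0 then c (j : ℤ) else d (j : ℤ))) (phi0 A c d a (j - 1)) = 1 := by
    rw [hlow, rC_T_V h hj1 hjn hu1 (by omega), if_pos (by omega)]
  -- value at j + 1
  have hTup : j < n + 1 - a → ∀ w' < 2, G.T (bv (if w = 0 then c (j : ℤ) else d (j : ℤ)))
      (phi0 A c d a (lineIx n a (j + 1) w')) = if w' = w then 1 else 0 := by
    intro hlt w' hw'
    rw [phi0_line A c d (by omega) hw']
    obtain ⟨m1, m2, m3, m4⟩ := hc.mat j (by omega) (by omega)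
    push_cast
    have hw0 : w = 0 ∨ w = 1 := by omega
    have hw0' : w' = 0 ∨ w' = 1 := by omega
    rcases hw0 with rfl | rfl <;> rcases hw0' with rfl | rfl <;> simp [m1, m2, m3, m4]
  have hTdn : a + 2 ≤ j → ∀ w' < 2, G.T (bv (if w = 0 then c (j : ℤ) else d (j : ℤ)))
      (phi0 A c d a (lineIx n a (j - 2) w')) = 0 := by
    intro hlt w' hw'
    rw [phi0_line A c d (by omega) hw']
    exact rC_gz h hc (by omega) hjn w w'
  have hTnn : 0 ≤ G.T (bv (if w = 0 then c (j : ℤ) else d (j : ℤ))) := fun y => G.T_nonneg _ _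
  have hout : (rowC n a sw j w).out =
      (if j < n + 1 - a then [lineIx n a (j + 1) w] else []) ++ [j - 1] := by
    unfold rowC
    by_cases hlt : j < n + 1 - a
    · rw [if_pos hlt]
      have : Nat.blt j (n + 1 - a) = true := by rw [Nat.blt_eq]; exact hlt
      simp only [this, cond_true]
    · rw [if_neg hlt]
      have : Nat.blt j (n + 1 - a) = false := by
        rw [← Bool.not_eq_true, Nat.blt_eq]; exact hlt
      simp only [this, cond_false]
  have hdec : (rowC n a sw j w).dec = setBits (2 ^ (n + 1) - 1)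
      ((if j < n + 1 - a then [lineIx n a (j + 1) 0, lineIx n a (j + 1) 1] else []) ++
       (if a + 2 ≤ j then [lineIx n a (j - 2) 0, lineIx n a (j - 2) 1] else [])) := by
    unfold rowC
    have e1 : (bif Nat.blt j (n + 1 - a) then [lineIx n a (j + 1) 0, lineIx n a (j + 1) 1] else []) =
      (if j < n + 1 - a then [lineIx n a (j + 1) 0, lineIx n a (j + 1) 1] else []) := by
      by_cases hlt : j < n + 1 - a
      · rw [if_pos hlt]
        have : Nat.blt j (n + 1 - a) = true := by rw [Nat.blt_eq]; exact hlt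
        rw [this, cond_true]
      · rw [if_neg hlt]
        have : Nat.blt j (n + 1 - a) = false := by
          rw [← Bool.not_eq_true, Nat.blt_eq]; exact hlt
        rw [this, cond_false]
    have e2 : (bif Nat.ble (a + 2) j then [lineIx n a (j - 2) 0, lineIx n a (j - 2) 1] else []) =
      (if a + 2 ≤ j then [lineIx n a (j - 2) 0, lineIx n a (j - 2) 1] else []) := by
      by_cases hlt : a + 2 ≤ j
      · rw [if_pos hlt]
        have : Nat.ble (a + 2) j = true := by rw [Nat.ble_eq]; exact hlt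
        rw [this, cond_true]
      · rw [if_neg hlt]
        have : Nat.ble (a + 2) j = false := by
          rw [← Bool.not_eq_true, Nat.ble_eq]; exact hlt
        rw [this, cond_false]
    simp only [e1, e2]
  have hdecl : ∀ k ∈ ((if j < n + 1 - a then [lineIx n a (j + 1) 0, lineIx n a (j + 1) 1] else []) ++
       (if a + 2 ≤ j then [lineIx n a (j - 2) 0, lineIx n a (j - 2) 1] else [])),
       ∃ w' < 2, (j < n + 1 - a ∧ k = lineIx n a (j + 1) w') ∨
        (a + 2 ≤ j ∧ k = lineIx n a (j - 2) w') := by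
    intro k hk
    rw [List.mem_append] at hk
    rcases hk with hk | hk
    · split_ifs at hk with hlt
      · simp only [List.mem_cons, List.not_mem_nil, or_false] at hk
        rcases hk with rfl | rfl
        · exact ⟨0, by norm_num, Or.inl ⟨hlt, rfl⟩⟩
        · exact ⟨1, by norm_num, Or.inl ⟨hlt, rfl⟩⟩
      · simp at hk
    · split_ifs at hk with hlt
      · simp only [List.mem_cons, List.not_mem_nil, or_false] at hk
        rcases hk with rfl | rfl
        · exact ⟨0, by norm_num, Or.inr ⟨hlt, rfl⟩⟩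
        · exact ⟨1, by norm_num, Or.inr ⟨hlt, rfl⟩⟩
      · simp at hk
  refine ⟨?_, ?_, ?_, ?_, ?_, ?_, ?_, ?_, ?_, ?_, ?_, ?_⟩
  · -- cjlt
    show lineIx n a (n + 1 - j) (bif sw then 1 - w else w) < _
    unfold lineIx
    cases sw
    · simp only [cond_false]; omega
    · simp only [cond_true]; omega
  · -- bar
    show G.bar (phi0 A c d a (lineIx n a j w)) =
      phi0 A c d a (lineIx n a (n + 1 - j) (bif sw then 1 - w else w))
    have hw' : (bif sw then 1 - w else w) < 2 := by cases sw <;> simp <;> omega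
    rw [hphi, phi0_line A c d (by omega) hw']
    obtain ⟨b1, b2⟩ := hc.bar j (by omega) (by omega)
    have hcast : ((n + 1 - j : ℕ) : ℤ) = n + 1 - j := by omega
    rw [hcast]
    have hw0 : w = 0 ∨ w = 1 := by omega
    cases sw <;> rcases hw0 with rfl | rfl <;> simp at b1 b2 ⊢ <;> assumption
  · -- grlt
    exact Nat.mod_lt _ (by norm_num)
  · -- gr
    rw [hphi]
    have h1 := A.Gr_u j (if w = 0 then c j else d j) (by rw [hu1]; norm_num)
    rw [h1]
    show _ = ((Nat.mod (n + 1 + j) 3 : ℕ) : ZMod 3)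
    have h2 : ((Nat.mod (n + 1 + j) 3 : ℕ) : ZMod 3) = ((n + 1 + j : ℕ) : ZMod 3) :=
      ZMod.natCast_mod (n + 1 + j) 3
    rw [h2]
    push_cast
    have h3 : (3 : ZMod 3) = 0 := by decide
    have h4 : ((n : ZMod 3) + 1 - 2 * j) = (n + 1 + j) - 3 * j := by ring
    rw [h4, h3]; ring
  · -- lo
    show (((1 : ℕ) : ℤ)) ≤ _
    have := G.d_pos (phi0 A c d a (lineIx n a j w))
    push_cast
    linarith
  · -- hi
    intro _
    show _ ≤ ((DN (n + 1 - j) j : ℕ) : ℤ)
    rw [rC_DN, hphi]
    have h1 := G.mul_d_le_dg (A.u_nonneg h.good j) (if w = 0 then c j else d j)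
    rw [hu1, one_mul, A.dg_u (by omega) (by omega)] at h1
    have hcast : ((n + 1 - j : ℕ) : ℤ) = n + 1 - j := by omega
    rw [hcast]
    exact h1
  · -- off
    rw [hW, G.dg_zero]
    rfl
  · -- outlt
    intro k hk
    rw [hout, List.mem_append] at hk
    rcases hk with hk | hk
    · split_ifs at hk with hlt
      · simp only [List.mem_cons, List.not_mem_nil, or_false] at hk
        rw [hk]
        unfold lineIx
        omega
      · simp at hk
    · simp only [List.mem_cons, List.not_mem_nil, or_false] at hk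
      rw [hk]; omega
  · -- low
    rw [hW, add_zero, hphi, hout]
    by_cases hlt : j < n + 1 - a
    · rw [if_pos hlt]
      show bv (phi0 A c d a (lineIx n a (j + 1) w)) + (bv (phi0 A c d a (j - 1)) + 0) ≤ _
      rw [add_zero]
      apply rC_bv_add_le hTnn
      · rw [hTup hlt w hw, if_pos rfl]
      · rw [hTlow]
      · intro he
        have := phi0_inj h hc ha ha' _ (by unfold lineIx; omega) _ (by omega) he
        unfold lineIx at this
        omega
    · rw [if_neg hlt]
      show bv (phi0 A c d a (j - 1)) + 0 ≤ _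
      rw [add_zero]
      apply rC_bv_le hTnn
      rw [hTlow]
  · -- declt
    rw [hdec]
    apply setBits_lt
    · have h1 : 2 ^ (n + 1) ≤ 2 ^ (n + 1 + 2 * (n + 2 - 2 * a)) :=
        Nat.pow_le_pow_right (by norm_num) (by omega)
      have h2 : 0 < 2 ^ (n + 1) := by positivity
      omega
    · intro k hk
      obtain ⟨w', hw', h1 | h1⟩ := hdecl k hk
      · rw [h1.2]; have := h1.1; unfold lineIx; omega
      · rw [h1.2]; have := h1.1; unfold lineIx; omega
  · -- dec
    intro k hk ht
    rw [hdec, tb_setBits, tb_ones] at ht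
    rw [hphi, hout]
    rcases ht with ht | ht
    · -- level n
      rw [rC_phi_low A c d a (by omega), rC_T_V h hj1 hjn hu1 (by omega)]
      have hl : k ≠ lineIx n a (j + 1) w := by unfold lineIx; omega
      by_cases hlt : j < n + 1 - a
      · rw [if_pos hlt]
        simp only [List.singleton_append]
        rw [rC_cnt_cons, if_neg hl, rC_cnt_cons]
        by_cases hkj : k + 1 = j
        · rw [if_pos hkj, if_pos (by omega)]; rfl
        · rw [if_neg hkj, if_neg (by omega)]; rfl
      · rw [if_neg hlt]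
        simp only [List.nil_append]
        rw [rC_cnt_cons]
        by_cases hkj : k + 1 = j
        · rw [if_pos hkj, if_pos (by omega)]; rfl
        · rw [if_neg hkj, if_neg (by omega)]; rfl
    · obtain ⟨w', hw', h1 | h1⟩ := hdecl k ht
      · obtain ⟨hlt, rfl⟩ := h1
        rw [hTup hlt w' hw', if_pos hlt]
        simp only [List.singleton_append]
        rw [rC_cnt_cons, rC_cnt_cons]
        have hl : lineIx n a (j + 1) w' ≠ j - 1 := by unfold lineIx; omega
        by_cases hww : w' = w
        · subst hww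
          rw [if_pos rfl, if_pos rfl, if_neg hl]; rfl
        · have hl2 : lineIx n a (j + 1) w' ≠ lineIx n a (j + 1) w := by
            unfold lineIx; omega
          rw [if_neg hww, if_neg hl2, if_neg hl]; rfl
      · obtain ⟨hlt, rfl⟩ := h1
        rw [hTdn hlt w' hw']
        have hl : lineIx n a (j - 2) w' ≠ j - 1 := by unfold lineIx; omega
        have hl2 : lineIx n a (j - 2) w' ≠ lineIx n a (j + 1) w := by
            unfold lineIx; omega
        by_cases hlt2 : j < n + 1 - a
        · rw [if_pos hlt2]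
          simp only [List.singleton_append]
          rw [rC_cnt_cons, rC_cnt_cons, if_neg hl2, if_neg hl]; rfl
        · rw [if_neg hlt2]
          simp only [List.nil_append]
          rw [rC_cnt_cons, if_neg hl]; rfl
  · intro hd
    exact absurd hd (by simp [rowC])

end init

end Pool.Agent.Helper363.Nita
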