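import Pool.Agent.Helper363.Nita.CertA
import Pool.Agent.Helper363.Nita.CertB
import Pool.Agent.Helper363.Nita.CertC
import Pool.Agent.Helper363.Nita.CertD
import Pool.Agent.Helper363.Nita.CertE
import Pool.Agent.Helper363.Nita.Def

namespace Pool.Agent.Helper363.Nita

theorem contra_range {G : NG} {n : ℕ} (h7 : 7 ≤ n) (h42 : n ≤ 42) (A : Arr G n) (h : A.Good2) : False := by
  refine contra ?_ A h
  clear h A
  interval_cases n
  · intro sw; cases sw
    · exact ⟨cf_7_8_false, cf_7_9_false⟩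
    · exact ⟨cf_7_8_true, cf_7_9_true⟩
  · intro sw; cases sw
    · exact ⟨cf_8_8_false, cf_8_9_false⟩
    · exact ⟨cf_8_8_true, cf_8_9_true⟩
  · intro sw; cases sw
    · exact ⟨cf_9_8_false, cf_9_9_false⟩
    · exact ⟨cf_9_8_true, cf_9_9_true⟩
  · intro sw; cases sw
    · exact ⟨cf_10_8_false, cf_10_9_false⟩
    · exact ⟨cf_10_8_true, cf_10_9_true⟩
  · intro sw; cases sw
    · exact ⟨cf_11_8_false, cf_11_9_false⟩
    · exact ⟨cf_11_8_true, cf_11_9_true⟩
  · intro sw; cases sw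
    · exact ⟨cf_12_8_false, cf_12_9_false⟩
    · exact ⟨cf_12_8_true, cf_12_9_true⟩
  · intro sw; cases sw
    · exact ⟨cf_13_8_false, cf_13_9_false⟩
    · exact ⟨cf_13_8_true, cf_13_9_true⟩
  · intro sw; cases sw
    · exact ⟨cf_14_8_false, cf_14_9_false⟩
    · exact ⟨cf_14_8_true, cf_14_9_true⟩
  · intro sw; cases sw
    · exact ⟨cf_15_8_false, cf_15_9_false⟩
    · exact ⟨cf_15_8_true, cf_15_9_true⟩
  · intro sw; cases sw
    · exact ⟨cf_16_8_false, cf_16_9_false⟩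
    · exact ⟨cf_16_8_true, cf_16_9_true⟩
  · intro sw; cases sw
    · exact ⟨cf_17_8_false, cf_17_9_false⟩
    · exact ⟨cf_17_8_true, cf_17_9_true⟩
  · intro sw; cases sw
    · exact ⟨cf_18_8_false, cf_18_9_false⟩
    · exact ⟨cf_18_8_true, cf_18_9_true⟩
  · intro sw; cases sw
    · exact ⟨cf_19_8_false, cf_19_9_false⟩
    · exact ⟨cf_19_8_true, cf_19_9_true⟩
  · intro sw; cases sw
    · exact ⟨cf_20_8_false, cf_20_9_false⟩
    · exact ⟨cf_20_8_true, cf_20_9_true⟩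
  · intro sw; cases sw
    · exact ⟨cf_21_8_false, cf_21_9_false⟩
    · exact ⟨cf_21_8_true, cf_21_9_true⟩
  · intro sw; cases sw
    · exact ⟨cf_22_8_false, cf_22_9_false⟩
    · exact ⟨cf_22_8_true, cf_22_9_true⟩
  · intro sw; cases sw
    · exact ⟨cf_23_8_false, cf_23_9_false⟩
    · exact ⟨cf_23_8_true, cf_23_9_true⟩
  · intro sw; cases sw
    · exact ⟨cf_24_8_false, cf_24_9_false⟩
    · exact ⟨cf_24_8_true, cf_24_9_true⟩
  · intro sw; cases sw
    · exact ⟨cf_25_8_false, cf_25_9_false⟩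
    · exact ⟨cf_25_8_true, cf_25_9_true⟩
  · intro sw; cases sw
    · exact ⟨cf_26_8_false, cf_26_9_false⟩
    · exact ⟨cf_26_8_true, cf_26_9_true⟩
  · intro sw; cases sw
    · exact ⟨cf_27_8_false, cf_27_9_false⟩
    · exact ⟨cf_27_8_true, cf_27_9_true⟩
  · intro sw; cases sw
    · exact ⟨cf_28_8_false, cf_28_9_false⟩
    · exact ⟨cf_28_8_true, cf_28_9_true⟩
  · intro sw; cases sw
    · exact ⟨cf_29_8_false, cf_29_9_false⟩
    · exact ⟨cf_29_8_true, cf_29_9_true⟩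
  · intro sw; cases sw
    · exact ⟨cf_30_8_false, cf_30_9_false⟩
    · exact ⟨cf_30_8_true, cf_30_9_true⟩
  · intro sw; cases sw
    · exact ⟨cf_31_8_false, cf_31_9_false⟩
    · exact ⟨cf_31_8_true, cf_31_9_true⟩
  · intro sw; cases sw
    · exact ⟨cf_32_8_false, cf_32_9_false⟩
    · exact ⟨cf_32_8_true, cf_32_9_true⟩
  · intro sw; cases sw
    · exact ⟨cf_33_8_false, cf_33_9_false⟩
    · exact ⟨cf_33_8_true, cf_33_9_true⟩
  · intro sw; cases sw
    · exact ⟨cf_34_8_false, cf_34_9_false⟩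
    · exact ⟨cf_34_8_true, cf_34_9_true⟩
  · intro sw; cases sw
    · exact ⟨cf_35_8_false, cf_35_9_false⟩
    · exact ⟨cf_35_8_true, cf_35_9_true⟩
  · intro sw; cases sw
    · exact ⟨cf_36_8_false, cf_36_9_false⟩
    · exact ⟨cf_36_8_true, cf_36_9_true⟩
  · intro sw; cases sw
    · exact ⟨cf_37_8_false, cf_37_9_false⟩
    · exact ⟨cf_37_8_true, cf_37_9_true⟩
  · intro sw; cases sw
    · exact ⟨cf_38_8_false, cf_38_9_false⟩
    · exact ⟨cf_38_8_true, cf_38_9_true⟩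
  · intro sw; cases sw
    · exact ⟨cf_39_8_false, cf_39_9_false⟩
    · exact ⟨cf_39_8_true, cf_39_9_true⟩
  · intro sw; cases sw
    · exact ⟨cf_40_8_false, cf_40_9_false⟩
    · exact ⟨cf_40_8_true, cf_40_9_true⟩
  · intro sw; cases sw
    · exact ⟨cf_41_8_false, cf_41_9_false⟩
    · exact ⟨cf_41_8_true, cf_41_9_true⟩
  · intro sw; cases sw
    · exact ⟨cf_42_8_false, cf_42_9_false⟩
    · exact ⟨cf_42_8_true, cf_42_9_true⟩

theorem good_of_five {G : NG} {n : ℕ} (A : Arr G n) (hn : 5 ≤ n) : A.Good :=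
  ⟨by omega, A.ip_E (by omega), fun _ _ h1 h2 h3 h4 => A.ip_Tt hn h1 h2 h3 h4⟩

/-- arrays of depth `7 ≤ n ≤ 42` can be extended -/
theorem extend_range {G : NG} {n : ℕ} (h7 : 7 ≤ n) (h42 : n ≤ 42) (A : Arr G n) :
    ∃ A' : Arr G (n + 1), ∀ a b : ℕ, a + b ≤ n → A'.V a b = A.V a b := by
  have hG := good_of_five A (by omega)
  by_cases hp : A.p = 1
  · exact A.extend hG hp
  · exact (contra_range h7 h42 A (A.good2 hG hp h7 h42)).elim

end Pool.Agent.Helper363.Nita
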