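import Pool.Agent.Helper363.Nita.FF

namespace Pool.Agent.Helper363.Nita

open Finsupp

variable {G : NG} {n : ℕ}

namespace Arr
variable (A : Arr G n)

/-- summary of the structure of level `n + 1` -/
structure Good2 (A : Arr G n) : Prop where
  good : A.Good
  p2 : A.p = 2
  e0 : ∀ k : ℤ, 1 ≤ k → k ≤ n → ip (A.u 0) (A.u k) = 0
  kap : ∀ j : ℤ, 0 ≤ j → j ≤ n → ip (G.T (A.u j)) (A.u (j + 1)) = 2
  gz : ∀ j : ℤ, 0 ≤ j → j ≤ n - 1 → ip (G.T (A.u (j + 2))) (A.u j) = 0

theorem ip_u_three (hG : A.Good) (h3 : ip (A.u 0) (A.u 3) = 0) (j : ℤ) :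
    ip (A.u j) (A.u (j + 3)) = 0 := by
  by_cases h1 : 0 ≤ j
  · by_cases h2 : j + 3 ≤ n + 1
    · rw [A.ip_u_u hG h1 (by norm_num) h2, h3]
    · rw [A.u_out (j := j + 3) (Or.inr (by omega)), ip_zero_right]
  · rw [A.u_out (j := j) (Or.inl (by omega)), ip_zero_left]

theorem kap_eq (hG : A.Good) (h3 : ip (A.u 0) (A.u 3) = 0) {j : ℤ} (h1 : 0 ≤ j) (h2 : j ≤ n - 1) :
    ip (G.T (A.u j)) (A.u (j + 1)) = A.p + ip (G.T (A.u (j + 2))) (A.u j) := by
  have hn : 2 ≤ n := by have := hG.hn; omega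
  have hR := A.R2 hn (j := j + 1) (by omega) (by omega)
  have e1 : j + 1 + 1 = j + 2 := by ring
  have e2 : j + 1 - 1 = j := by ring
  have e3 : j + 1 + 2 = j + 3 := by ring
  rw [e1, e2, e3] at hR
  have h := congrArg (fun v => ip v (A.u j)) hR
  simp only [ip_add_left] at h
  rw [A.ip_u_self hG h1 (by omega), G.adjoint', ip_comm (A.u (j + 1)) (G.T (A.u j)),
    ip_comm (A.u (j + 3)) (A.u j), A.ip_u_three hG h3 j] at h
  linarith

theorem kap_eq' (hG : A.Good) (h3 : ip (A.u 0) (A.u 3) = 0) {j : ℤ} (h1 : 0 ≤ j) (h2 : j ≤ n - 1) :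
    ip (G.T (A.u (j + 1))) (A.u (j + 2)) = A.p + ip (G.T (A.u (j + 2))) (A.u j) := by
  have hn : 2 ≤ n := by have := hG.hn; omega
  have hR := A.R2 hn (j := j) h1 (by omega)
  have h := congrArg (fun v => ip v (A.u (j + 2))) hR
  simp only [ip_add_left] at h
  have e3 : j + 2 = (j - 1) + 3 := by ring
  have h0 : ip (A.u (j - 1)) (A.u (j + 2)) = 0 := by
    rw [e3]; exact A.ip_u_three hG h3 (j - 1)
  rw [A.ip_u_self hG (j := j + 2) (by omega) (by omega), G.adjoint',
    ip_comm (A.u j) (G.T (A.u (j + 2))), h0] at h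
  linarith

theorem g_const (hG : A.Good) (h3 : ip (A.u 0) (A.u 3) = 0) {j : ℤ} (h1 : 0 ≤ j)
    (h2 : j ≤ n - 1) :
    ip (G.T (A.u (j + 2))) (A.u j) = ip (G.T (A.u (0 + 2))) (A.u 0) := by
  induction j, h1 using Int.leInduction with
  | base => rfl
  | succ k hk ih =>
    have ih' := ih (by omega)
    have ha := A.kap_eq' hG h3 hk (by omega)
    have hb := A.kap_eq hG h3 (j := k + 1) (by omega) h2
    have e1 : k + 1 + 1 = k + 2 := by ring
    rw [e1] at hb
    linarith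

/-- from a positive inner product we get a common constituent -/
theorem exists_common {x y : G.B →₀ ℤ} (hx : 0 ≤ x) (hy : 0 ≤ y) (h : 0 < ip x y) :
    ∃ b, 1 ≤ x b ∧ 1 ≤ y b := by
  by_contra hcon
  push Not at hcon
  have : ip x y = 0 := by
    unfold ip
    apply Finset.sum_eq_zero
    intro b hb
    have h1 : 0 ≤ x b := hx b
    have h2 : 0 ≤ y b := hy b
    have h3 : x b ≠ 0 := Finsupp.mem_support_iff.1 hb
    have h4 := hcon b (by omega)
    have h5 : y b = 0 := by omega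
    show x b * y b = 0
    rw [h5, mul_zero]
  omega

theorem disj_of_ip {x y : G.B →₀ ℤ} (hx : 0 ≤ x) (hy : 0 ≤ y) (h : ip x y = 0) (b : G.B)
    (hb : x b ≠ 0) : y b = 0 := by
  have h1 := mul_le_ip hx hy b
  rw [h] at h1
  have h2 : 0 ≤ x b := hx b
  have h3 : 0 ≤ y b := hy b
  have h4 : 0 < x b := lt_of_le_of_ne h2 (Ne.symm hb)
  by_contra h5
  have h6 : 0 < y b := lt_of_le_of_ne h3 (Ne.symm h5)
  have := mul_pos h4 h6
  omega

theorem g_two (hG : A.Good) (hp : A.p = 2) (hn : 7 ≤ n) (hn' : n ≤ 42)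
    (h3 : ip (A.u 0) (A.u 3) = 0) : ip (G.T (A.u 4)) (A.u 2) ≤ 0 := by
  classical
  by_contra hg
  push Not at hg
  have hn2 : 2 ≤ n := by omega
  have hnz : (7 : ℤ) ≤ n := by exact_mod_cast hn
  have pos := A.u_nonneg hG
  -- the vector `y = T u 4`
  have hy0 : 0 ≤ G.T (A.u 4) := G.T_pos (pos 4)
  have hge : A.u 5 ≤ G.T (A.u 4) := by
    have := A.T_u_ge hG h3 (j := 5) (by norm_num) (by omega)
    have e : (5 : ℤ) - 1 = 4 := by norm_num
    rw [e] at this
    exact this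
  have g4 : ip (G.T (A.u 4)) (A.u 5) = 2 + ip (G.T (A.u 4)) (A.u 2) := by
    have h := A.kap_eq hG h3 (j := 4) (by norm_num) (by omega)
    have e : (4 : ℤ) + 1 = 5 := by norm_num
    rw [e, hp] at h
    rw [h]
    have h4 := A.g_const hG h3 (j := 4) (by norm_num) (by omega)
    have h2 := A.g_const hG h3 (j := 2) (by norm_num) (by omega)
    rw [h4, ← h2]
    norm_num
  have hdiff : 0 ≤ G.T (A.u 4) - A.u 5 := by
    intro b
    have := hge b
    simp only [Finsupp.coe_zero, Pi.zero_apply, Finsupp.coe_sub, Pi.sub_apply]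
    omega
  have h55 : ip (A.u 5) (A.u 5) = 2 := by
    rw [A.ip_u_self hG (by norm_num) (by omega), hp]
  obtain ⟨e, he1, he2⟩ := exists_common hdiff (pos 5) (by
    rw [ip_sub_left, g4, h55]; omega)
  have he1' : A.u 5 e + 1 ≤ G.T (A.u 4) e := by
    simp only [Finsupp.coe_sub, Pi.sub_apply] at he1
    omega
  obtain ⟨c, hc1, hc2⟩ := exists_common hy0 (pos 2) hg
  -- the array vector `t 3`
  obtain ⟨a', b', ha', hb', hab, hE⟩ := A.E_ex (a := n - 3) (b := 3) ⟨by omega, by norm_num, by omega⟩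
  obtain ⟨V, hV⟩ : ∃ V, A.t 3 = bv V := ⟨_, hE⟩
  have hT3 : G.T (A.u 4) V = 2 := by
    have h1 : ip (G.T (A.u 4)) (A.t 3) = 2 := by
      rw [G.adjoint, A.St hn2 (j := 3) (by norm_num) (by omega), ip_add_right, ip_add_right]
      have e1 : ip (A.u 4) (A.t (3 - 1)) = 0 := A.ip_u_E hG _ _ _
      have e2 : ip (A.u 4) (A.s 3) = 0 := A.ip_u_E hG _ _ _
      have e3 : (3 : ℤ) + 1 = 4 := by norm_num
      rw [e1, e2, e3, A.ip_u_self hG (by norm_num) (by omega), hp]
      norm_num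
    rwa [hV, ip_bv_right] at h1
  have huV : ∀ j, A.u j V = 0 := by
    intro j
    have : ip (A.u j) (A.t 3) = 0 := A.ip_u_E hG _ _ _
    rwa [hV, ip_bv_right] at this
  have heV : e ≠ V := by
    rintro rfl
    rw [huV] at he2; omega
  have hcV : c ≠ V := by
    rintro rfl
    rw [huV] at hc2; omega
  have h25 : ip (A.u 2) (A.u 5) = 0 := A.ip_u_three hG h3 2
  have hc5 : A.u 5 c = 0 := disj_of_ip (pos 2) (pos 5) h25 c (by omega)
  have hec : e ≠ c := by
    rintro rfl
    rw [hc5] at he2; omega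
  have hmain : A.u 5 + (2 : ℤ) • bv V + bv e + bv c ≤ G.T (A.u 4) := by
    intro b
    simp only [Finsupp.coe_add, Pi.add_apply, Finsupp.coe_smul, Pi.smul_apply, smul_eq_mul, bv,
      Finsupp.single_apply]
    by_cases h1 : V = b
    · subst h1
      rw [if_pos rfl, if_neg heV, if_neg hcV, huV, hT3]
      norm_num
    · by_cases h2 : e = b
      · subst h2
        rw [if_neg h1, if_pos rfl, if_neg (Ne.symm hec)]
        omega
      · by_cases h4 : c = b
        · subst h4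
          rw [if_neg h1, if_neg h2, if_pos rfl, hc5]
          omega
        · rw [if_neg h1, if_neg h2, if_neg h4]
          have := hge b
          omega
  have hd := G.dg_mono hmain
  rw [G.dg_add, G.dg_add, G.dg_add, G.dg_smul, G.dg_T, ← hV, A.dg_t (by norm_num) (by omega),
    A.dg_u (by norm_num) (by omega), A.dg_u (by norm_num) (by omega), G.dg_bv, G.dg_bv] at hd
  have l1 := A.lam hG h3 (q := 5) (by norm_num) (by omega) (c := e) (by omega)
  have l2 := A.lam hG h3 (q := 2) (by norm_num) (by omega) (c := c) (by omega)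
  clear hmain hge hdiff
  interval_cases n <;> norm_num [dimZ] at hd l1 l2 <;> omega

/-- no arrows from `u (j + 2)` to `u j` -/
theorem g_zero (hG : A.Good) (hp : A.p = 2) (hn : 7 ≤ n) (hn' : n ≤ 42)
    (h3 : ip (A.u 0) (A.u 3) = 0) {j : ℤ} (h1 : 0 ≤ j) (h2 : j ≤ n - 1) :
    ip (G.T (A.u (j + 2))) (A.u j) = 0 := by
  have hnz : (7 : ℤ) ≤ n := by exact_mod_cast hn
  have pos := A.u_nonneg hG
  have h0 : 0 ≤ ip (G.T (A.u 4)) (A.u 2) := ip_nonneg (G.T_pos (pos 4)) (pos 2)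
  have h4 := A.g_two hG hp hn hn' h3
  have h5 := A.g_const hG h3 h1 h2
  have h6 := A.g_const hG h3 (j := 2) (by norm_num) (by omega)
  have e : (2 : ℤ) + 2 = 4 := by norm_num
  rw [e] at h6
  omega

theorem good2 (hG : A.Good) (hp : A.p ≠ 1) (hn : 7 ≤ n) (hn' : n ≤ 42) : A.Good2 := by
  have hp2 : 2 ≤ A.p := by have := A.one_le_p hG; omega
  have hnz : (7 : ℤ) ≤ n := by exact_mod_cast hn
  have h3 : ip (A.u 0) (A.u 3) = 0 := A.e_zero hG hp2 hn (by norm_num) (by omega)
  have hpe := A.p_le_two hG hp2 hn hn' h3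
  refine ⟨hG, hpe, fun k h1 h2 => A.e_zero hG hp2 hn h1 h2, fun j h1 h2 => ?_,
    fun j h1 h2 => A.g_zero hG hpe hn hn' h3 h1 h2⟩
  by_cases h : j ≤ n - 1
  · rw [A.kap_eq hG h3 h1 h, A.g_zero hG hpe hn hn' h3 h1 h, hpe]; norm_num
  · have hj : j = n - 1 + 1 := by omega
    have e1 : (n : ℤ) - 1 + 1 + 1 = n - 1 + 2 := by ring
    rw [hj, e1, A.kap_eq' hG h3 (by omega) (le_refl _),
      A.g_zero hG hpe hn hn' h3 (by omega) (le_refl _), hpe]
    norm_num

theorem norm_sub (x y : G.B →₀ ℤ) : ip (x - y) (x - y) = ip x x - 2 * ip x y + ip y y := by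
  rw [ip_sub_left, ip_sub_right, ip_sub_right, ip_comm y x]; ring

/-- the norm of `T (u j)` is constant in the interior -/
theorem R_const (h : A.Good2) {j : ℤ} (h1 : 1 ≤ j) (h2 : j ≤ n) :
    ip (G.T (A.u j)) (G.T (A.u j)) = ip (G.T (A.u 1)) (G.T (A.u 1)) := by
  have hG := h.good
  have hn2 : 2 ≤ n := by have := hG.hn; omega
  induction j, h1 using Int.leInduction with
  | base => rfl
  | succ k hk ih =>
    rw [← ih (by omega)]
    have hR := A.R2 hn2 (j := k) (by omega) (by omega)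
    have hR' : G.T (A.u (k + 1)) - A.u (k + 2) = G.S (A.u k) - A.u (k - 1) := by
      rw [sub_eq_sub_iff_add_eq_add, hR]
    have hN := congrArg (fun v => ip v v) hR'
    simp only [norm_sub] at hN
    have k1 := h.kap (k + 1) (by omega) (by omega)
    have e1 : k + 1 + 1 = k + 2 := by ring
    rw [e1] at k1
    have k2 := h.kap (k - 1) (by omega) (by omega)
    have e2 : k - 1 + 1 = k := by ring
    rw [e2] at k2
    rw [k1, G.adjoint' (A.u k) (A.u (k - 1)), ip_comm (A.u k) (G.T (A.u (k - 1))), k2, ← G.normal,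
      A.ip_u_self hG (by omega) (by omega), A.ip_u_self hG (by omega) (by omega)] at hN
    linarith

theorem R_end (h : A.Good2) :
    ip (G.T (A.u 0)) (G.T (A.u 0)) = ip (G.T (A.u 1)) (G.T (A.u 1)) - 2 := by
  have hG := h.good
  have hn4 := hG.hn
  have hn2 : 2 ≤ n := by omega
  have hR := A.R2 hn2 (j := 0) (by omega) (by omega)
  have hR' : G.T (A.u (0 + 1)) - A.u (0 + 2) = G.S (A.u 0) - A.u (0 - 1) := by
    rw [sub_eq_sub_iff_add_eq_add, hR]
  rw [A.u_out (j := 0 - 1) (Or.inl (by norm_num)), sub_zero] at hR'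
  have hN := congrArg (fun v => ip v v) hR'
  simp only [norm_sub] at hN
  have k1 := h.kap 1 (by norm_num) (by omega)
  norm_num at k1 hN
  rw [k1, ← G.normal, A.ip_u_self hG (by norm_num) (by omega), h.p2] at hN
  linarith

end Arr
end Pool.Agent.Helper363.Nita
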