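import Pool.Agent.Helper363.Nita.ArrB

namespace Pool.Agent.Helper363.Nita

open Finsupp

variable {G : NG} {n : ℕ}

namespace Arr
variable (A : Arr G n)

theorem dimZ_lt_left (a b : ℕ) : dimZ (a : ℤ) b < dimZ ((a : ℤ) + 1) b := by
  unfold dimZ
  have h1 : ((a : ℤ) + 1) * (b + 1) * (a + b + 2) + 2 ≤ ((a : ℤ) + 1 + 1) * (b + 1) * (a + 1 + b + 2) := by
    have ha : (0 : ℤ) ≤ a := by positivity
    have hb : (0 : ℤ) ≤ b := by positivity
    have hab : (0 : ℤ) ≤ a * b := by positivity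
    nlinarith [mul_nonneg hb hb]
  omega

theorem dimZ_comm (a b : ℤ) : dimZ a b = dimZ b a := by
  unfold dimZ
  congr 1
  ring

theorem dimZ_lt_right (a b : ℕ) : dimZ (a : ℤ) b < dimZ (a : ℤ) ((b : ℤ) + 1) := by
  rw [dimZ_comm, dimZ_comm (a : ℤ) ((b : ℤ) + 1)]
  exact dimZ_lt_left b a

theorem S_V {a b : ℕ} (h : a + b < n) : G.S (bv (A.V a b)) =
    bv (A.V a (b + 1)) + (if 1 ≤ b then bv (A.V (a + 1) (b - 1)) else 0) +
      (if 1 ≤ a then bv (A.V (a - 1) b) else 0) := by
  have h1 := congrArg G.bar' (A.T_V b a (by omega))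
  rw [G.bar_T, G.bar'_bv, A.bar_V b a (by omega)] at h1
  rw [h1, map_add, map_add, G.bar'_bv, A.bar_V (b + 1) a (by omega)]
  congr 2
  · split_ifs with hb
    · rw [G.bar'_bv, A.bar_V (b - 1) (a + 1) (by omega)]
    · exact map_zero _
  · split_ifs with ha
    · rw [G.bar'_bv, A.bar_V b (a - 1) (by omega)]
    · exact map_zero _

theorem bv_apply_pos {B : Type} (b y : B) (h : bv b y ≠ 0) : y = b := by
  classical
  by_contra hne
  apply h
  simp [bv, Finsupp.single_apply, Ne.symm hne]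

theorem bv_nonneg {B : Type} (b y : B) : 0 ≤ bv b y := by
  classical
  simp only [bv, Finsupp.single_apply]
  split_ifs <;> norm_num

theorem V_inj_aux (N : ℕ) : ∀ a b c d : ℕ, a + b + c + d ≤ N → a + b < n → c + d < n →
    A.V a b = A.V c d → a = c ∧ b = d := by
  induction N with
  | zero =>
    intro a b c d h _ _ _
    omega
  | succ N ih =>
    have main : ∀ a b c d : ℕ, a + b ≤ c + d → a + b + c + d ≤ N + 1 → a + b < n → c + d < n →
        A.V a b = A.V c d → a = c ∧ b = d := by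
      intro a b c d hle hN h1 h2 h
      have hdeg : dimZ (a : ℤ) b = dimZ (c : ℤ) d := by
        rw [← A.d_V a b h1.le, ← A.d_V c d h2.le, h]
      by_cases hb : 1 ≤ b
      · have hT : G.T (bv (A.V a b)) (A.V a (b - 1)) = G.T (bv (A.V c d)) (A.V a (b - 1)) := by
          rw [h]
        rw [A.T_V a b h1, A.T_V c d h2, if_pos hb] at hT
        simp only [Finsupp.add_apply] at hT
        have p1 := bv_nonneg (A.V (a + 1) b) (A.V a (b - 1))
        have p2 : 0 ≤ (if 1 ≤ a then bv (A.V (a - 1) (b + 1)) else 0 : G.B →₀ ℤ) (A.V a (b - 1)) := by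
          split_ifs
          · exact bv_nonneg _ _
          · exact le_refl _
        have p3 : (bv (A.V a (b - 1)) : G.B →₀ ℤ) (A.V a (b - 1)) = 1 := by simp [bv]
        have hdy : G.d (A.V a (b - 1)) < dimZ (c : ℤ) d := by
          rw [A.d_V a (b - 1) (by omega), ← hdeg]
          have := dimZ_lt_right a (b - 1)
          have e : (((b - 1 : ℕ) : ℤ) + 1) = b := by push_cast [hb]; ring
          rw [e] at this
          exact this
        by_cases q1 : (bv (A.V (c + 1) d) : G.B →₀ ℤ) (A.V a (b - 1)) = 0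
        · by_cases q2 : (if 1 ≤ c then bv (A.V (c - 1) (d + 1)) else 0 : G.B →₀ ℤ) (A.V a (b - 1)) = 0
          · by_cases q3 : (if 1 ≤ d then bv (A.V c (d - 1)) else 0 : G.B →₀ ℤ) (A.V a (b - 1)) = 0
            · rw [q1, q2, q3] at hT
              omega
            · by_cases hd : 1 ≤ d
              · rw [if_pos hd] at q3
                have e := bv_apply_pos _ _ q3
                have := ih a (b - 1) c (d - 1) (by omega) (by omega) (by omega) e
                omega
              · rw [if_neg hd] at q3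
                exact absurd rfl q3
          · by_cases hc : 1 ≤ c
            · rw [if_pos hc] at q2
              have e := bv_apply_pos _ _ q2
              have := ih a (b - 1) (c - 1) (d + 1) (by omega) (by omega) (by omega) e
              omega
            · rw [if_neg hc] at q2
              exact absurd rfl q2
        · have e := bv_apply_pos _ _ q1
          rw [e, A.d_V (c + 1) d (by omega)] at hdy
          have := dimZ_lt_left c d
          push_cast at hdy
          omega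
      · by_cases ha : 1 ≤ a
        · have hS : G.S (bv (A.V a b)) (A.V (a - 1) b) = G.S (bv (A.V c d)) (A.V (a - 1) b) := by
            rw [h]
          rw [A.S_V h1, A.S_V h2, if_pos ha] at hS
          simp only [Finsupp.add_apply] at hS
          have p1 := bv_nonneg (A.V a (b + 1)) (A.V (a - 1) b)
          have p2 : 0 ≤ (if 1 ≤ b then bv (A.V (a + 1) (b - 1)) else 0 : G.B →₀ ℤ) (A.V (a - 1) b) := by
            rw [if_neg hb]
            exact le_refl _
          have p3 : (bv (A.V (a - 1) b) : G.B →₀ ℤ) (A.V (a - 1) b) = 1 := by simp [bv]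
          have hdy : G.d (A.V (a - 1) b) < dimZ (c : ℤ) d := by
            rw [A.d_V (a - 1) b (by omega), ← hdeg]
            have := dimZ_lt_left (a - 1) b
            have e : (((a - 1 : ℕ) : ℤ) + 1) = a := by push_cast [ha]; ring
            rw [e] at this
            exact this
          by_cases q1 : (bv (A.V c (d + 1)) : G.B →₀ ℤ) (A.V (a - 1) b) = 0
          · by_cases q2 : (if 1 ≤ d then bv (A.V (c + 1) (d - 1)) else 0 : G.B →₀ ℤ) (A.V (a - 1) b) = 0
            · by_cases q3 : (if 1 ≤ c then bv (A.V (c - 1) d) else 0 : G.B →₀ ℤ) (A.V (a - 1) b) = 0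
              · rw [q1, q2, q3] at hS
                omega
              · by_cases hc : 1 ≤ c
                · rw [if_pos hc] at q3
                  have e := bv_apply_pos _ _ q3
                  have := ih (a - 1) b (c - 1) d (by omega) (by omega) (by omega) e
                  omega
                · rw [if_neg hc] at q3
                  exact absurd rfl q3
            · by_cases hd : 1 ≤ d
              · rw [if_pos hd] at q2
                have e := bv_apply_pos _ _ q2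
                have := ih (a - 1) b (c + 1) (d - 1) (by omega) (by omega) (by omega) e
                omega
              · rw [if_neg hd] at q2
                exact absurd rfl q2
          · have e := bv_apply_pos _ _ q1
            rw [e, A.d_V c (d + 1) (by omega)] at hdy
            have := dimZ_lt_right c d
            push_cast at hdy
            omega
        · have ha0 : a = 0 := by omega
          have hb0 : b = 0 := by omega
          subst ha0 hb0
          have hd1 : dimZ ((0 : ℕ) : ℤ) ((0 : ℕ) : ℤ) = 1 := by unfold dimZ; norm_num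
          rw [hd1] at hdeg
          unfold dimZ at hdeg
          have hc0 : (0 : ℤ) ≤ c := by positivity
          have hd0 : (0 : ℤ) ≤ d := by positivity
          have hcd : (0 : ℤ) ≤ c * d := by positivity
          have h5 : ((c : ℤ) + 1) * (d + 1) * (c + d + 2) < 4 := by omega
          constructor
          · by_contra hne
            have : (1 : ℤ) ≤ c := by omega
            nlinarith [mul_nonneg hcd hc0, mul_nonneg hcd hd0, mul_nonneg hc0 hc0, mul_nonneg hd0 hd0]
          · by_contra hne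
            have : (1 : ℤ) ≤ d := by omega
            nlinarith [mul_nonneg hcd hc0, mul_nonneg hcd hd0, mul_nonneg hc0 hc0, mul_nonneg hd0 hd0]
    intro a b c d hN h1 h2 h
    rcases le_total (a + b) (c + d) with hle | hle
    · exact main a b c d hle hN h1 h2 h
    · obtain ⟨e1, e2⟩ := main c d a b hle (by omega) h2 h1 h.symm
      exact ⟨e1.symm, e2.symm⟩

/-- distinctness below the top level -/
theorem V_inj_low {a b c d : ℕ} (h1 : a + b < n) (h2 : c + d < n) (h : A.V a b = A.V c d) :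
    a = c ∧ b = d :=
  A.V_inj_aux _ a b c d le_rfl h1 h2 h

/-- the relation between neighbouring vectors of level `n` -/
theorem R1 (hn : 2 ≤ n) {j : ℤ} (h1 : 0 ≤ j) (h2 : j < n) :
    G.T (A.t (j + 1)) + A.t (j - 1) = G.S (A.t j) + A.t (j + 2) := by
  have hn' : (2 : ℤ) ≤ n := by exact_mod_cast hn
  have hc := G.comm (A.s j)
  rw [A.T_s h1 h2, A.S_s h1 h2, map_add, map_add, map_add, map_add] at hc
  set X := A.E ((n : ℤ) - 2 - j) (j - 1) with hX
  have hTr : j ≤ n - 2 → G.T (A.r j) = A.s j + A.r (j + 1) + X := by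
    intro h
    unfold r s
    rw [A.T_E (by omega) h1 (by omega), hX]
    have e1 : (n : ℤ) - 2 - j + 1 = n - 1 - j := by ring
    have e2 : (n : ℤ) - 2 - j - 1 = n - 2 - (j + 1) := by ring
    rw [e1, e2]
  have hSr : 1 ≤ j → G.S (A.r (j - 1)) = A.s j + A.r (j - 2) + X := by
    intro h
    unfold r s
    rw [A.S_E (by omega) (by omega) (by omega), hX]
    have e1 : (n : ℤ) - 2 - (j - 1) = n - 1 - j := by ring
    have e2 : (n : ℤ) - 2 - (j - 1) + 1 = n - 2 - (j - 2) := by ring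
    have e3 : (n : ℤ) - 2 - (j - 1) - 1 = n - 2 - j := by ring
    have e4 : j - 1 - 1 = j - 2 := by ring
    have e5 : j - 1 + 1 = j := by ring
    rw [e2, e3, e1, e4, e5]
  have hTs : 1 ≤ j → G.T (A.s (j - 1)) = A.t (j - 1) + A.s j + A.r (j - 2) := by
    intro h
    rw [A.T_s (by omega) (by omega)]
    have e5 : j - 1 + 1 = j := by ring
    have e4 : j - 1 - 1 = j - 2 := by ring
    rw [e5, e4]
  have hSs : j ≤ n - 2 → G.S (A.s (j + 1)) = A.t (j + 2) + A.s j + A.r (j + 1) := by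
    intro h
    rw [A.S_s (by omega) (by omega)]
    have e5 : j + 1 - 1 = j := by ring
    have e4 : j + 1 + 1 = j + 2 := by ring
    rw [e5, e4]
  by_cases hj1 : 1 ≤ j
  · by_cases hj2 : j ≤ n - 2
    · rw [hTr hj2, hSr hj1, hTs hj1, hSs hj2] at hc
      have := congrArg (fun z => z - (A.s j + A.r (j + 1) + X) - (A.s j + A.r (j - 2))) hc
      calc G.T (A.t (j + 1)) + A.t (j - 1) = _ := by abel
        _ = _ := this
        _ = _ := by abel
    · rw [hSr hj1, hTs hj1, A.s_out (j := j + 1) (Or.inr (by omega)),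
        A.r_out (j := j) (Or.inr (by omega)), map_zero, map_zero] at hc
      have hX0 : X = 0 := by
        rw [hX]
        exact A.E_out (by rintro ⟨h, -, -⟩; omega)
      rw [A.t_out (j := j + 2) (Or.inr (by omega))]
      rw [hX0] at hc
      have := congrArg (fun z => z - (A.s j + A.r (j - 2))) hc
      calc G.T (A.t (j + 1)) + A.t (j - 1) = _ := by abel
        _ = _ := this
        _ = _ := by abel
  · have hj2 : j ≤ n - 2 := by omega
    rw [hTr hj2, hSs hj2, A.s_out (j := j - 1) (Or.inl (by omega)),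
      A.r_out (j := j - 1) (Or.inl (by omega)), map_zero, map_zero] at hc
    have hX0 : X = 0 := by
      rw [hX]
      exact A.E_out (by rintro ⟨-, h, -⟩; omega)
    rw [A.t_out (j := j - 1) (Or.inl (by omega))]
    rw [hX0] at hc
    have := congrArg (fun z => z - (A.s j + A.r (j + 1))) hc
    calc G.T (A.t (j + 1)) + 0 = _ := by abel
      _ = _ := this
      _ = _ := by abel


theorem ip_low833 (a b c d : ℤ) (h1 : a + b < n) (h2 : c + d < n) :
    ip (A.E a b) (A.E c d) = if 0 ≤ a ∧ 0 ≤ b ∧ a = c ∧ b = d then 1 else 0 := by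
  classical
  by_cases hab : 0 ≤ a ∧ 0 ≤ b
  · by_cases hcd : 0 ≤ c ∧ 0 ≤ d
    · obtain ⟨ha, hb⟩ := hab
      obtain ⟨hc, hd⟩ := hcd
      lift a to ℕ using ha
      lift b to ℕ using hb
      lift c to ℕ using hc
      lift d to ℕ using hd
      have h1' : a + b < n := by exact_mod_cast h1
      have h2' : c + d < n := by exact_mod_cast h2
      rw [A.E_nat a b h1'.le, A.E_nat c d h2'.le, ip_bv_bv]
      by_cases h : A.V a b = A.V c d
      · obtain ⟨e1, e2⟩ := A.V_inj_low h1' h2' h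
        rw [if_pos h, if_pos ⟨by positivity, by positivity, by rw [e1], by rw [e2]⟩]
      · rw [if_neg h, if_neg]
        rintro ⟨-, -, e1, e2⟩
        apply h
        have e1' : a = c := by exact_mod_cast e1
        have e2' : b = d := by exact_mod_cast e2
        rw [e1', e2']
    · rw [A.E_out (a := c) (b := d) (by rintro ⟨h3, h4, -⟩; exact hcd ⟨h3, h4⟩), ip_zero_right,
        if_neg]
      rintro ⟨h3, h4, e1, e2⟩
      exact hcd ⟨e1 ▸ h3, e2 ▸ h4⟩
  · rw [A.E_out (a := a) (b := b) (by rintro ⟨h3, h4, -⟩; exact hab ⟨h3, h4⟩), ip_zero_left,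
      if_neg]
    rintro ⟨h3, h4, -, -⟩
    exact hab ⟨h3, h4⟩

theorem ip_dim833 {a b c d : ℤ} (h1 : 0 ≤ a ∧ 0 ≤ b ∧ a + b ≤ n) (h2 : 0 ≤ c ∧ 0 ≤ d ∧ c + d ≤ n)
    (hne : dimZ a b ≠ dimZ c d) : ip (A.E a b) (A.E c d) = 0 := by
  classical
  obtain ⟨a', b', ea, eb, hab, e1⟩ := A.E_ex h1
  obtain ⟨c', d', ec, ed, hcd, e2⟩ := A.E_ex h2
  rw [e1, e2, ip_bv_bv, if_neg]
  intro h
  apply hne
  rw [← ea, ← eb, ← ec, ← ed, ← A.d_V a' b' hab, ← A.d_V c' d' hcd, h]

theorem ip_t_low833 {j a b : ℤ} (hj : 0 ≤ j) (hj2 : j < n) (ha : 0 ≤ a) (hb : 0 ≤ b)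
    (hab : a + b + 1 < n) : ip (A.t j) (A.E a b) = 0 := by
  have h := A.T_s hj hj2
  have h2 : ip (A.t j) (A.E a b) = ip (G.T (A.s j)) (A.E a b) - ip (A.s (j + 1)) (A.E a b)
      - ip (A.r (j - 1)) (A.E a b) := by
    rw [h, ip_add_left, ip_add_left]; ring
  rw [h2, G.adjoint, A.S_E ha hb (by omega), ip_add_right, ip_add_right]
  unfold s r
  rw [A.ip_low833 (n - 1 - j) j a (b + 1) (by omega) (by omega),
    A.ip_low833 (n - 1 - j) j (a + 1) (b - 1) (by omega) (by omega),
    A.ip_low833 (n - 1 - j) j (a - 1) b (by omega) (by omega),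
    A.ip_low833 (n - 1 - (j + 1)) (j + 1) a b (by omega) (by omega),
    A.ip_low833 (n - 2 - (j - 1)) (j - 1) a b (by omega) (by omega)]
  split_ifs <;> omega

theorem X_swap833 {i j : ℤ} (hi : 0 ≤ i) (hi2 : i < n) (hj : 0 ≤ j) (hj2 : j < n) :
    ip (A.t j) (A.s i) = ip (A.t (i + 1)) (A.s j) := by
  have h := A.T_s hj hj2
  have h2 : ip (A.t j) (A.s i) = ip (G.T (A.s j)) (A.s i) - ip (A.s (j + 1)) (A.s i)
      - ip (A.r (j - 1)) (A.s i) := by
    rw [h, ip_add_left, ip_add_left]; ring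
  rw [h2, G.adjoint, A.S_s hi hi2, ip_add_right, ip_add_right, ip_comm (A.s j) (A.t (i + 1))]
  unfold s r
  rw [A.ip_low833 (n - 1 - j) j (n - 1 - (i - 1)) (i - 1) (by omega) (by omega),
    A.ip_low833 (n - 1 - j) j (n - 2 - i) i (by omega) (by omega),
    A.ip_low833 (n - 1 - (j + 1)) (j + 1) (n - 1 - i) i (by omega) (by omega),
    A.ip_low833 (n - 2 - (j - 1)) (j - 1) (n - 1 - i) i (by omega) (by omega)]
  split_ifs <;> omega

theorem dim_t_s833 {N k : ℤ} (hk : 0 ≤ k) (hkN : k ≤ N) :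
    dimZ (N - k) k ≠ dimZ (N - 1 - 0) 0 := by
  unfold dimZ
  have e1 : (N - k + 1) * (k + 1) * (N - k + k + 2) = (N + 1) * (N + 2) + k * (N - k) * (N + 2) := by
    ring
  have e2 : (N - 1 - 0 + 1) * (0 + 1) * (N - 1 - 0 + 0 + 2) = N * (N + 1) := by ring
  rw [e1, e2]
  have h1 : 0 ≤ k * (N - k) * (N + 2) := by
    have : 0 ≤ N - k := by linarith
    exact mul_nonneg (mul_nonneg hk this) (by linarith)
  have h2 : (N + 1) * (N + 2) = N * (N + 1) + 2 * (N + 1) := by ring
  have h3 : 0 ≤ N := by linarith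
  rw [h2]
  generalize k * (N - k) * (N + 2) = x at h1 ⊢
  generalize N * (N + 1) = y
  omega

theorem X_nonneg833 (i : ℕ) : ∀ j : ℤ, (i : ℤ) ≤ j → j ≤ n → (i : ℤ) < n →
    ip (A.t j) (A.s i) = 0 := by
  induction i with
  | zero =>
    intro j hj1 hj2 hn
    unfold t s
    refine A.ip_dim833 ⟨by omega, by omega, by omega⟩
      ⟨by omega, by omega, by omega⟩ ?_
    push_cast at hj1 ⊢
    exact dim_t_s833 hj1 hj2
  | succ i ih =>
    intro j hj1 hj2 hn
    push_cast at hj1 hn ⊢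
    have h1 := ih (j - 1) (by omega) (by omega) (by omega)
    have h2 := A.X_swap833 (i := (i : ℤ)) (j := j - 1) (by omega) (by omega) (by omega) (by omega)
    have h3 := A.X_swap833 (i := j - 1) (j := (i : ℤ) + 1) (by omega) (by omega) (by omega)
      (by omega)
    rw [sub_add_cancel] at h3
    rw [← h3, ← h2, h1]

theorem ip_t_s833 {i j : ℤ} (hi : 0 ≤ i) (hi2 : i < n) (hj : 0 ≤ j) (hj2 : j ≤ n) :
    ip (A.t j) (A.s i) = 0 := by
  by_cases hij : i ≤ j
  · lift i to ℕ using hi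
    exact A.X_nonneg833 i j hij hj2 hi2
  · push Not at hij
    rw [A.X_swap833 hi hi2 hj (by omega)]
    lift j to ℕ using hj
    exact A.X_nonneg833 j (i + 1) (by omega) (by omega) (by omega)

/-- level `n` against lower levels -/
theorem ip_t_E (hn : 4 ≤ n) {i a b : ℤ} (h1 : 0 ≤ i) (h2 : i ≤ n)
    (h : 0 ≤ a ∧ 0 ≤ b ∧ a + b < n) : ip (A.t i) (A.E a b) = 0 := by
  obtain ⟨ha, hb, hab⟩ := h
  by_cases hlev : a + b + 1 < n
  · by_cases hin : i < n
    · exact A.ip_t_low833 h1 hin ha hb hlev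
    · have hi : i = n := by omega
      rw [← G.ip_bar_bar, A.bar_t, A.bar_E, hi, sub_self]
      exact A.ip_t_low833 le_rfl (by omega) hb ha (by omega)
  · have e : A.E a b = A.s b := by
      unfold s
      congr 1
      omega
    rw [e]
    exact A.ip_t_s833 hb (by omega) h1 h2

theorem ip_t_E'833 (hn : 4 ≤ n) {i : ℤ} (a b : ℤ) (h1 : 0 ≤ i) (h2 : i ≤ n)
    (h : a + b < n) : ip (A.t i) (A.E a b) = 0 := by
  by_cases hab : 0 ≤ a ∧ 0 ≤ b
  · exact A.ip_t_E hn h1 h2 ⟨hab.1, hab.2, h⟩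
  · rw [A.E_out (by rintro ⟨h3, h4, -⟩; exact hab ⟨h3, h4⟩), ip_zero_right]

theorem ip_t_s'833 (hn : 4 ≤ n) {i : ℤ} (j : ℤ) (h1 : 0 ≤ i) (h2 : i ≤ n) :
    ip (A.t i) (A.s j) = 0 := A.ip_t_E'833 hn _ _ h1 h2 (by omega)

theorem ip_t_r'833 (hn : 4 ≤ n) {i : ℤ} (j : ℤ) (h1 : 0 ≤ i) (h2 : i ≤ n) :
    ip (A.t i) (A.r j) = 0 := A.ip_t_E'833 hn _ _ h1 h2 (by omega)

theorem ip_t_self833 {i : ℤ} (h1 : 0 ≤ i) (h2 : i ≤ n) : ip (A.t i) (A.t i) = 1 := by
  obtain ⟨a', b', -, -, -, e⟩ := A.E_ex (a := n - i) (b := i) ⟨by omega, h1, by omega⟩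
  unfold t
  rw [e]
  exact ip_bv_self _

theorem P_slide833 (hn : 4 ≤ n) {i j : ℤ} (hi : 0 ≤ i) (hi2 : i < n) (hj : 0 ≤ j) (hj2 : j < n)
    (hij : i ≠ j) : ip (A.t i) (A.t j) = ip (A.t (i + 1)) (A.t (j + 1)) := by
  have h := G.normal (A.s i) (A.s j)
  rw [A.T_s hi hi2, A.T_s hj hj2, A.S_s hi hi2, A.S_s hj hj2] at h
  simp only [ip_add_left, ip_add_right] at h
  rw [A.ip_t_s'833 hn _ hi hi2.le, A.ip_t_r'833 hn _ hi hi2.le,
    ip_comm (A.s (i + 1)) (A.t j), A.ip_t_s'833 hn _ hj hj2.le,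
    ip_comm (A.r (i - 1)) (A.t j), A.ip_t_r'833 hn _ hj hj2.le,
    A.ip_t_s'833 hn (j - 1) (i := i + 1) (by omega) (by omega),
    A.ip_t_r'833 hn j (i := i + 1) (by omega) (by omega),
    ip_comm (A.s (i - 1)) (A.t (j + 1)),
    A.ip_t_s'833 hn (i - 1) (i := j + 1) (by omega) (by omega),
    ip_comm (A.r i) (A.t (j + 1)),
    A.ip_t_r'833 hn i (i := j + 1) (by omega) (by omega)] at h
  unfold s r at h
  rw [A.ip_low833 _ _ _ _ (by omega) (by omega), A.ip_low833 _ _ _ _ (by omega) (by omega),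
    A.ip_low833 _ _ _ _ (by omega) (by omega), A.ip_low833 _ _ _ _ (by omega) (by omega),
    A.ip_low833 _ _ _ _ (by omega) (by omega), A.ip_low833 _ _ _ _ (by omega) (by omega),
    A.ip_low833 _ _ _ _ (by omega) (by omega), A.ip_low833 _ _ _ _ (by omega) (by omega)] at h
  split_ifs at h <;> omega

theorem dim_t_t833 {N k : ℤ} (hk : 1 ≤ k) (hkN : k < N) :
    dimZ (N - 0) 0 ≠ dimZ (N - k) k := by
  unfold dimZ
  have e1 : (N - k + 1) * (k + 1) * (N - k + k + 2) = (N + 1) * (N + 2) + k * (N - k) * (N + 2) := by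
    ring
  have e2 : (N - 0 + 1) * (0 + 1) * (N - 0 + 0 + 2) = (N + 1) * (N + 2) := by ring
  rw [e1, e2]
  have h1 : 2 ≤ k * (N - k) * (N + 2) := by
    have h3 : 1 ≤ k * (N - k) := by
      have : 1 ≤ N - k := by linarith
      nlinarith
    nlinarith
  generalize k * (N - k) * (N + 2) = x at h1 ⊢
  generalize (N + 1) * (N + 2) = y
  omega

theorem P_zero833 (hn : 4 ≤ n) (i : ℕ) : ∀ j : ℤ, (i : ℤ) < j → j ≤ n → ¬ ((i : ℤ) = 0 ∧ j = n) →
    ip (A.t i) (A.t j) = 0 := by
  induction i with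
  | zero =>
    intro j hj1 hj2 hne
    have hne' : j ≠ n := fun h => hne ⟨by norm_num, h⟩
    push_cast at hj1 ⊢
    unfold t
    refine A.ip_dim833 ⟨by omega, le_rfl, by omega⟩ ⟨by omega, by omega, by omega⟩ ?_
    refine dim_t_t833 (by omega) ?_
    omega
  | succ i ih =>
    intro j hj1 hj2 hne
    push_cast at hj1 ⊢
    have h1 := ih (j - 1) (by omega) (by omega) (by omega)
    have h2 := A.P_slide833 hn (i := (i : ℤ)) (j := j - 1) (by omega) (by omega) (by omega)
      (by omega) (by omega)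
    rw [sub_add_cancel] at h2
    rw [← h2, h1]

set_option maxHeartbeats 1600000 in
theorem ends833 (hn : 4 ≤ n) : ip (A.t 0) (A.t n) = 0 := by
  classical
  obtain ⟨a', b', ea, eb, hab, e1⟩ := A.E_ex (a := n - 0) (b := 0) ⟨by omega, le_rfl, by omega⟩
  obtain ⟨c', d', ec, ed, hcd, e2⟩ := A.E_ex (a := n - n) (b := n) ⟨by omega, by omega, by omega⟩
  by_contra hcon
  have ht : A.t 0 = A.t n := by
    unfold t
    rw [e1, e2]
    unfold t at hcon
    rw [e1, e2, ip_bv_bv] at hcon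
    by_cases h : A.V a' b' = A.V c' d'
    · rw [h]
    · rw [if_neg h] at hcon
      exact absurd rfl hcon
  -- grades
  have hgr : (n : ZMod 3) - 2 * ((0 : ℤ) : ZMod 3) = (n : ZMod 3) - 2 * ((n : ℤ) : ZMod 3) := by
    by_contra hne
    exact hcon (G.ip_grade (A.Gr_t 0) (A.Gr_t n) hne)
  have h3 : ((2 * n : ℕ) : ZMod 3) = 0 := by
    push_cast at hgr ⊢
    linear_combination hgr
  have h3' : 3 ∣ 2 * n := (ZMod.natCast_eq_zero_iff _ _).mp h3
  have hn6 : 6 ≤ n := by omega
  have hn6' : (6 : ℤ) ≤ n := by exact_mod_cast hn6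
  -- T w contains s (n-1)
  have c1 : ip (G.T (A.t n)) (A.s (n - 1)) = 1 := by
    rw [G.adjoint, A.S_s (by omega) (by omega), ip_add_right, ip_add_right, sub_add_cancel,
      A.ip_t_self833 (by omega) le_rfl, A.ip_t_s'833 hn _ (by omega) le_rfl,
      A.ip_t_r'833 hn _ (by omega) le_rfl]
    norm_num
  -- T w contains t 1
  have c2 : 1 ≤ ip (G.T (A.t 0)) (A.t 1) := by
    have hR := A.R1 (by omega) (j := 1) (by norm_num) (by omega)
    rw [G.adjoint]
    have e : ip (A.t 0) (G.S (A.t 1)) = ip (A.t 0) (G.T (A.t (1 + 1))) + ip (A.t 0) (A.t (1 - 1))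
        - ip (A.t 0) (A.t (1 + 2)) := by
      have := congrArg (ip (A.t 0)) hR
      rw [ip_add_right, ip_add_right] at this
      linarith
    have e3 : ip (A.t 0) (A.t (1 + 2)) = 0 := by
      have := A.P_zero833 hn 0 (1 + 2) (by norm_num) (by omega) (by omega)
      exact_mod_cast this
    have e4 : ip (A.t 0) (A.t (1 - 1)) = 1 := by
      rw [sub_self]
      exact A.ip_t_self833 le_rfl (by omega)
    have e5 : 0 ≤ ip (A.t 0) (G.T (A.t (1 + 1))) :=
      ip_nonneg (A.t_nonneg _) (G.T_pos (A.t_nonneg _))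
    rw [e, e3, e4]
    linarith
  obtain ⟨p', q', ep, eq', hpq, ev1⟩ := A.E_ex (a := n - 1) (b := 1) ⟨by omega, by omega, by omega⟩
  obtain ⟨p2, q2, ep2, eq2, hpq2, ev2⟩ := A.E_ex (a := n - 1 - (n - 1)) (b := n - 1)
    ⟨by omega, by omega, by omega⟩
  have et1 : A.t 1 = bv (A.V p' q') := by unfold t; exact ev1
  have es1 : A.s (n - 1) = bv (A.V p2 q2) := by unfold s; exact ev2
  have hV : A.V p' q' ≠ A.V p2 q2 := by
    intro h
    have h5 := A.ip_t_s'833 hn (n - 1) (i := 1) (by norm_num) (by omega)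
    rw [et1, es1, h, ip_bv_self] at h5
    exact one_ne_zero h5
  have hy0 : 0 ≤ G.T (A.t n) - A.t 1 - A.s (n - 1) := by
    intro b
    rw [et1, es1]
    have hT := G.T_pos (A.t_nonneg n) b
    rw [et1, ← ht.symm, ip_bv_right] at c2
    rw [es1, ip_bv_right] at c1
    simp only [Finsupp.coe_zero, Pi.zero_apply, Finsupp.coe_sub, Pi.sub_apply,
      Finsupp.single_apply] at hT ⊢
    by_cases hb1 : A.V p' q' = b
    · by_cases hb2 : A.V p2 q2 = b
      · exact absurd (hb1.trans hb2.symm) hV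
      · rw [if_pos hb1, if_neg hb2, ← hb1]
        linarith
    · by_cases hb2 : A.V p2 q2 = b
      · rw [if_neg hb1, if_pos hb2, ← hb2]
        linarith
      · rw [if_neg hb1, if_neg hb2]
        linarith
  have d0 : 2 * dimZ (n - n) n = (n + 1) * (n + 2) := by
    have e : ((n : ℤ) - n + 1) * (n + 1) * (n - n + n + 2) = (n + 1) * (n + 2) := by ring
    unfold dimZ
    rw [e]
    have : 2 ∣ ((n : ℤ) + 1) * (n + 2) := by
      have := Int.even_mul_succ_self ((n : ℤ) + 1)
      have h : ((n : ℤ) + 1) * (n + 2) = ((n : ℤ) + 1) * (n + 1 + 1) := by ring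
      rw [h]
      exact this.two_dvd
    omega
  have d1 : dimZ (n - 1) 1 = n * (n + 2) := by
    have e : ((n : ℤ) - 1 + 1) * (1 + 1) * (n - 1 + 1 + 2) = 2 * (n * (n + 2)) := by ring
    unfold dimZ
    rw [e]
    omega
  have d2 : 2 * dimZ (n - 1 - (n - 1)) (n - 1) = n * (n + 1) := by
    have e : ((n : ℤ) - 1 - (n - 1) + 1) * (n - 1 + 1) * (n - 1 - (n - 1) + (n - 1) + 2)
        = n * (n + 1) := by ring
    unfold dimZ
    rw [e]
    have := (Int.even_mul_succ_self (n : ℤ)).two_dvd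
    omega
  have d3 : dimZ (n - (n - 1)) (n - 1) = n * (n + 2) := by
    have e : ((n : ℤ) - (n - 1) + 1) * (n - 1 + 1) * (n - (n - 1) + (n - 1) + 2)
        = 2 * (n * (n + 2)) := by ring
    unfold dimZ
    rw [e]
    omega
  have hdg : G.dg (G.T (A.t n) - A.t 1 - A.s (n - 1)) = 2 * n + 3 := by
    rw [G.dg_sub, G.dg_sub, G.dg_T, A.dg_t (by omega) le_rfl, A.dg_t (by norm_num) (by omega),
      A.dg_s (by omega) (by omega), d1]
    have : (n : ℤ) * (n + 2) = n * (n + 1) + n := by ring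
    have h7 : ((n : ℤ) + 1) * (n + 2) = n * (n + 1) + 2 * (n + 1) := by ring
    omega
  have hyne : G.T (A.t n) - A.t 1 - A.s (n - 1) ≠ 0 := by
    intro h
    rw [h, G.dg_zero] at hdg
    omega
  obtain ⟨b, hb⟩ := Finsupp.ne_iff.1 hyne
  have hb1 : 1 ≤ (G.T (A.t n) - A.t 1 - A.s (n - 1)) b := by
    have := hy0 b
    simp only [Finsupp.coe_zero, Pi.zero_apply] at this hb ⊢
    omega
  have hdb : G.d b ≤ 2 * n + 3 := by
    have h5 := G.mul_d_le_dg hy0 b
    rw [hdg] at h5
    have h6 := G.d_pos b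
    nlinarith
  have hTb : 1 ≤ (G.T (A.t n)) b := by
    have t1 := A.t_nonneg 1 b
    have s1 := A.s_nonneg (n - 1) b
    simp only [Finsupp.coe_zero, Pi.zero_apply, Finsupp.coe_sub, Pi.sub_apply] at hb1 t1 s1
    omega
  have hR := A.R1 (by omega) (j := (n : ℤ) - 1) (by omega) (by omega)
  rw [sub_add_cancel, A.t_out (j := (n : ℤ) - 1 + 2) (Or.inr (by omega)), add_zero] at hR
  have hSb : 1 ≤ (G.S (A.t (n - 1))) b := by
    rw [← hR]
    have := A.t_nonneg ((n : ℤ) - 1 - 1) b
    simp only [Finsupp.coe_zero, Pi.zero_apply, Finsupp.coe_add, Pi.add_apply] at this ⊢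
    omega
  rw [G.S_apply] at hSb
  obtain ⟨p3, q3, ep3, eq3, hpq3, ev3⟩ := A.E_ex (a := n - (n - 1)) (b := n - 1)
    ⟨by omega, by omega, by omega⟩
  have et3 : A.t (n - 1) = bv (A.V p3 q3) := by unfold t; exact ev3
  rw [et3, ip_bv_left] at hSb
  have h8 := G.mul_d_le_dg (x := G.T (bv b)) (fun y => G.T_nonneg b y) (A.V p3 q3)
  rw [G.dg_T, G.dg_bv, A.d_V p3 q3 hpq3, ep3, eq3, d3] at h8
  have h9 : (n : ℤ) * (n + 2) ≤ (G.T (bv b)) (A.V p3 q3) * (n * (n + 2)) := by
    have : (0 : ℤ) ≤ n * (n + 2) := by positivity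
    nlinarith
  have h10 : (n : ℤ) * (n + 2) ≤ 3 * (2 * n + 3) := by linarith
  nlinarith

/-- level `n` is injective -/
theorem ip_t_t (hn : 4 ≤ n) {i j : ℤ} (h1 : 0 ≤ i) (h2 : i ≤ n) (h3 : 0 ≤ j) (h4 : j ≤ n) :
    ip (A.t i) (A.t j) = if i = j then 1 else 0 := by
  by_cases hij : i = j
  · rw [if_pos hij, hij]
    exact A.ip_t_self833 h3 h4
  rw [if_neg hij]
  rcases lt_or_gt_of_ne hij with h | h
  · by_cases he : i = 0 ∧ j = n
    · rw [he.1, he.2]; exact A.ends833 hn
    · lift i to ℕ using h1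
      exact A.P_zero833 hn i j h h4 he
  · rw [ip_comm]
    by_cases he : j = 0 ∧ i = n
    · rw [he.1, he.2]; exact A.ends833 hn
    · lift j to ℕ using h3
      exact A.P_zero833 hn j i h h2 he

theorem ip_E (hn : 4 ≤ n) (a b c d : ℤ) (h1 : 0 ≤ a ∧ 0 ≤ b ∧ a + b ≤ n)
    (h2 : 0 ≤ c ∧ 0 ≤ d ∧ c + d ≤ n) :
    ip (A.E a b) (A.E c d) = if a = c ∧ b = d then 1 else 0 := by
  obtain ⟨ha, hb, hab⟩ := h1
  obtain ⟨hc, hd, hcd⟩ := h2
  by_cases l1 : a + b < n
  · by_cases l2 : c + d < n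
    · rw [A.ip_low833 a b c d l1 l2]
      by_cases h : a = c ∧ b = d
      · rw [if_pos h, if_pos ⟨ha, hb, h.1, h.2⟩]
      · rw [if_neg h, if_neg (fun h' => h h'.2.2)]
    · have e : A.E c d = A.t d := by unfold t; congr 1; omega
      rw [e, ip_comm, A.ip_t_E hn hd (by omega) ⟨ha, hb, l1⟩, if_neg]
      rintro ⟨h3, h4⟩
      omega
  · have e : A.E a b = A.t b := by unfold t; congr 1; omega
    rw [e]
    by_cases l2 : c + d < n
    · rw [A.ip_t_E hn hb (by omega) ⟨hc, hd, l2⟩, if_neg]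
      rintro ⟨h3, h4⟩
      omega
    · have e' : A.E c d = A.t d := by unfold t; congr 1; omega
      rw [e', A.ip_t_t hn hb (by omega) hd (by omega)]
      by_cases h : b = d
      · rw [if_pos h, if_pos ⟨by omega, h⟩]
      · rw [if_neg h, if_neg (fun h' => h h'.2)]


theorem two_dimZ (a b : ℤ) : 2 * dimZ a b = (a + 1) * (b + 1) * (a + b + 2) := by
  have h : ((a + 1) * (b + 1) * (a + b + 2)) % 2 = 0 := by
    rcases Int.emod_two_eq_zero_or_one a with ha | ha <;>
    rcases Int.emod_two_eq_zero_or_one b with hb | hb <;>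
    simp [Int.mul_emod, Int.add_emod, ha, hb]
  unfold dimZ
  omega

theorem ip_tt' (hn : 4 ≤ n) (a : ℤ) {i : ℤ} (h1 : 0 ≤ i) (h2 : i ≤ n) :
    ip (A.t a) (A.t i) = if a = i then 1 else 0 := by
  by_cases h : 0 ≤ a ∧ a ≤ n
  · exact A.ip_t_t hn h.1 h.2 h1 h2
  · rw [A.t_out (by omega), ip_zero_left, if_neg]
    rintro rfl
    exact h ⟨h1, h2⟩

/-- deviation from the expected value -/
noncomputable def Md (i j : ℤ) : ℤ := ip (G.T (A.t i)) (A.t j) - if j = i + 1 then 1 else 0

theorem Md_flip (hn : 4 ≤ n) {i j : ℤ} (h1 : 0 ≤ i) (h2 : i ≤ n) (h3 : 0 ≤ j) (h4 : j < n) :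
    A.Md (j + 1) i = A.Md i j := by
  have h := congrArg (fun x => ip x (A.t i)) (A.R1 (by omega) h3 h4)
  simp only [ip_add_left] at h
  rw [G.adjoint', ip_comm (A.t j), A.ip_tt' hn (j - 1) h1 h2, A.ip_tt' hn (j + 2) h1 h2] at h
  unfold Md
  have e1 : (if i = j + 1 + 1 then (1 : ℤ) else 0) = if j + 2 = i then 1 else 0 := by
    by_cases h5 : j + 2 = i
    · rw [if_pos h5, if_pos (by omega)]
    · rw [if_neg h5, if_neg (by omega)]
  have e2 : (if j = i + 1 then (1 : ℤ) else 0) = if j - 1 = i then 1 else 0 := by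
    by_cases h5 : j - 1 = i
    · rw [if_pos h5, if_pos (by omega)]
    · rw [if_neg h5, if_neg (by omega)]
  rw [e1, e2]
  linarith

theorem Md_toep (hn : 4 ≤ n) {i j : ℤ} (h1 : 0 ≤ i) (h2 : i < n) (h3 : 0 ≤ j) (h4 : j < n) :
    A.Md (i + 1) (j + 1) = A.Md i j := by
  rw [A.Md_flip hn (i := j + 1) (j := i) (by omega) (by omega) h1 h2,
    A.Md_flip hn (i := i) (j := j) (by omega) (by omega) h3 h4]

theorem ip_T_nonneg (i j : ℤ) : 0 ≤ ip (G.T (A.t i)) (A.t j) :=
  ip_nonneg (G.T_pos (A.t_nonneg i)) (A.t_nonneg j)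

theorem ip_T_grade {i j : ℤ} (h : ((j - i : ℤ) : ZMod 3) ≠ 1) :
    ip (G.T (A.t i)) (A.t j) = 0 := by
  refine G.ip_grade (G.Gr_T (A.Gr_t i)) (A.Gr_t j) ?_
  intro h1
  apply h
  have h3 : (3 : ZMod 3) = 0 := by decide
  push_cast
  linear_combination (2 : ZMod 3) * h1 - ((j : ZMod 3) - i + 1) * h3

theorem dg_two {x : G.B →₀ ℤ} (hx : 0 ≤ x) {b c : G.B} (hbc : b ≠ c) :
    x b * G.d b + x c * G.d c ≤ G.dg x := by
  have h : (x b) • bv b + (x c) • bv c ≤ x := by
    intro a
    by_cases h1 : b = a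
    · subst h1
      simp [bv, Finsupp.single_apply, Ne.symm hbc]
    · by_cases h2 : c = a
      · subst h2
        simp [bv, Finsupp.single_apply, hbc]
      · simpa [bv, Finsupp.single_apply, h1, h2] using hx a
  have := G.dg_mono h
  rwa [NG.dg_add, NG.dg_smul, NG.dg_smul, NG.dg_bv, NG.dg_bv] at this

theorem bv_ne {B : Type} {b a : B} (h : b ≠ a) : (bv b : B →₀ ℤ) a = 0 := by
  classical
  rw [bv, Finsupp.single_apply, if_neg h]

theorem bv_same {B : Type} (b : B) : (bv b : B →₀ ℤ) b = 1 := by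
  rw [bv, Finsupp.single_eq_same]

theorem bv_nonneg' {B : Type} (b a : B) : 0 ≤ (bv b : B →₀ ℤ) a := by
  by_cases h : b = a
  · rw [h, bv_same]; norm_num
  · rw [bv_ne h]

/-- first row -/
theorem Md_zero (hn : 5 ≤ n) {j : ℤ} (h3 : 0 ≤ j) (h4 : j ≤ n) : A.Md 0 j = 0 := by
  have hn' : (5 : ℤ) ≤ n := by exact_mod_cast hn
  have hb : ∀ k : ℤ, 0 ≤ k → k ≤ n → ∃ b, A.t k = bv b ∧ G.d b = dimZ (n - k) k := by
    intro k h1 h2
    obtain ⟨a', b', -, -, -, h5⟩ := A.E_ex (a := n - k) (b := k) ⟨by omega, h1, by omega⟩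
    refine ⟨_, h5, ?_⟩
    rw [← A.dg_t h1 h2, ← G.dg_bv]
    exact congrArg G.dg h5.symm
  obtain ⟨b0, hb0, hd0⟩ := hb 0 le_rfl (by omega)
  obtain ⟨b1, hb1, hd1⟩ := hb 1 (by omega) (by omega)
  set x := G.T (A.t 0) with hxdef
  have hx : 0 ≤ x := G.T_pos (A.t_nonneg 0)
  have hdx : G.dg x = 3 * dimZ n 0 := by
    rw [hxdef, G.dg_T, A.dg_t le_rfl (by omega), sub_zero]
  have h2d0 := two_dimZ n 0
  have h2d1 : 2 * G.d b1 = (n : ℤ) * 2 * (n + 2) := by
    rw [hd1, two_dimZ]; ring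
  have hM1 : A.Md 0 1 = x b1 - 1 := by
    unfold Md
    rw [if_pos (by norm_num), hb1, ip_bv_right]
  have hge : 0 ≤ A.Md 0 1 := by
    have h5 := A.Md_flip (by omega) (i := 0) (j := 1) le_rfl (by omega) (by omega) (by omega)
    rw [← h5]
    unfold Md
    rw [if_neg (by norm_num)]
    have := A.ip_T_nonneg (1 + 1) 0
    linarith
  have hx1 : x b1 = 1 := by
    have h5 := G.mul_d_le_dg hx b1
    by_contra hne
    have h6 : 2 ≤ x b1 := by omega
    rw [hdx] at h5
    have h7 : 0 < G.d b1 := G.d_pos b1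
    nlinarith
  have h01 : A.Md 0 1 = 0 := by rw [hM1, hx1]; norm_num
  rcases (by omega : j = 0 ∨ j = 1 ∨ 2 ≤ j) with rfl | rfl | hj
  · unfold Md
    rw [A.ip_T_grade (by simp), if_neg (by norm_num)]
    norm_num
  · exact h01
  obtain ⟨bj, hbj, hdj⟩ := hb j h3 h4
  have hMj : A.Md 0 j = x bj := by
    unfold Md
    rw [if_neg (by omega), hbj, ip_bv_right, sub_zero]
  have hne : b1 ≠ bj := by
    intro h
    have h5 := A.ip_t_t (by omega) (i := 1) (j := j) (by omega) (by omega) h3 h4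
    rw [hb1, hbj, ← h, ip_bv_self, if_neg (by omega)] at h5
    exact one_ne_zero h5
  rw [hMj]
  by_contra hcon
  have hxj : 1 ≤ x bj := by
    have := hx bj
    simp only [Finsupp.coe_zero, Pi.zero_apply] at this
    omega
  have h2dj : 2 * G.d bj = (n - j + 1) * (j + 1) * (n + 2) := by
    rw [hdj, two_dimZ]; ring
  rcases (by omega : j ≤ n - 1 ∨ j = n) with hjn | hjn
  · have h5 := dg_two (G := G) hx hne
    rw [hx1, hdx] at h5
    have h7 : 0 < G.d bj := G.d_pos bj
    have h8 : G.d bj ≤ x bj * G.d bj := by nlinarith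
    have h9 : 0 ≤ (j - 2) * (n - 1 - j) := mul_nonneg (by omega) (by omega)
    have h10 : 2 * (n : ℤ) * (n + 2) + (n - j + 1) * (j + 1) * (n + 2) ≤ 3 * ((n + 1) * (n + 2)) := by
      have h11 : 2 * (G.d b1) + 2 * G.d bj ≤ 3 * (2 * dimZ n 0) := by linarith
      rw [h2d1, h2dj, h2d0] at h11
      linarith
    have h12 : 2 * (n : ℤ) + (n - j + 1) * (j + 1) ≤ 3 * (n + 1) := by
      by_contra h13
      push Not at h13
      have : (0 : ℤ) < n + 2 := by omega
      nlinarith
    nlinarith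
  · by_cases hn5 : n = 5
    · have h5 : ip (G.T (A.t 0)) (A.t j) = 0 := by
        apply A.ip_T_grade
        rw [hjn, hn5]
        decide
      rw [hbj, ip_bv_right] at h5
      exact hcon h5
    · have hn6 : (6 : ℤ) ≤ n := by omega
      have hy : 0 ≤ x - bv b1 - bv bj := by
        intro a
        simp only [Finsupp.coe_zero, Pi.zero_apply, Finsupp.coe_sub, Pi.sub_apply]
        by_cases h5 : b1 = a
        · rw [← h5, hx1, bv_same, bv_ne (Ne.symm hne)]
          norm_num
        · by_cases h6 : bj = a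
          · rw [← h6, bv_same, bv_ne hne]
            linarith
          · have := hx a
            simp only [Finsupp.coe_zero, Pi.zero_apply] at this
            rw [bv_ne h5, bv_ne h6]
            linarith
      have hdy : 2 * G.dg (x - bv b1 - bv bj) = 2 * (n + 2) := by
        rw [NG.dg_sub, NG.dg_sub, NG.dg_bv, NG.dg_bv, hdx, mul_sub, mul_sub, h2d1, h2dj, hjn]
        linear_combination 3 * h2d0
      have hyne : x - bv b1 - bv bj ≠ 0 := by
        intro h
        rw [h] at hdy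
        have : G.dg 0 = 0 := G.dg_zero
        rw [this] at hdy
        omega
      obtain ⟨b, hbne⟩ := Finsupp.ne_iff.1 hyne
      have hyb : 1 ≤ (x - bv b1 - bv bj) b := by
        have := hy b
        simp only [Finsupp.coe_zero, Pi.zero_apply] at this hbne
        omega
      have hdb : G.d b ≤ n + 2 := by
        have h5 := G.mul_d_le_dg hy b
        have h6 := G.d_pos b
        nlinarith
      have hxb : 1 ≤ x b := by
        have h5 : (x - bv b1 - bv bj) b ≤ x b := by
          simp only [Finsupp.coe_sub, Pi.sub_apply]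
          have h6 := bv_nonneg' b1 b
          have h7 := bv_nonneg' bj b
          linarith
        linarith
      have hS : G.S (bv b) b0 = x b := by
        rw [← G.adj, ← hb0]
      have hSpos : 0 ≤ G.S (bv b) := fun y => G.S_nonneg b y
      have h5 := G.mul_d_le_dg hSpos b0
      rw [G.dg_S, G.dg_bv, hS, hd0] at h5
      have h6 : 0 < dimZ (n - 0) 0 := by rw [← hd0]; exact G.d_pos b0
      have h7 : dimZ (n - 0) 0 ≤ x b * dimZ (n - 0) 0 := by nlinarith
      rw [sub_zero] at h5 h7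
      have h8 : 2 * dimZ n 0 ≤ 6 * (n + 2) := by linarith
      rw [h2d0] at h8
      nlinarith

theorem ip_Tt (hn : 5 ≤ n) {i j : ℤ} (h1 : 0 ≤ i) (h2 : i ≤ n) (h3 : 0 ≤ j) (h4 : j ≤ n) :
    ip (G.T (A.t i)) (A.t j) = if j = i + 1 then 1 else 0 := by
  have key : ∀ k : ℕ, ∀ j : ℤ, (k : ℤ) ≤ j → j ≤ n → A.Md k j = 0 := by
    intro k
    induction k with
    | zero =>
      intro j hj hjn
      exact A.Md_zero hn (by simpa using hj) hjn
    | succ k ih =>
      intro j hj hjn
      have h5 := A.Md_toep (by omega) (i := k) (j := j - 1) (by omega) (by push_cast at hj; omega)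
        (by push_cast at hj; omega) (by omega)
      rw [sub_add_cancel] at h5
      push_cast
      rw [h5]
      exact ih (j - 1) (by push_cast at hj; omega) (by omega)
  have key2 : ∀ i j : ℤ, 0 ≤ i → i ≤ j → j ≤ n → A.Md i j = 0 := by
    intro i j hi hij hjn
    lift i to ℕ using hi
    exact key i j hij hjn
  have h5 : A.Md i j = 0 := by
    rcases le_or_gt i j with h | h
    · exact key2 i j h1 h h4
    · rw [← A.Md_flip (by omega) h1 h2 h3 (by omega)]
      exact key2 (j + 1) i (by omega) (by omega) h2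
  unfold Md at h5
  linarith

end Arr
end Pool.Agent.Helper363.Nita
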