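import Pool.Agent.Helper363.Nita.Base

namespace Pool.Agent.Helper363.Nita

open Finsupp

section ip
variable {B : Type}

theorem ip_add_left (x y z : B →₀ ℤ) : ip (x + y) z = ip x z + ip y z := by
  classical
  unfold ip
  rw [Finsupp.sum_add_index']
  · intro; simp
  · intro a b c; ring

theorem ip_smul_left (k : ℤ) (x z : B →₀ ℤ) : ip (k • x) z = k * ip x z := by
  classical
  unfold ip
  rw [Finsupp.sum_smul_index (by intro; simp), Finsupp.mul_sum]
  exact Finsupp.sum_congr fun b _ => by simp [mul_assoc]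

theorem ip_zero_left (z : B →₀ ℤ) : ip 0 z = 0 := by simp [ip]

theorem ip_bv_left (b : B) (z : B →₀ ℤ) : ip (bv b) z = z b := by
  simp [ip, bv]

theorem ip_neg_left (x z : B →₀ ℤ) : ip (-x) z = - ip x z := by
  have := ip_smul_left (-1) x z
  simpa using this

theorem ip_sub_left (x y z : B →₀ ℤ) : ip (x - y) z = ip x z - ip y z := by
  rw [sub_eq_add_neg, ip_add_left, ip_neg_left]; ring

theorem ip_add_right (x y z : B →₀ ℤ) : ip x (y + z) = ip x y + ip x z := by
  unfold ip
  simp [Finsupp.sum, mul_add, Finset.sum_add_distrib]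

theorem ip_zero_right (x : B →₀ ℤ) : ip x 0 = 0 := by simp [ip]

theorem ip_smul_right (k : ℤ) (x z : B →₀ ℤ) : ip x (k • z) = k * ip x z := by
  unfold ip
  simp only [Finsupp.sum, Finsupp.smul_apply, smul_eq_mul, Finset.mul_sum]
  exact Finset.sum_congr rfl fun b _ => by ring

theorem ip_neg_right (x z : B →₀ ℤ) : ip x (-z) = - ip x z := by
  have := ip_smul_right (-1) x z
  simpa using this

theorem ip_sub_right (x y z : B →₀ ℤ) : ip x (y - z) = ip x y - ip x z := by
  rw [sub_eq_add_neg, ip_add_right, ip_neg_right]; ring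

theorem ip_comm (x y : B →₀ ℤ) : ip x y = ip y x := by
  induction x using Finsupp.induction_linear with
  | zero => simp [ip_zero_left, ip_zero_right]
  | add f g hf hg => rw [ip_add_left, ip_add_right, hf, hg]
  | single a c =>
    have h1 : (Finsupp.single a c : B →₀ ℤ) = c • bv a := by simp [bv]
    rw [h1, ip_smul_left, ip_smul_right, ip_bv_left]
    congr 1
    induction y using Finsupp.induction_linear with
    | zero => simp [ip_zero_left]
    | add f g hf hg => rw [ip_add_left, ← hf, ← hg]; rfl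
    | single b e =>
      have h2 : (Finsupp.single b e : B →₀ ℤ) = e • bv b := by simp [bv]
      rw [h2, ip_smul_left, ip_bv_left]
      classical
      simp [bv, Finsupp.single_apply, eq_comm]

theorem ip_bv_right (b : B) (z : B →₀ ℤ) : ip z (bv b) = z b := by
  rw [ip_comm, ip_bv_left]

theorem ip_bv_bv [DecidableEq B] (a b : B) : ip (bv a) (bv b) = if a = b then 1 else 0 := by
  rw [ip_bv_left]; simp [bv, Finsupp.single_apply, eq_comm]

theorem ip_bv_self (a : B) : ip (bv a) (bv a) = 1 := by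
  classical
  simp [ip_bv_bv]

theorem ip_nonneg {x y : B →₀ ℤ} (hx : 0 ≤ x) (hy : 0 ≤ y) : 0 ≤ ip x y := by
  unfold ip
  exact Finset.sum_nonneg fun b _ => mul_nonneg (hx b) (hy b)

theorem ip_mono_left {x x' y : B →₀ ℤ} (hx : x ≤ x') (hy : 0 ≤ y) : ip x y ≤ ip x' y := by
  have := ip_nonneg (x := x' - x) (y := y) (by intro b; simpa using hx b) hy
  rw [ip_sub_left] at this; linarith

theorem ip_mono_right {x y y' : B →₀ ℤ} (hy : y ≤ y') (hx : 0 ≤ x) : ip x y ≤ ip x y' := by
  rw [ip_comm x y, ip_comm x y']; exact ip_mono_left hy hx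

/-- one term of a nonnegative inner product -/
theorem mul_le_ip {x y : B →₀ ℤ} (hx : 0 ≤ x) (hy : 0 ≤ y) (b : B) : x b * y b ≤ ip x y := by
  have h : (x b) • bv b ≤ x := by
    intro a
    by_cases h : a = b
    · subst h; simp [bv]
    · simpa [bv, Finsupp.single_apply, Ne.symm h] using hx a
  have := ip_mono_left h hy
  rwa [ip_smul_left, ip_bv_left] at this

theorem ip_self_nonneg (x : B →₀ ℤ) : 0 ≤ ip x x := by
  unfold ip
  exact Finset.sum_nonneg fun b _ => mul_self_nonneg _

theorem ip_self_eq_zero {x : B →₀ ℤ} (h : ip x x = 0) : x = 0 := by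
  ext b
  by_contra hb
  unfold ip at h
  have h2 := (Finset.sum_eq_zero_iff_of_nonneg (fun b _ => mul_self_nonneg (x b))).1 h b
    (Finsupp.mem_support_iff.2 hb)
  exact hb (mul_self_eq_zero.1 h2)

/-- a vector is determined by its inner products -/
theorem ext_ip {x y : B →₀ ℤ} (h : ∀ b, ip x (bv b) = ip y (bv b)) : x = y := by
  ext b; simpa [ip_bv_right] using h b

end ip

namespace NG
variable (G : NG)

theorem S_nonneg (b y : G.B) : 0 ≤ G.S (bv b) y := by
  rw [← G.adj]; exact G.T_nonneg _ _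

theorem T_single (b : G.B) (c : ℤ) : G.T (Finsupp.single b c) = c • G.T (bv b) := by
  rw [← map_smul]; simp [bv]

theorem S_single (b : G.B) (c : ℤ) : G.S (Finsupp.single b c) = c • G.S (bv b) := by
  rw [← map_smul]; simp [bv]

theorem adjoint (x y : G.B →₀ ℤ) : ip (G.T x) y = ip x (G.S y) := by
  induction x using Finsupp.induction_linear with
  | zero => simp [ip_zero_left]
  | add f g hf hg => rw [map_add, ip_add_left, ip_add_left, hf, hg]
  | single a c =>
    rw [G.T_single, show (Finsupp.single a c : G.B →₀ ℤ) = c • bv a by simp [bv],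
      ip_smul_left, ip_smul_left, ip_bv_left]
    congr 1
    induction y using Finsupp.induction_linear with
    | zero => simp [ip_zero_right]
    | add f g hf hg => rw [ip_add_right, hf, hg, map_add]; rfl
    | single b e =>
      rw [G.S_single, show (Finsupp.single b e : G.B →₀ ℤ) = e • bv b by simp [bv],
        ip_smul_right, ip_bv_right, Finsupp.smul_apply, smul_eq_mul, G.adj]

theorem adjoint' (x y : G.B →₀ ℤ) : ip (G.S x) y = ip x (G.T y) := by
  rw [ip_comm, ← G.adjoint, ip_comm]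

/-- normality -/
theorem normal (x y : G.B →₀ ℤ) : ip (G.T x) (G.T y) = ip (G.S x) (G.S y) := by
  rw [G.adjoint, ← G.comm, ← G.adjoint']

theorem T_apply (x : G.B →₀ ℤ) (y : G.B) : G.T x y = ip x (G.S (bv y)) := by
  rw [← G.adjoint, ip_bv_right]

theorem S_apply (x : G.B →₀ ℤ) (y : G.B) : G.S x y = ip x (G.T (bv y)) := by
  rw [← G.adjoint', ip_bv_right]

theorem T_pos {x : G.B →₀ ℤ} (hx : 0 ≤ x) : 0 ≤ G.T x := by
  intro y
  rw [G.T_apply]
  exact ip_nonneg hx fun b => G.S_nonneg _ _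

theorem S_pos {x : G.B →₀ ℤ} (hx : 0 ≤ x) : 0 ≤ G.S x := by
  intro y
  rw [G.S_apply]
  exact ip_nonneg hx fun b => G.T_nonneg _ _

theorem T_mono {x y : G.B →₀ ℤ} (h : x ≤ y) : G.T x ≤ G.T y := by
  have := G.T_pos (x := y - x) (by intro b; simpa using h b)
  intro b; have h2 := this b; rw [map_sub] at h2; simpa using h2

theorem S_mono {x y : G.B →₀ ℤ} (h : x ≤ y) : G.S x ≤ G.S y := by
  have := G.S_pos (x := y - x) (by intro b; simpa using h b)
  intro b; have h2 := this b; rw [map_sub] at h2; simpa using h2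

/-- triangle inequality -/
theorem tri' {x : G.B →₀ ℤ} (hx : 0 ≤ x) : G.S x ≤ G.T (G.T x) := by
  intro y
  have h1 : G.T (G.T x) y = ip x (G.S (G.S (bv y))) := by
    rw [G.T_apply, G.adjoint]
  rw [G.S_apply, h1]
  refine ip_mono_right ?_ hx
  intro b
  have h2 := G.tri b y
  have h3 : G.T (G.T (bv b)) y = G.S (G.S (bv y)) b := by
    rw [G.T_apply, G.adjoint, ip_bv_left]
  have h4 : G.S (bv b) y = G.T (bv y) b := by rw [G.adj]
  rw [h3, h4] at h2
  exact h2

/-- the bar map on vectors -/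
noncomputable def bar' : (G.B →₀ ℤ) →ₗ[ℤ] (G.B →₀ ℤ) := Finsupp.lmapDomain ℤ ℤ G.bar

theorem bar_inj : Function.Injective G.bar := by
  intro a b h; rw [← G.bar_bar a, h, G.bar_bar]

theorem bar'_bv (b : G.B) : G.bar' (bv b) = bv (G.bar b) := by
  simp [bar', bv]

theorem bar'_apply (x : G.B →₀ ℤ) (b : G.B) : G.bar' x b = x (G.bar b) := by
  have h := Finsupp.mapDomain_apply G.bar_inj x (G.bar b)
  rw [G.bar_bar] at h
  exact h

theorem bar'_bar' (x : G.B →₀ ℤ) : G.bar' (G.bar' x) = x := by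
  ext b; rw [bar'_apply, bar'_apply, G.bar_bar]

theorem bar'_pos {x : G.B →₀ ℤ} (hx : 0 ≤ x) : 0 ≤ G.bar' x := by
  intro b; rw [bar'_apply]; exact hx _

theorem bar'_mono {x y : G.B →₀ ℤ} (h : x ≤ y) : G.bar' x ≤ G.bar' y := by
  intro b; rw [bar'_apply, bar'_apply]; exact h _

theorem ip_bar (x y : G.B →₀ ℤ) : ip (G.bar' x) y = ip x (G.bar' y) := by
  induction x using Finsupp.induction_linear with
  | zero => simp [ip_zero_left]
  | add f g hf hg => rw [map_add, ip_add_left, ip_add_left, hf, hg]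
  | single a c =>
    rw [show (Finsupp.single a c : G.B →₀ ℤ) = c • bv a by simp [bv], map_smul, G.bar'_bv,
      ip_smul_left, ip_smul_left, ip_bv_left, ip_bv_left, G.bar'_apply]

theorem ip_bar_bar (x y : G.B →₀ ℤ) : ip (G.bar' x) (G.bar' y) = ip x y := by
  rw [G.ip_bar, G.bar'_bar']

theorem bar_T (x : G.B →₀ ℤ) : G.bar' (G.T x) = G.S (G.bar' x) := by
  induction x using Finsupp.induction_linear with
  | zero => simp
  | add f g hf hg => simp only [map_add, hf, hg]
  | single a c =>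
    rw [show (Finsupp.single a c : G.B →₀ ℤ) = c • bv a by simp [bv]]
    simp only [map_smul, G.bar'_bv]
    congr 1
    ext y
    rw [G.bar'_apply]
    have h := G.T_bar (G.bar a) y
    rw [G.bar_bar] at h
    have h2 := G.T_bar (G.bar a) y
    rw [G.bar_bar] at h2
    exact h2

theorem bar_S (x : G.B →₀ ℤ) : G.bar' (G.S x) = G.T (G.bar' x) := by
  have h := G.bar_T (G.bar' x)
  rw [G.bar'_bar'] at h
  rw [← h, G.bar'_bar']

/-! degrees -/

theorem dg_add (x y : G.B →₀ ℤ) : G.dg (x + y) = G.dg x + G.dg y := by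
  classical
  unfold dg
  rw [Finsupp.sum_add_index']
  · intro; simp
  · intro a b c; ring

theorem dg_smul (k : ℤ) (x : G.B →₀ ℤ) : G.dg (k • x) = k * G.dg x := by
  classical
  unfold dg
  rw [Finsupp.sum_smul_index (by intro; simp), Finsupp.mul_sum]
  exact Finsupp.sum_congr fun b _ => by simp [mul_assoc]

theorem dg_zero : G.dg 0 = 0 := by simp [dg]

theorem dg_bv (b : G.B) : G.dg (bv b) = G.d b := by simp [dg, bv]

theorem dg_neg (x : G.B →₀ ℤ) : G.dg (-x) = - G.dg x := by
  have := G.dg_smul (-1) x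
  simpa using this

theorem dg_sub (x y : G.B →₀ ℤ) : G.dg (x - y) = G.dg x - G.dg y := by
  rw [sub_eq_add_neg, dg_add, dg_neg]; ring

theorem dg_nonneg {x : G.B →₀ ℤ} (hx : 0 ≤ x) : 0 ≤ G.dg x :=
  Finset.sum_nonneg fun b _ => mul_nonneg (hx b) (G.d_pos b).le

theorem dg_mono {x y : G.B →₀ ℤ} (h : x ≤ y) : G.dg x ≤ G.dg y := by
  have := G.dg_nonneg (x := y - x) (by intro b; simpa using h b)
  rw [dg_sub] at this; linarith

/-- a nonnegative vector has degree at least that of one of its constituents -/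
theorem mul_d_le_dg {x : G.B →₀ ℤ} (hx : 0 ≤ x) (b : G.B) : x b * G.d b ≤ G.dg x := by
  have h : (x b) • bv b ≤ x := by
    intro a
    by_cases h : a = b
    · subst h; simp [bv]
    · simpa [bv, Finsupp.single_apply, Ne.symm h] using hx a
  have := G.dg_mono h
  rwa [dg_smul, dg_bv] at this

theorem dg_eq_zero {x : G.B →₀ ℤ} (hx : 0 ≤ x) (h : G.dg x = 0) : x = 0 := by
  ext b
  have h1 := G.mul_d_le_dg hx b
  have h2 := G.d_pos b
  have h3 := hx b
  rw [h] at h1
  simp only [Finsupp.coe_zero, Pi.zero_apply] at h3 ⊢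
  nlinarith

theorem dg_T (x : G.B →₀ ℤ) : G.dg (G.T x) = 3 * G.dg x := by
  induction x using Finsupp.induction_linear with
  | zero => simp [dg_zero]
  | add f g hf hg => rw [map_add, dg_add, dg_add, hf, hg]; ring
  | single a c =>
    rw [show (Finsupp.single a c : G.B →₀ ℤ) = c • bv a by simp [bv], map_smul,
      dg_smul, dg_smul, dg_bv]
    have := G.d_T a
    unfold dg
    rw [this]; ring

theorem dg_bar (x : G.B →₀ ℤ) : G.dg (G.bar' x) = G.dg x := by
  induction x using Finsupp.induction_linear with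
  | zero => simp
  | add f g hf hg => rw [map_add, dg_add, dg_add, hf, hg]
  | single a c =>
    rw [show (Finsupp.single a c : G.B →₀ ℤ) = c • bv a by simp [bv], map_smul, G.bar'_bv,
      dg_smul, dg_smul, dg_bv, dg_bv, G.d_bar]

theorem dg_S (x : G.B →₀ ℤ) : G.dg (G.S x) = 3 * G.dg x := by
  rw [← G.dg_bar, G.bar_S, G.dg_T, G.dg_bar]

/-! grades -/

/-- all constituents have grade `g` -/
def Gr (x : G.B →₀ ℤ) (g : ZMod 3) : Prop := ∀ b, x b ≠ 0 → G.gr b = g

theorem Gr_bv (b : G.B) : G.Gr (bv b) (G.gr b) := by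
  intro a h
  by_cases h' : b = a
  · rw [h']
  · exact absurd (by simp [bv, Finsupp.single_apply, h']) h

theorem Gr_zero (g : ZMod 3) : G.Gr 0 g := by intro b h; simp at h

theorem Gr_add {x y : G.B →₀ ℤ} {g : ZMod 3} (hx : G.Gr x g) (hy : G.Gr y g) :
    G.Gr (x + y) g := by
  intro b h
  by_cases h1 : x b = 0
  · apply hy b
    intro h2; apply h; simp [h1, h2]
  · exact hx b h1

theorem Gr_neg {x : G.B →₀ ℤ} {g : ZMod 3} (hx : G.Gr x g) : G.Gr (-x) g := by
  intro b h; apply hx b; intro h2; apply h; simp [h2]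

theorem Gr_sub {x y : G.B →₀ ℤ} {g : ZMod 3} (hx : G.Gr x g) (hy : G.Gr y g) :
    G.Gr (x - y) g := by
  rw [sub_eq_add_neg]; exact G.Gr_add hx (G.Gr_neg hy)

theorem ip_grade {x y : G.B →₀ ℤ} {g h : ZMod 3} (hx : G.Gr x g) (hy : G.Gr y h)
    (hgh : g ≠ h) : ip x y = 0 := by
  unfold ip
  apply Finset.sum_eq_zero
  intro b hb
  have h1 := hx b (Finsupp.mem_support_iff.1 hb)
  by_cases h2 : y b = 0
  · simp [h2]
  · exact absurd (h1.symm.trans (hy b h2)) hgh

theorem Gr_T {x : G.B →₀ ℤ} {g : ZMod 3} (hx : G.Gr x g) : G.Gr (G.T x) (g + 1) := by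
  intro b h
  by_contra hne
  apply h
  rw [G.T_apply]
  unfold ip
  apply Finset.sum_eq_zero
  intro c hc
  have h1 := hx c (Finsupp.mem_support_iff.1 hc)
  by_cases h2 : G.S (bv b) c = 0
  · simp [h2]
  · rw [← G.adj] at h2
    exact absurd (by rw [G.gr_T _ _ h2, h1]) hne

theorem Gr_bar {x : G.B →₀ ℤ} {g : ZMod 3} (hx : G.Gr x g) : G.Gr (G.bar' x) (-g) := by
  intro b h
  rw [G.bar'_apply] at h
  have := hx _ h
  rw [G.gr_bar] at this
  rw [← this, neg_neg]

theorem Gr_S {x : G.B →₀ ℤ} {g : ZMod 3} (hx : G.Gr x g) : G.Gr (G.S x) (g - 1) := by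
  have h := G.Gr_bar (G.Gr_T (G.Gr_bar hx))
  rw [G.bar_T, G.bar'_bar'] at h
  convert h using 1
  ring

/-- a nonnegative vector of norm one is a basis vector -/
theorem norm_one {x : G.B →₀ ℤ} (hx : 0 ≤ x) (h : ip x x = 1) : ∃ b, x = bv b := by
  have hne : x ≠ 0 := by rintro rfl; simp [ip_zero_left] at h
  obtain ⟨b, hb⟩ := Finsupp.ne_iff.1 hne
  refine ⟨b, ?_⟩
  have hb1 : 1 ≤ x b := by
    have := hx b
    simp only [Finsupp.coe_zero, Pi.zero_apply] at this hb ⊢
    omega
  have h1 : 0 ≤ x - bv b := by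
    intro a
    by_cases ha : b = a
    · subst ha; simp [bv]; linarith
    · simpa [bv, Finsupp.single_apply, ha] using hx a
  have h2 : ip (x - bv b) (x - bv b) = 1 - 2 * x b + 1 := by
    rw [ip_sub_left, ip_sub_right, ip_sub_right, h, ip_bv_right, ip_bv_left, ip_bv_self]
    ring
  have h3 := ip_self_nonneg (x - bv b)
  have h4 : ip (x - bv b) (x - bv b) = 0 := by linarith
  exact sub_eq_zero.1 (ip_self_eq_zero h4)

/-- a nonnegative vector of norm two is a sum of two distinct basis vectors -/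
theorem norm_two {x : G.B →₀ ℤ} (hx : 0 ≤ x) (h : ip x x = 2) :
    ∃ b c, b ≠ c ∧ x = bv b + bv c := by
  classical
  have hne : x ≠ 0 := by rintro rfl; simp [ip_zero_left] at h
  obtain ⟨b, hb⟩ := Finsupp.ne_iff.1 hne
  have hb1 : 1 ≤ x b := by
    have := hx b
    simp only [Finsupp.coe_zero, Pi.zero_apply] at this hb ⊢
    omega
  have h0 := mul_le_ip hx hx b
  rw [h] at h0
  have hb2 : x b = 1 := by nlinarith
  have h1 : 0 ≤ x - bv b := by
    intro a
    by_cases ha : b = a
    · subst ha; simp [bv, hb2]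
    · simpa [bv, Finsupp.single_apply, ha] using hx a
  have h2 : ip (x - bv b) (x - bv b) = 1 := by
    rw [ip_sub_left, ip_sub_right, ip_sub_right, h, ip_bv_right, ip_bv_left, ip_bv_self, hb2]
    ring
  obtain ⟨c, hc⟩ := G.norm_one h1 h2
  refine ⟨b, c, ?_, ?_⟩
  · rintro rfl
    have := congrArg (fun f => f b) hc
    simp [bv, hb2] at this
  · rw [← hc]; abel

end NG
end Pool.Agent.Helper363.Nita
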