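import Pool.Agent.Helper363.Nita.UU

namespace Pool.Agent.Helper363.Nita

open Finsupp

variable {G : NG} {n : ℕ}

namespace Arr
variable (A : Arr G n)

/-- the common norm of the vectors of level `n + 1` -/
noncomputable def p (A : Arr G n) : ℤ := ip (A.u 0) (A.u 0)

theorem ip_u_self (hG : A.Good) {j : ℤ} (h1 : 0 ≤ j) (h2 : j ≤ n + 1) :
    ip (A.u j) (A.u j) = A.p := by
  lift j to ℕ using h1
  induction j with
  | zero => rfl
  | succ j ih =>
    have h3 := A.ip_u_shift hG (i := j) (j := j) (by positivity) (by push_cast at h2; omega)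
      (by positivity) (by push_cast at h2; omega)
    have h4 := ih (by push_cast at h2; omega)
    push_cast
    rw [← h3, h4]

/-- all inner products of level `n + 1` reduce to those with `u 0` -/
theorem ip_u_u (hG : A.Good) {i k : ℤ} (h1 : 0 ≤ i) (h2 : 0 ≤ k) (h3 : i + k ≤ n + 1) :
    ip (A.u i) (A.u (i + k)) = ip (A.u 0) (A.u k) := by
  lift i to ℕ using h1
  induction i with
  | zero => simp
  | succ i ih =>
    have h4 := A.ip_u_shift hG (i := i) (j := i + k) (by positivity) (by push_cast at h3; omega)
      (by positivity) (by push_cast at h3; omega)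
    have h5 := ih (by push_cast at h3; omega)
    push_cast
    rw [show (i : ℤ) + 1 + k = i + k + 1 by ring, ← h4, h5]

theorem dimZ_pos_7484 {a b : ℤ} (ha : 0 ≤ a) (hb : 0 ≤ b) : 0 < dimZ a b := by
  unfold dimZ
  apply Int.ediv_pos_of_pos_of_dvd _ (by norm_num)
  · have h1 : (a + 1) * (b + 1) * (a + b + 2) = (a + 1) * (b + 1) * ((a + 1) + (b + 1)) := by ring
    rw [h1]
    rcases Int.even_or_odd (a + 1) with h | h
    · exact ((h.mul_right _).mul_right _).two_dvd
    · rcases Int.even_or_odd (b + 1) with h' | h'
      · exact ((h'.mul_left _).mul_right _).two_dvd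
      · exact ((h.add_odd h').mul_left _).two_dvd
  · positivity

theorem one_le_p (hG : A.Good) : 1 ≤ A.p := by
  have h0 := ip_self_nonneg (A.u 0)
  have h1 : A.p ≠ 0 := by
    intro h
    have h2 := ip_self_eq_zero h
    have h3 := A.dg_u (j := 0) le_rfl (by positivity)
    rw [h2, G.dg_zero] at h3
    have h4 := dimZ_pos_7484 (a := (n : ℤ) + 1 - 0) (b := 0) (by omega) le_rfl
    omega
  have h5 : A.p = ip (A.u 0) (A.u 0) := rfl
  omega

/-- if the norm is one, the array can be extended -/
theorem extend (hG : A.Good) (hp : A.p = 1) :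
    ∃ A' : Arr G (n + 1), ∀ a b : ℕ, a + b ≤ n → A'.V a b = A.V a b := by
  have hn : 2 ≤ n := by have := hG.hn; omega
  have hw : ∀ j : ℕ, ∃ b, j ≤ n + 1 → A.u j = bv b := by
    intro j
    by_cases hj : j ≤ n + 1
    · have h1 : ip (A.u j) (A.u j) = 1 := by
        rw [A.ip_u_self hG (by positivity) (by exact_mod_cast hj), hp]
      obtain ⟨b, hb⟩ := G.norm_one (A.u_nonneg hG j) h1
      exact ⟨b, fun _ => hb⟩
    · exact ⟨A.V 0 0, fun h => absurd h hj⟩
  choose w hw using hw
  have bvi : ∀ x y : G.B, bv x = bv y → x = y := fun x y h =>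
    Finsupp.single_left_injective (one_ne_zero) h
  let V' : ℕ → ℕ → G.B := fun a b => if a + b ≤ n then A.V a b else w b
  have hV1 : ∀ a b, a + b ≤ n → V' a b = A.V a b := fun a b h => if_pos h
  have hV2 : ∀ a b, a + b = n + 1 → V' a b = w b := fun a b h => if_neg (by omega)
  refine ⟨{ V := V', bar_V := ?_, d_V := ?_, gr_V := ?_, T_V := ?_ }, hV1⟩
  · intro a b hab
    rcases Nat.lt_or_ge n (a + b) with h | h
    · have h' : a + b = n + 1 := by omega
      rw [hV2 a b h', hV2 b a (by omega)]
      apply bvi
      rw [← G.bar'_bv, ← hw b (by omega), ← hw a (by omega), A.bar_u hn]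
      congr 1
      omega
    · rw [hV1 a b h, hV1 b a (by omega), A.bar_V a b h]
  · intro a b hab
    rcases Nat.lt_or_ge n (a + b) with h | h
    · have h' : a + b = n + 1 := by omega
      rw [hV2 a b h', ← G.dg_bv, ← hw b (by omega), A.dg_u (by positivity) (by omega)]
      congr 1
      omega
    · rw [hV1 a b h, A.d_V a b h]
  · intro a b hab
    rcases Nat.lt_or_ge n (a + b) with h | h
    · have h' : a + b = n + 1 := by omega
      rw [hV2 a b h']
      have h1 := A.Gr_u b
      rw [hw b (by omega)] at h1
      have h2 := h1 (w b) (by simp [bv])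
      rw [h2]
      have h3 : ((a + b : ℕ) : ZMod 3) = ((n + 1 : ℕ) : ZMod 3) := by rw [h']
      push_cast at h3 ⊢
      rw [← h3]
      ring
    · rw [hV1 a b h, A.gr_V a b h]
  · intro a b hab
    rcases Nat.lt_or_ge (a + b) n with h | h
    · rw [hV1 a b (by omega), A.T_V a b h, hV1 (a + 1) b (by omega), hV1 a (b - 1) (by omega)]
      congr 2
      split_ifs with ha
      · rw [hV1 (a - 1) (b + 1) (by omega)]
      · rfl
    · have h' : a + b = n := by omega
      have hab' : ((n : ℤ) - b) = a := by omega
      have ht : A.t b = bv (A.V a b) := by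
        unfold Arr.t
        rw [hab', A.E_nat a b (by omega)]
      have h1 := A.Tt (j := b) (by positivity) (by omega)
      rw [ht, hw b (by omega)] at h1
      rw [hV1 a b (by omega), hV2 (a + 1) b (by omega), h1]
      have e2 : A.t ((b : ℤ) + 1) = if 1 ≤ a then bv (V' (a - 1) (b + 1)) else 0 := by
        unfold Arr.t
        split_ifs with ha
        · rw [hV1 (a - 1) (b + 1) (by omega), ← A.E_nat (a - 1) (b + 1) (by omega)]
          congr 1
          push_cast [ha]
          omega
        · exact A.E_out (by rintro ⟨h, -⟩; omega)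
      have e3 : A.s ((b : ℤ) - 1) = if 1 ≤ b then bv (V' a (b - 1)) else 0 := by
        unfold Arr.s
        split_ifs with hb
        · rw [hV1 a (b - 1) (by omega), ← A.E_nat a (b - 1) (by omega)]
          congr 1
          · omega
          · push_cast [hb]
            ring
        · exact A.E_out (by rintro ⟨-, h, -⟩; omega)
      rw [e2, e3]
      abel

end Arr
end Pool.Agent.Helper363.Nita
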