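import Pool.Agent.Helper363.Nita.SndB

namespace Pool.Agent.Helper363.Nita

section rules
variable {G : NG} {w : World G} {C : Ctx} {S : List Row} {φ : ℕ → G.B}

theorem lt_of_blt' {a b : ℕ} (h : Nat.blt a b = true) : a < b :=
  Nat.le_of_ble_eq_true h

theorem one_le_cnt {z : ℕ} {l : List ℕ} (h : z ∈ l) : 1 ≤ cnt z l := by
  induction l with
  | nil => simp at h
  | cons y l ih =>
    unfold cnt
    by_cases hzy : z = y
    · subst hzy
      simp
    · have hz : z ∈ l := by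
        rcases List.mem_cons.mp h with h1 | h1
        · exact absurd h1 hzy
        · exact h1
      have := ih hz
      cases hb : Nat.beq z y
      · simpa using this
      · simp

theorem RowSat.setDec {G : NG} {w : World G} {K : ℕ} {φ : ℕ → G.B} {i : ℕ} {r : Row}
    (hr : RowSat w K φ i r) {l : List ℕ} (hl : ∀ j ∈ l, j < K)
    (hd : ∀ j ∈ l, G.T (bv (φ i)) (φ j) = (cnt j r.out : ℤ)) :
    RowSat w K φ i { r with dec := setBits r.dec l } := by
  refine ⟨hr.cjlt, hr.bar, hr.grlt, hr.gr, hr.lo, hr.hi, hr.off, hr.outlt, hr.low,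
    setBits_lt hr.declt hl, ?_, hr.done⟩
  intro j hj hjt
  rcases (tb_setBits _ _ _).mp hjt with h1 | h1
  · exact hr.dec j hj h1
  · exact hd j h1

/-- the key estimate for rule `Z` -/
theorem z_aux (h : Sat w C S φ) {X Y : ℕ} (hX : X < S.length) (hY : Y < S.length)
    (hle : ip (G.T (bv (φ X))) (G.T (bv (φ Y))) ≤ (ipl (nth S X).out (nth S Y).out : ℤ)) :
    ∀ z ∈ (nth S X).out, G.T (bv (φ Y)) (φ z) = (cnt z (nth S Y).out : ℤ) := by
  intro z hz
  have hzK : z < S.length := (h.row X hX).outlt z hz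
  have hrr := ip_rv_rv h.glob.inj (h.row X hX).outlt (h.row Y hY).outlt
  have h1 : ip (rv φ (nth S X).out) (G.T (bv (φ Y))) ≤ ip (G.T (bv (φ X))) (G.T (bv (φ Y))) :=
    ip_mono_left (rv_le h hX) (fun b => G.T_nonneg _ _)
  have h2 : ip (rv φ (nth S X).out) (G.T (bv (φ Y)) - rv φ (nth S Y).out) ≤ 0 := by
    rw [ip_sub_right, hrr]
    linarith
  have hpos : (0 : G.B →₀ ℤ) ≤ G.T (bv (φ Y)) - rv φ (nth S Y).out := by
    intro b
    have := rv_le h hY b
    simp only [Finsupp.coe_zero, Pi.zero_apply, Finsupp.coe_sub, Pi.sub_apply]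
    linarith
  have h3 := mul_le_ip (rv_nonneg φ (nth S X).out) hpos (φ z)
  have h4 : rv φ (nth S X).out (φ z) = (cnt z (nth S X).out : ℤ) :=
    rv_apply h.glob.inj (h.row X hX).outlt hzK
  have h5 : (1 : ℤ) ≤ (cnt z (nth S X).out : ℤ) := by exact_mod_cast one_le_cnt hz
  have h6 := hpos (φ z)
  have h7 : rv φ (nth S Y).out (φ z) = (cnt z (nth S Y).out : ℤ) :=
    rv_apply h.glob.inj (h.row Y hY).outlt hzK
  rw [h4] at h3
  simp only [Finsupp.coe_zero, Pi.zero_apply, Finsupp.coe_sub, Pi.sub_apply] at h3 h6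
  rw [h7] at h3 h6
  nlinarith

theorem rule_XN (h : Sat w C S φ) {x y : ℕ} (hc : check C (.XN x y) S = true) : False := by
  simp only [check, Bool.and_eq_true] at hc
  obtain ⟨⟨⟨hx, hy⟩, he⟩, hb⟩ := hc
  have hx' := lt_of_blt' hx
  have hy' := lt_of_blt' hy
  have hb' := lt_of_blt' hb
  have h1 := ipEx_sound h hx' hy' he
  have h2 := ip_conj h hx' hy'
  have h3 := ipl_le h (h.row x hx').cjlt (h.row y hy').cjlt
  have h4 : ((ipl (nth S x).out (nth S y).out : ℕ) : ℤ) <
    (ipl (nth S (nth S x).cj).out (nth S (nth S y).cj).out : ℤ) := by exact_mod_cast hb'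
  linarith

theorem rule_Z (h : Sat w C S φ) {x y : ℕ} {c : Cert} (hc : check C (.Z x y c) S = true) :
    ∃ S', Sat w C S' φ ∧ check C c S' = true := by
  simp only [check, Bool.and_eq_true] at hc
  obtain ⟨⟨⟨⟨hx, hy⟩, he⟩, hb⟩, hc⟩ := hc
  have hx' := lt_of_blt' hx
  have hy' := lt_of_blt' hy
  have hb' := Nat.le_of_ble_eq_true hb
  refine ⟨_, ?_, hc⟩
  have hX := (h.row x hx').cjlt
  have hY := (h.row y hy').cjlt
  have h1 := ipEx_sound h hx' hy' he
  have h2 := ip_conj h hx' hy'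
  have h4 : ((ipl (nth S x).out (nth S y).out : ℕ) : ℤ) ≤
    (ipl (nth S (nth S x).cj).out (nth S (nth S y).cj).out : ℤ) := by exact_mod_cast hb'
  have hle : ip (G.T (bv (φ (nth S x).cj))) (G.T (bv (φ (nth S y).cj))) ≤
      (ipl (nth S (nth S x).cj).out (nth S (nth S y).cj).out : ℤ) := by
    rw [← h2, h1]; exact h4
  have hA := z_aux h hX hY hle
  have hle' : ip (G.T (bv (φ (nth S y).cj))) (G.T (bv (φ (nth S x).cj))) ≤
      (ipl (nth S (nth S y).cj).out (nth S (nth S x).cj).out : ℤ) := by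
    have e1 := ip_rv_rv (φ := φ) h.glob.inj (h.row _ hX).outlt (h.row _ hY).outlt
    have e2 := ip_rv_rv (φ := φ) h.glob.inj (h.row _ hY).outlt (h.row _ hX).outlt
    rw [ip_comm, ← e2, ip_comm (rv φ (nth S (nth S y).cj).out), e1]
    exact hle
  have hB := z_aux h hY hX hle'
  have hS1 : Sat w C (upd S (nth S y).cj
      fun r => { r with dec := setBits r.dec (nth S (nth S x).cj).out }) φ :=
    h.upd fun _ => (h.row _ hY).setDec (h.row _ hX).outlt hA
  refine hS1.upd fun hX1 => ?_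
  have hrow := hS1.row _ hX1
  have hout : (nth (upd S (nth S y).cj
      fun r => { r with dec := setBits r.dec (nth S (nth S x).cj).out }) (nth S x).cj).out =
      (nth S (nth S x).cj).out := by
    by_cases hXY : (nth S x).cj = (nth S y).cj
    · rw [← hXY, nth_upd_eq _ _ _ hX]
    · rw [nth_upd_ne _ _ _ _ hXY]
  refine RowSat.setDec hrow ?_ ?_
  · intro j hj
    rw [upd_length]
    exact (h.row _ hY).outlt j hj
  · intro j hj
    rw [hout]
    exact hB j hj

theorem rule_CO (h : Sat w C S φ) {a : ℕ} {c : Cert} (hc : check C (.CO a c) S = true) :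
    ∃ S', Sat w C S' φ ∧ check C c S' = true := by
  simp only [check, Bool.and_eq_true] at hc
  obtain ⟨⟨⟨⟨⟨hna, hnA⟩, ha⟩, hd⟩, hb⟩, hc⟩ := hc
  have ha' := lt_of_blt' ha
  have hna' := Nat.le_of_ble_eq_true hna
  have hnA' := Nat.le_of_ble_eq_true hnA
  have hb' := Nat.le_of_ble_eq_true hb
  rw [h.glob.ntC] at hna' hnA'
  refine ⟨_, ?_, hc⟩
  refine h.upd fun _ => ?_
  have hr := h.row a ha'
  have hA := hr.cjlt
  have hrA := h.row _ hA
  refine ⟨hr.cjlt, hr.bar, hr.grlt, hr.gr, hr.lo, hr.hi, hr.off, hr.outlt, hr.low, hr.declt,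
    hr.dec, fun _ => ?_⟩
  have hTA := hrA.done hd
  rw [w.W_zero _ hnA', add_zero] at hTA
  have h1 := ip_conj h ha' ha'
  rw [hTA, ip_rv_rv h.glob.inj hrA.outlt hrA.outlt] at h1
  have h2 := ip_rv_rv (φ := φ) h.glob.inj hr.outlt hr.outlt
  have h3 : ((ipl (nth S (nth S a).cj).out (nth S (nth S a).cj).out : ℕ) : ℤ) ≤
    (ipl (nth S a).out (nth S a).out : ℤ) := by exact_mod_cast hb'
  have h4 := eq_of_norm (rv_nonneg φ (nth S a).out) (rv_le h ha') (by rw [h1, h2]; exact h3)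
  show G.T (bv (φ a)) = rv φ (nth S a).out + w.W a
  rw [w.W_zero _ hna', add_zero]
  exact h4.symm

end rules

end Pool.Agent.Helper363.Nita
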