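import Pool.Agent.Helper363.Nita.SndB

namespace Pool.Agent.Helper363.Nita

section rules
variable {G : NG} {w : World G} {C : Ctx} {S : List Row} {φ : ℕ → G.B}

theorem lineAt_mem (L : List Line) (l : ℕ) : lineAt L l ∈ L ∨ lineAt L l = ⟨[], 0, 0⟩ := by
  induction L generalizing l with
  | nil => exact Or.inr rfl
  | cons r L ih =>
    cases l with
    | zero => exact Or.inl (List.mem_cons_self)
    | succ l =>
      rcases ih l with h | h
      · exact Or.inl (List.mem_cons_of_mem _ h)
      · exact Or.inr h

theorem outs_lt (h : Sat w C S φ) {nodes : List ℕ} (hn : ∀ c ∈ nodes, c < S.length) :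
    ∀ j ∈ outs S nodes, j < S.length := by
  induction nodes with
  | nil => intro j hj; simp [outs] at hj
  | cons c l ih =>
    intro j hj
    simp only [outs, List.mem_append] at hj
    rcases hj with hj | hj
    · exact (h.row c (hn c (by simp))).outlt j hj
    · exact ih (fun c hc => hn c (by simp [hc])) j hj

theorem outs_le (h : Sat w C S φ) {nodes : List ℕ} (hn : ∀ c ∈ nodes, c < S.length) :
    rv φ (outs S nodes) ≤ G.T (rv φ nodes) := by
  induction nodes with
  | nil => simp [outs, rv]
  | cons c l ih =>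
    simp only [outs, rv]
    rw [rv_append, map_add]
    exact add_le_add (rv_le h (hn c (by simp))) (ih fun c hc => hn c (by simp [hc]))

theorem outs_done (h : Sat w C S φ) {nodes : List ℕ} (hn : ∀ c ∈ nodes, w.nt ≤ c ∧ c < S.length)
    (hd : allDone S nodes = true) : rv φ (outs S nodes) = G.T (rv φ nodes) := by
  induction nodes with
  | nil => simp [outs, rv]
  | cons c l ih =>
    simp only [allDone, Bool.and_eq_true] at hd
    simp only [outs, rv]
    rw [rv_append, map_add, ih (fun c hc => hn c (by simp [hc])) hd.2]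
    have h1 := (h.row c (hn c (by simp)).2).done hd.1
    rw [w.W_zero c (hn c (by simp)).1, add_zero] at h1
    rw [h1]

theorem outs_eq (h : Sat w C S φ) {nodes : List ℕ} (hn : ∀ c ∈ nodes, c < S.length)
    (he : rv φ (outs S nodes) = G.T (rv φ nodes)) :
    ∀ c ∈ nodes, rv φ (nth S c).out = G.T (bv (φ c)) := by
  induction nodes with
  | nil => intro c hc; simp at hc
  | cons c l ih =>
    simp only [outs, rv] at he
    rw [rv_append, map_add] at he
    have h1 := rv_le h (hn c (by simp))
    have hn' : ∀ c ∈ l, c < S.length := fun c hc => hn c (by simp [hc])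
    have h2 := outs_le h hn'
    have h3 : rv φ (nth S c).out = G.T (bv (φ c)) := by
      ext b
      have e1 := h1 b
      have e2 := h2 b
      have e3 := DFunLike.congr_fun he b
      simp only [Finsupp.add_apply] at e3
      linarith
    have h4 : rv φ (outs S l) = G.T (rv φ l) := by
      rw [h3] at he
      exact add_left_cancel he
    intro c' hc'
    rcases List.mem_cons.1 hc' with rfl | hc'
    · exact h3
    · exact ih hn' h4 c' hc'

theorem setDone_sat {nodes : List ℕ} : ∀ {S : List Row}, Sat w C S φ →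
    (∀ c ∈ nodes, c < S.length) →
    (∀ c ∈ nodes, G.T (bv (φ c)) = rv φ (nth S c).out + w.W c) →
    Sat w C (setDone S nodes) φ := by
  induction nodes with
  | nil => intro S h _ _; exact h
  | cons c l ih =>
    intro S h hn he
    simp only [setDone]
    apply ih
    · apply h.upd
      intro hc
      have r := h.row c hc
      exact ⟨r.cjlt, r.bar, r.grlt, r.gr, r.lo, r.hi, r.off, r.outlt, r.low, r.declt, r.dec,
        fun _ => he c (by simp)⟩
    · intro c' hc'
      rw [upd_length]
      exact hn c' (by simp [hc'])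
    · intro c' hc'
      rw [he c' (by simp [hc'])]
      by_cases hcc : c' = c
      · subst hcc
        rw [nth_upd_eq _ _ _ (hn c' (by simp))]
      · rw [nth_upd_ne _ _ _ _ hcc]

theorem blt_lt {a b : ℕ} (h : Nat.blt a b = true) : a < b := by
  have : Nat.ble (a + 1) b = true := h
  exact Nat.le_of_ble_eq_true this

theorem not_beq_zero {a : ℕ} (h : (!(Nat.beq a 0)) = true) : a ≠ 0 := by
  rintro rfl
  simp at h

theorem rule_LX (h : Sat w C S φ) {l : ℕ} (hc : check C (.LX l) S = true) : False := by
  simp only [check, Bool.or_eq_true, Bool.and_eq_true] at hc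
  rcases lineAt_mem C.lines l with hm | hm
  · obtain ⟨hn, hlo, hhi⟩ := h.glob.lines _ hm
    obtain ⟨N, hN⟩ : ∃ N, N = lineAt C.lines l := ⟨_, rfl⟩
    rw [← hN] at hc hn hlo hhi
    have hn' : ∀ c ∈ N.nodes, c < S.length := fun c hc => (hn c hc).2
    have hlt := outs_lt h hn'
    have hle := outs_le h hn'
    have hip := ip_rv_rv h.glob.inj hlt hlt
    rcases hc with ⟨h1, h2⟩ | ⟨h1, h2⟩
    · have h3 := hhi (not_beq_zero h1)
      have h4 := blt_lt h2
      have h5 := ip_mono_left hle (rv_nonneg φ (outs S N.nodes))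
      have h6 := ip_mono_right hle (G.T_pos (rv_nonneg φ N.nodes))
      have h7 : ((N.hi : ℕ) : ℤ) < (ipl (outs S N.nodes) (outs S N.nodes) : ℤ) := by exact_mod_cast h4
      linarith
    · have h3 := outs_done h hn h1
      have h4 := blt_lt h2
      rw [h3] at hip
      have h7 : (ipl (outs S N.nodes) (outs S N.nodes) : ℤ) < ((N.lo : ℕ) : ℤ) := by exact_mod_cast h4
      linarith
  · rw [hm] at hc
    rcases hc with ⟨h1, h2⟩ | ⟨h1, h2⟩
    · exact not_beq_zero h1 rfl
    · have := blt_lt h2
      simp at this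

theorem rule_LC (h : Sat w C S φ) {l : ℕ} {c : Cert} (hc : check C (.LC l c) S = true) :
    ∃ S', Sat w C S' φ ∧ check C c S' = true := by
  simp only [check, Bool.and_eq_true] at hc
  obtain ⟨⟨h1, h2⟩, h3⟩ := hc
  refine ⟨_, ?_, h3⟩
  rcases lineAt_mem C.lines l with hm | hm
  · obtain ⟨hn, hlo, hhi⟩ := h.glob.lines _ hm
    obtain ⟨N, hN⟩ : ∃ N, N = lineAt C.lines l := ⟨_, rfl⟩
    rw [← hN] at h1 h2 h3 hn hlo hhi ⊢
    have hn' : ∀ c ∈ N.nodes, c < S.length := fun c hc => (hn c hc).2
    have hlt := outs_lt h hn'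
    have hle := outs_le h hn'
    have hip := ip_rv_rv h.glob.inj hlt hlt
    have h4 := hhi (not_beq_zero h1)
    have h5 := Nat.le_of_ble_eq_true h2
    have h6 : ((N.hi : ℕ) : ℤ) ≤ (ipl (outs S N.nodes) (outs S N.nodes) : ℤ) := by exact_mod_cast h5
    have h7 := eq_of_norm (rv_nonneg φ (outs S N.nodes)) hle (by linarith)
    have h8 := outs_eq h hn' h7
    apply setDone_sat h hn'
    intro c hc
    rw [h8 c hc, w.W_zero c (hn c hc).1, add_zero]
  · rw [hm] at h1
    exact absurd rfl (not_beq_zero h1)

end rules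

end Pool.Agent.Helper363.Nita
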