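import Pool.Agent.Helper363.Nita.SndB

namespace Pool.Agent.Helper363.Nita

section rules
variable {G : NG} {w : World G} {C : Ctx} {S : List Row} {φ : ℕ → G.B}

theorem q8209_cell_le (h : Sat w C S φ) {x : ℕ} (hx : x < S.length) (tgt : List ℕ)
    (ht : ∀ y ∈ tgt, y < S.length) :
    (cntL (nth S x).out tgt : ℤ) ≤ ip (rv φ tgt) (G.T (bv (φ x))) := by
  induction tgt with
  | nil => simp [cntL, ip_rv_nil]
  | cons y m ih =>
    rw [ip_rv_cons]
    have h1 := ih (fun z hz => ht z (List.mem_cons_of_mem _ hz))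
    have h2 := cnt_le h hx (ht y List.mem_cons_self)
    have h3 : cntL (nth S x).out (y :: m) = cnt y (nth S x).out + cntL (nth S x).out m := rfl
    rw [h3]
    push_cast
    linarith

theorem q8209_cell_eq (h : Sat w C S φ) {x : ℕ} (hx : x < S.length) (tgt : List ℕ)
    (ht : ∀ y ∈ tgt, y < S.length)
    (hle : ip (rv φ tgt) (G.T (bv (φ x))) ≤ (cntL (nth S x).out tgt : ℤ)) :
    ∀ y ∈ tgt, G.T (bv (φ x)) (φ y) = (cnt y (nth S x).out : ℤ) := by
  induction tgt with
  | nil => simp
  | cons y m ih =>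
    rw [ip_rv_cons] at hle
    have h1 := q8209_cell_le h hx m (fun z hz => ht z (List.mem_cons_of_mem _ hz))
    have h2 := cnt_le h hx (ht y List.mem_cons_self)
    have h3 : cntL (nth S x).out (y :: m) = cnt y (nth S x).out + cntL (nth S x).out m := rfl
    rw [h3] at hle
    push_cast at hle
    intro z hz
    rw [List.mem_cons] at hz
    rcases hz with rfl | hz
    · linarith
    · exact ih (fun z hz => ht z (List.mem_cons_of_mem _ hz)) (by linarith) z hz

theorem q8209_cell_ex (h : Sat w C S φ) {x : ℕ} (hx : x < S.length) (tgt : List ℕ)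
    (ht : ∀ y ∈ tgt, y < S.length)
    (hex : ∀ y ∈ tgt, G.T (bv (φ x)) (φ y) = (cnt y (nth S x).out : ℤ)) :
    ip (rv φ tgt) (G.T (bv (φ x))) = (cntL (nth S x).out tgt : ℤ) := by
  induction tgt with
  | nil => simp [cntL, ip_rv_nil]
  | cons y m ih =>
    rw [ip_rv_cons]
    have h1 := ih (fun z hz => ht z (List.mem_cons_of_mem _ hz))
      (fun z hz => hex z (List.mem_cons_of_mem _ hz))
    have h2 := hex y List.mem_cons_self
    have h3 : cntL (nth S x).out (y :: m) = cnt y (nth S x).out + cntL (nth S x).out m := rfl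
    rw [h3]
    push_cast
    linarith

theorem q8209_ip_cons (x : ℕ) (l tgt : List ℕ) :
    ip (G.T (rv φ (x :: l))) (rv φ tgt) =
      ip (rv φ tgt) (G.T (bv (φ x))) + ip (G.T (rv φ l)) (rv φ tgt) := by
  have h1 : rv φ (x :: l) = bv (φ x) + rv φ l := rfl
  rw [h1, map_add, ip_add_left, ip_comm (G.T (bv (φ x)))]

theorem q8209_ip_nil (tgt : List ℕ) : ip (G.T (rv φ [])) (rv φ tgt) = 0 := by
  have h1 : rv φ [] = (0 : G.B →₀ ℤ) := rfl
  rw [h1, map_zero, ip_zero_left]

theorem q8209_sum_le (h : Sat w C S φ) (src tgt : List ℕ) (hs : ∀ x ∈ src, x < S.length)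
    (ht : ∀ y ∈ tgt, y < S.length) :
    (blkSum S tgt src : ℤ) ≤ ip (G.T (rv φ src)) (rv φ tgt) := by
  induction src with
  | nil => rw [q8209_ip_nil]; simp [blkSum]
  | cons x l ih =>
    rw [q8209_ip_cons]
    have h1 := ih (fun z hz => hs z (List.mem_cons_of_mem _ hz))
    have h2 := q8209_cell_le h (hs x List.mem_cons_self) tgt ht
    have h3 : blkSum S tgt (x :: l) = cntL (nth S x).out tgt + blkSum S tgt l := rfl
    rw [h3]
    push_cast
    linarith

theorem q8209_sum_eq (h : Sat w C S φ) (src tgt : List ℕ) (hs : ∀ x ∈ src, x < S.length)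
    (ht : ∀ y ∈ tgt, y < S.length)
    (hle : ip (G.T (rv φ src)) (rv φ tgt) ≤ (blkSum S tgt src : ℤ)) :
    ∀ x ∈ src, ∀ y ∈ tgt, G.T (bv (φ x)) (φ y) = (cnt y (nth S x).out : ℤ) := by
  induction src with
  | nil => simp
  | cons x l ih =>
    rw [q8209_ip_cons] at hle
    have h1 := q8209_sum_le h l tgt (fun z hz => hs z (List.mem_cons_of_mem _ hz)) ht
    have h2 := q8209_cell_le h (hs x List.mem_cons_self) tgt ht
    have h3 : blkSum S tgt (x :: l) = cntL (nth S x).out tgt + blkSum S tgt l := rfl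
    rw [h3] at hle
    push_cast at hle
    intro z hz
    rw [List.mem_cons] at hz
    rcases hz with rfl | hz
    · exact q8209_cell_eq h (hs z List.mem_cons_self) tgt ht (by linarith)
    · exact ih (fun z hz => hs z (List.mem_cons_of_mem _ hz)) (by linarith) z hz

theorem q8209_sum_ex (h : Sat w C S φ) (src tgt : List ℕ) (hs : ∀ x ∈ src, x < S.length)
    (ht : ∀ y ∈ tgt, y < S.length) (hex : blkEx S tgt src = true) :
    ip (G.T (rv φ src)) (rv φ tgt) = (blkSum S tgt src : ℤ) := by
  induction src with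
  | nil => rw [q8209_ip_nil]; simp [blkSum]
  | cons x l ih =>
    have h0 : (allEx S x tgt && blkEx S tgt l) = true := hex
    rw [Bool.and_eq_true] at h0
    rw [q8209_ip_cons]
    have h1 := ih (fun z hz => hs z (List.mem_cons_of_mem _ hz)) h0.2
    have hx := hs x List.mem_cons_self
    have h2 := q8209_cell_ex h hx tgt ht (allEx_sound h hx ht h0.1)
    have h3 : blkSum S tgt (x :: l) = cntL (nth S x).out tgt + blkSum S tgt l := rfl
    rw [h3, h1, h2]
    push_cast
    ring

theorem q8209_blkAt (bs : List Blk) (l : ℕ) : blkAt bs l ∈ bs ∨ blkAt bs l = ⟨[], [], 0, 0⟩ := by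
  induction bs generalizing l with
  | nil => exact Or.inr rfl
  | cons b bs ih =>
    cases l with
    | zero => exact Or.inl List.mem_cons_self
    | succ l =>
      rcases ih l with h1 | h1
      · exact Or.inl (List.mem_cons_of_mem _ h1)
      · exact Or.inr h1

theorem q8209_blkSet (tgt : List ℕ) (src : List ℕ) : ∀ (S : List Row) (_ : Sat w C S φ)
    (_ : ∀ x ∈ src, x < S.length) (_ : ∀ y ∈ tgt, y < S.length)
    (_ : ∀ x ∈ src, ∀ y ∈ tgt, G.T (bv (φ x)) (φ y) = (cnt y (nth S x).out : ℤ)),
    Sat w C (blkSet S tgt src) φ := by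
  induction src with
  | nil => intro S h _ _ _; exact h
  | cons x l ih =>
    intro S h hs ht hex
    have hx := hs x List.mem_cons_self
    have hdef : blkSet S tgt (x :: l) =
      blkSet (upd S x fun r => { r with dec := setBits r.dec tgt }) tgt l := rfl
    rw [hdef]
    apply ih
    · apply h.upd
      intro _
      have hr := h.row x hx
      refine ⟨hr.cjlt, hr.bar, hr.grlt, hr.gr, hr.lo, hr.hi, hr.off, hr.outlt, hr.low,
        setBits_lt hr.declt ht, ?_, hr.done⟩
      intro j hj htb
      rcases (tb_setBits _ _ _).1 htb with h1 | h1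
      · exact hr.dec j hj h1
      · exact hex x List.mem_cons_self j h1
    · intro z hz
      rw [upd_length]
      exact hs z (List.mem_cons_of_mem _ hz)
    · intro y hy
      rw [upd_length]
      exact ht y hy
    · intro z hz y hy
      have hz2 := hs z (List.mem_cons_of_mem _ hz)
      have hout : (nth (Nita.upd S x fun r => { r with dec := setBits r.dec tgt }) z).out =
          (nth S z).out := by
        by_cases hzx : z = x
        · subst hzx
          rw [nth_upd_eq _ _ _ hz2]
        · rw [nth_upd_ne _ _ _ _ hzx]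
      rw [hout]
      exact hex z (List.mem_cons_of_mem _ hz) y hy

theorem rule_BX (h : Sat w C S φ) {l : ℕ} (hc : check C (.BX l) S = true) : False := by
  have hc' : (((!(Nat.beq (blkAt C.blks l).hi 0)) &&
      Nat.ble (blkAt C.blks l).hi (blkSum S (blkAt C.blks l).tgt (blkAt C.blks l).src)) ||
    (blkEx S (blkAt C.blks l).tgt (blkAt C.blks l).src &&
      Nat.blt (blkSum S (blkAt C.blks l).tgt (blkAt C.blks l).src) (blkAt C.blks l).lo)) = true :=
    hc
  rw [Bool.or_eq_true, Bool.and_eq_true, Bool.and_eq_true] at hc'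
  rcases q8209_blkAt C.blks l with hm | hm
  · obtain ⟨hs, ht, hlo, hhi⟩ := h.glob.blks _ hm
    rcases hc' with ⟨h1, h2⟩ | ⟨h1, h2⟩
    · have h3 : (blkAt C.blks l).hi ≠ 0 := by
        intro h0
        rw [h0] at h1
        simp at h1
      have h4 := hhi h3
      have h5 := q8209_sum_le h _ _ hs ht
      have h6 := Nat.le_of_ble_eq_true h2
      have h7 : ((blkAt C.blks l).hi : ℤ) ≤
        (blkSum S (blkAt C.blks l).tgt (blkAt C.blks l).src : ℤ) := by exact_mod_cast h6
      linarith
    · have h5 := q8209_sum_ex h _ _ hs ht h1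
      have h6 : blkSum S (blkAt C.blks l).tgt (blkAt C.blks l).src < (blkAt C.blks l).lo :=
        Nat.le_of_ble_eq_true h2
      have h7 : (blkSum S (blkAt C.blks l).tgt (blkAt C.blks l).src : ℤ) <
        ((blkAt C.blks l).lo : ℤ) := by exact_mod_cast h6
      linarith
  · rw [hm] at hc'
    rcases hc' with ⟨h1, h2⟩ | ⟨h1, h2⟩
    · simp at h1
    · have h3 := Nat.le_of_ble_eq_true h2
      simp at h3

theorem rule_BC (h : Sat w C S φ) {l : ℕ} {c : Cert} (hc : check C (.BC l c) S = true) :
    ∃ S', Sat w C S' φ ∧ check C c S' = true := by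
  have hc' : ((!(Nat.beq (blkAt C.blks l).hi 0)) &&
    Nat.ble (blkAt C.blks l).hi (Nat.succ (blkSum S (blkAt C.blks l).tgt (blkAt C.blks l).src)) &&
    check C c (blkSet S (blkAt C.blks l).tgt (blkAt C.blks l).src)) = true := by
    rw [check] at hc
    exact hc
  rw [Bool.and_eq_true, Bool.and_eq_true] at hc'
  obtain ⟨⟨h1, h2⟩, h3⟩ := hc'
  refine ⟨_, ?_, h3⟩
  have h0 : (blkAt C.blks l).hi ≠ 0 := by
    intro h0
    rw [h0] at h1
    simp at h1
  rcases q8209_blkAt C.blks l with hm | hm
  · obtain ⟨hs, ht, hlo, hhi⟩ := h.glob.blks _ hm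
    have h4 := hhi h0
    have h6 := Nat.le_of_ble_eq_true h2
    have h7 : ((blkAt C.blks l).hi : ℤ) ≤
      (blkSum S (blkAt C.blks l).tgt (blkAt C.blks l).src : ℤ) + 1 := by exact_mod_cast h6
    exact q8209_blkSet _ _ S h hs ht (q8209_sum_eq h _ _ hs ht (by linarith))
  · rw [hm] at h0
    simp at h0

end rules

end Pool.Agent.Helper363.Nita
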