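import Pool.Agent.Helper363.Nita.SndB

namespace Pool.Agent.Helper363.Nita

section rules
variable {G : NG} {w : World G} {C : Ctx} {S : List Row} {φ : ℕ → G.B}

theorem rowSat_ins_aux {K a b : ℕ} {r : Row} (hg : Glob w C K φ) (hr : RowSat w K φ a r)
    (hnt : w.nt ≤ a) (hb : b < K) (hT : (cnt b r.out : ℤ) + 1 ≤ G.T (bv (φ a)) (φ b)) :
    RowSat w K φ a (ins b r) := by
  classical
  have hW : w.W a = 0 := w.W_zero a hnt
  refine ⟨hr.cjlt, hr.bar, hr.grlt, hr.gr, hr.lo, hr.hi, hr.off, ?_, ?_, hr.declt, ?_, ?_⟩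
  · intro j hj
    have hj' : j ∈ b :: r.out := hj
    rcases List.mem_cons.1 hj' with rfl | hj'
    · exact hb
    · exact hr.outlt j hj'
  · show (bv (φ b) + rv φ r.out) + w.W a ≤ G.T (bv (φ a))
    rw [hW, add_zero]
    intro y
    rw [Finsupp.add_apply]
    by_cases hy : y = φ b
    · subst hy
      rw [rv_apply hg.inj hr.outlt hb]
      have h1 : (bv (φ b) : G.B →₀ ℤ) (φ b) = 1 := by simp [bv]
      rw [h1]
      linarith
    · have h1 : (bv (φ b) : G.B →₀ ℤ) y = 0 := by
        simp [bv, Finsupp.single_apply, Ne.symm hy]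
      have h2 := hr.low y
      rw [hW, add_zero] at h2
      rw [h1, zero_add]
      exact h2
  · intro j hj ht
    have ht' : tb r.dec j = true := ht
    have h1 := hr.dec j hj ht'
    show G.T (bv (φ a)) (φ j) = (cnt j (b :: r.out) : ℤ)
    by_cases hjb : j = b
    · subst hjb
      rw [h1] at hT
      exfalso
      linarith
    · have h2 : Nat.beq j b = false := by
        cases h3 : Nat.beq j b with
        | false => rfl
        | true => exact absurd (Nat.eq_of_beq_eq_true h3) hjb
      have h4 : cnt j (b :: r.out) = cnt j r.out := by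
        simp only [cnt, h2, cond_false]
      rw [h4, h1]
  · intro hd
    have hd' : r.done = true := hd
    have h1 := hr.done hd'
    rw [hW, add_zero] at h1
    rw [h1, rv_apply hg.inj hr.outlt hb] at hT
    exfalso
    linarith

theorem rule_E (h : Sat w C S φ) {a b : ℕ} {c1 c2 : Cert}
    (hc : check C (.E a b c1 c2) S = true) :
    (∃ S', Sat w C S' φ ∧ check C c1 S' = true) ∨ (∃ S', Sat w C S' φ ∧ check C c2 S' = true) := by
  simp only [check, Bool.and_eq_true] at hc
  obtain ⟨⟨⟨⟨⟨⟨h1, h2⟩, h3⟩, h4⟩, h5⟩, h6⟩, h7⟩ := hc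
  have hnta : w.nt ≤ a := by
    rw [← h.glob.ntC]; exact Nat.le_of_ble_eq_true h1
  have hntb : w.nt ≤ b := by
    rw [← h.glob.ntC]; exact Nat.le_of_ble_eq_true h2
  have ha : a < S.length := Nat.le_of_ble_eq_true h3
  have hb : b < S.length := Nat.le_of_ble_eq_true h4
  have h5' : cnt (nth S a).cj (nth S (nth S b).cj).out ≤ cnt b (nth S a).out :=
    Nat.le_of_ble_eq_true h5
  by_cases hT : G.T (bv (φ a)) (φ b) = (cnt b (nth S a).out : ℤ)
  · right
    refine ⟨_, ?_, h7⟩
    refine h.upd fun ha' => ?_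
    have hr := h.row a ha
    refine ⟨hr.cjlt, hr.bar, hr.grlt, hr.gr, hr.lo, hr.hi, hr.off, hr.outlt, hr.low, ?_, ?_,
      hr.done⟩
    · exact setBits_lt hr.declt (by
        intro j hj
        rw [List.mem_singleton] at hj
        rw [hj]; exact hb)
    · intro j hj ht
      rcases (tb_setBits _ _ _).1 ht with ht | ht
      · exact hr.dec j hj ht
      · rw [List.mem_singleton] at ht
        rw [ht]; exact hT
  · left
    have hT' : (cnt b (nth S a).out : ℤ) + 1 ≤ G.T (bv (φ a)) (φ b) := by
      have h8 := cnt_le h ha hb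
      have h9 : (cnt b (nth S a).out : ℤ) < G.T (bv (φ a)) (φ b) :=
        lt_of_le_of_ne h8 (Ne.symm hT)
      linarith
    have hS1 : Sat w C (upd S a (ins b)) φ :=
      h.upd fun _ => rowSat_ins_aux h.glob (h.row a ha) hnta hb hT'
    by_cases hcj : Nat.beq (nth S b).cj a = true
    · rw [hcj, cond_true] at h6
      exact ⟨_, hS1, h6⟩
    · have hcj' : Nat.beq (nth S b).cj a = false := by
        cases h8 : Nat.beq (nth S b).cj a with
        | false => rfl
        | true => exact absurd h8 hcj
      rw [hcj', cond_false] at h6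
      have hne : (nth S b).cj ≠ a := by
        intro h8
        apply hcj
        rw [h8]
        exact Nat.beq_refl a
      refine ⟨_, ?_, h6⟩
      refine hS1.upd fun _ => ?_
      rw [upd_length, nth_upd_ne _ _ _ _ hne]
      refine rowSat_ins_aux h.glob (h.row _ (h.row b hb).cjlt) (cj_nt h hb hntb)
        (h.row a ha).cjlt ?_
      rw [← T_conj h ha hb]
      have h9 : (cnt (nth S a).cj (nth S (nth S b).cj).out : ℤ) ≤ (cnt b (nth S a).out : ℤ) := by
        exact_mod_cast h5'
      linarith

end rules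

end Pool.Agent.Helper363.Nita
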