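import Pool.Agent.Helper363.Nita.Lev

namespace Pool.Agent.Helper363.Nita

open Finsupp

variable {G : NG} {n : ℕ}

namespace Arr
variable (A : Arr G n)

/-- the structure of the levels up to `n` -/
structure Good (A : Arr G n) : Prop where
  hn : 4 ≤ n
  ip_E : ∀ a b c d : ℤ, (0 ≤ a ∧ 0 ≤ b ∧ a + b ≤ n) → (0 ≤ c ∧ 0 ≤ d ∧ c + d ≤ n) →
    ip (A.E a b) (A.E c d) = if a = c ∧ b = d then 1 else 0
  ip_Tt : ∀ i j : ℤ, 0 ≤ i → i ≤ n → 0 ≤ j → j ≤ n →
    ip (G.T (A.t i)) (A.t j) = if j = i + 1 then 1 else 0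

theorem u_out {j : ℤ} (h : j < 0 ∨ (n : ℤ) + 1 < j) : A.u j = 0 := by
  unfold u
  rw [if_neg (by omega), if_neg (by omega)]

theorem Tt {j : ℤ} (h1 : 0 ≤ j) (h2 : j ≤ n) : G.T (A.t j) = A.t (j + 1) + A.s (j - 1) + A.u j := by
  unfold u
  rw [if_pos ⟨h1, h2⟩]
  abel

theorem St (hn : 2 ≤ n) {j : ℤ} (h1 : 0 ≤ j) (h2 : j ≤ n) :
    G.S (A.t j) = A.t (j - 1) + A.s j + A.u (j + 1) := by
  rcases h2.lt_or_eq with h3 | h3
  · have hr := A.R1 hn h1 h3
    have hT := A.Tt (j := j + 1) (by omega) (by omega)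
    have e1 : j + 1 + 1 = j + 2 := by ring
    have e2 : j + 1 - 1 = j := by ring
    rw [e1, e2] at hT
    rw [hT] at hr
    have h4 : G.S (A.t j) = A.t (j + 2) + A.s j + A.u (j + 1) + A.t (j - 1) - A.t (j + 2) := by
      rw [hr]; abel
    rw [h4]; abel
  · subst h3
    have hu : A.u ((n : ℤ) + 1) = G.S (A.t n) - A.t (n - 1) := by
      unfold u
      rw [if_neg (by omega), if_pos rfl]
    rw [hu, A.s_out (by omega)]
    abel

theorem u_last : A.u ((n : ℤ) + 1) = G.S (A.t n) - A.t (n - 1) := by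
  unfold u
  rw [if_neg (by omega), if_pos rfl]

theorem u_mid {j : ℤ} (h1 : 0 ≤ j) (h2 : j ≤ n) :
    A.u j = G.T (A.t j) - A.t (j + 1) - A.s (j - 1) := by
  unfold u
  rw [if_pos ⟨h1, h2⟩]

theorem bar_u (hn : 2 ≤ n) (j : ℤ) : G.bar' (A.u j) = A.u (n + 1 - j) := by
  by_cases h0 : j < 0 ∨ (n : ℤ) + 1 < j
  · rw [A.u_out h0, A.u_out (by omega), map_zero]
  · by_cases h1 : j ≤ n
    · have h2 : 0 ≤ j := by omega
      rw [A.u_mid h2 h1, map_sub, map_sub, G.bar_T, A.bar_t, A.bar_t, A.bar_s,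
        A.St hn (j := (n : ℤ) - j) (by omega) (by omega)]
      have e1 : (n : ℤ) - (j + 1) = n - j - 1 := by ring
      have e2 : (n : ℤ) - 1 - (j - 1) = n - j := by ring
      have e3 : (n : ℤ) + 1 - j = n - j + 1 := by ring
      rw [e1, e2, e3]
      abel
    · have h3 : j = n + 1 := by omega
      subst h3
      rw [A.u_last, map_sub, G.bar_S, A.bar_t, A.bar_t]
      have e1 : (n : ℤ) - n = 0 := by ring
      have e2 : (n : ℤ) - (n - 1) = 0 + 1 := by ring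
      have e3 : (n : ℤ) + 1 - (n + 1) = 0 := by ring
      rw [e1, e2, e3, A.Tt (le_refl _) (by omega), A.s_out (by omega)]
      abel

theorem two_dimZ_UU (a b : ℤ) : 2 * dimZ a b = (a + 1) * (b + 1) * (a + b + 2) := by
  unfold dimZ
  apply Int.mul_ediv_cancel'
  rcases Int.even_or_odd a with ⟨k, hk⟩ | ⟨k, hk⟩
  · rcases Int.even_or_odd b with ⟨l, hl⟩ | ⟨l, hl⟩
    · exact ⟨(a + 1) * (b + 1) * (k + l + 1), by rw [hk, hl]; ring⟩
    · exact ⟨(a + 1) * (l + 1) * (a + b + 2), by rw [hl]; ring⟩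
  · exact ⟨(k + 1) * (b + 1) * (a + b + 2), by rw [hk]; ring⟩

theorem dg_t' {j : ℤ} (h1 : -1 ≤ j) (h2 : j ≤ n + 1) : G.dg (A.t j) = dimZ (n - j) j := by
  by_cases h3 : 0 ≤ j
  · by_cases h4 : j ≤ n
    · exact A.dg_t h3 h4
    · have h5 : j = n + 1 := by omega
      rw [A.t_out (by omega), NG.dg_zero, h5]
      have := two_dimZ_UU ((n : ℤ) - (n + 1)) (n + 1)
      have e : ((n : ℤ) - (n + 1) + 1) * ((n : ℤ) + 1 + 1) * ((n : ℤ) - (n + 1) + (n + 1) + 2) = 0 := by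
        ring
      rw [e] at this
      omega
  · have h5 : j = -1 := by omega
    rw [A.t_out (by omega), NG.dg_zero, h5]
    have := two_dimZ_UU ((n : ℤ) - (-1)) (-1)
    have e : ((n : ℤ) - (-1) + 1) * ((-1 : ℤ) + 1) * ((n : ℤ) - (-1) + (-1) + 2) = 0 := by
      ring
    rw [e] at this
    omega

theorem dg_s' {j : ℤ} (h1 : -1 ≤ j) (h2 : j ≤ n) : G.dg (A.s j) = dimZ (n - 1 - j) j := by
  by_cases h3 : 0 ≤ j
  · by_cases h4 : j < n
    · exact A.dg_s h3 h4
    · have h5 : j = n := by omega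
      rw [A.s_out (by omega), NG.dg_zero, h5]
      have := two_dimZ_UU ((n : ℤ) - 1 - n) n
      have e : ((n : ℤ) - 1 - n + 1) * ((n : ℤ) + 1) * ((n : ℤ) - 1 - n + n + 2) = 0 := by
        ring
      rw [e] at this
      omega
  · have h5 : j = -1 := by omega
    rw [A.s_out (by omega), NG.dg_zero, h5]
    have := two_dimZ_UU ((n : ℤ) - 1 - (-1)) (-1)
    have e : ((n : ℤ) - 1 - (-1) + 1) * ((-1 : ℤ) + 1) * ((n : ℤ) - 1 - (-1) + (-1) + 2) = 0 := by
      ring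
    rw [e] at this
    omega

theorem dg_u {j : ℤ} (h1 : 0 ≤ j) (h2 : j ≤ n + 1) : G.dg (A.u j) = dimZ (n + 1 - j) j := by
  by_cases h3 : j ≤ n
  · rw [A.u_mid h1 h3, NG.dg_sub, NG.dg_sub, NG.dg_T, A.dg_t' (by omega) (by omega),
      A.dg_t' (by omega) (by omega), A.dg_s' (by omega) (by omega)]
    have k1 := two_dimZ_UU ((n : ℤ) - j) j
    have k2 := two_dimZ_UU ((n : ℤ) - (j + 1)) (j + 1)
    have k3 := two_dimZ_UU ((n : ℤ) - 1 - (j - 1)) (j - 1)
    have k4 := two_dimZ_UU ((n : ℤ) + 1 - j) j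
    have k5 : 2 * (3 * dimZ ((n : ℤ) - j) j - dimZ ((n : ℤ) - (j + 1)) (j + 1) -
        dimZ ((n : ℤ) - 1 - (j - 1)) (j - 1)) = 2 * dimZ ((n : ℤ) + 1 - j) j := by
      have : 2 * (3 * dimZ ((n : ℤ) - j) j - dimZ ((n : ℤ) - (j + 1)) (j + 1) -
        dimZ ((n : ℤ) - 1 - (j - 1)) (j - 1)) = 3 * (2 * dimZ ((n : ℤ) - j) j) -
          2 * dimZ ((n : ℤ) - (j + 1)) (j + 1) - 2 * dimZ ((n : ℤ) - 1 - (j - 1)) (j - 1) := by
        ring
      rw [this, k1, k2, k3, k4]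
      ring
    omega
  · have h5 : j = n + 1 := by omega
    subst h5
    rw [A.u_last, NG.dg_sub, NG.dg_S, A.dg_t' (by omega) (by omega),
      A.dg_t' (by omega) (by omega)]
    have k1 := two_dimZ_UU ((n : ℤ) - n) n
    have k2 := two_dimZ_UU ((n : ℤ) - (n - 1)) (n - 1)
    have k4 := two_dimZ_UU ((n : ℤ) + 1 - (n + 1)) (n + 1)
    have k5 : 2 * (3 * dimZ ((n : ℤ) - n) n - dimZ ((n : ℤ) - (n - 1)) (n - 1)) =
        2 * dimZ ((n : ℤ) + 1 - (n + 1)) (n + 1) := by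
      have : 2 * (3 * dimZ ((n : ℤ) - n) n - dimZ ((n : ℤ) - (n - 1)) (n - 1)) =
          3 * (2 * dimZ ((n : ℤ) - n) n) - 2 * dimZ ((n : ℤ) - (n - 1)) (n - 1) := by
        ring
      rw [this, k1, k2, k4]
      ring
    omega

theorem Gr_u (j : ℤ) : G.Gr (A.u j) ((n : ZMod 3) + 1 - 2 * j) := by
  have h3 : (3 : ZMod 3) = 0 := by decide
  by_cases h0 : 0 ≤ j ∧ j ≤ n
  · rw [A.u_mid h0.1 h0.2]
    apply NG.Gr_sub
    · apply NG.Gr_sub
      · have := NG.Gr_T G (A.Gr_t j)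
        convert this using 1
        ring
      · have := A.Gr_t (j + 1)
        convert this using 1
        push_cast
        linear_combination h3
    · have := A.Gr_s (j - 1)
      convert this using 1
      push_cast
      ring
  · by_cases h1 : j = n + 1
    · subst h1
      rw [A.u_last]
      apply NG.Gr_sub
      · have := NG.Gr_S G (A.Gr_t n)
        convert this using 1
        push_cast
        ring
      · have := A.Gr_t ((n : ℤ) - 1)
        convert this using 1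
        push_cast
        linear_combination (-1 : ZMod 3) * h3
    · rw [A.u_out (by omega)]
      exact NG.Gr_zero G _

theorem R2 (hn : 2 ≤ n) {j : ℤ} (h1 : 0 ≤ j) (h2 : j ≤ n) :
    G.T (A.u (j + 1)) + A.u (j - 1) = G.S (A.u j) + A.u (j + 2) := by
  have hu1 : A.u (j + 1) = G.S (A.t j) - A.t (j - 1) - A.s j := by
    rw [A.St hn h1 h2]; abel
  have hu0 : A.u j = G.T (A.t j) - A.t (j + 1) - A.s (j - 1) := A.u_mid h1 h2
  have k1 : G.T (A.t (j - 1)) + A.r (j - 1) + A.s (j - 2) =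
      (G.S (A.s (j - 1)) + A.s (j - 2)) + A.u (j - 1) := by
    by_cases hj : 1 ≤ j
    · rw [A.Tt (j := j - 1) (by omega) (by omega), A.S_s (j := j - 1) (by omega) (by omega)]
      have e1 : j - 1 + 1 = j := by ring
      have e2 : j - 1 - 1 = j - 2 := by ring
      rw [e1, e2]
      abel
    · rw [A.t_out (j := j - 1) (by omega), A.r_out (by omega), A.s_out (j := j - 1) (by omega),
        A.u_out (j := j - 1) (by omega), map_zero, map_zero]
      abel
  have k2 : G.S (A.t (j + 1)) + A.r (j - 1) = G.T (A.s j) + A.u (j + 2) := by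
    by_cases hj : j < n
    · rw [A.St hn (j := j + 1) (by omega) (by omega), A.T_s (j := j) (by omega) (by omega)]
      have e1 : j + 1 - 1 = j := by ring
      have e2 : j + 1 + 1 = j + 2 := by ring
      rw [e1, e2]
      abel
    · rw [A.t_out (j := j + 1) (by omega), A.r_out (by omega), A.s_out (j := j) (by omega),
        A.u_out (j := j + 2) (by omega), map_zero, map_zero]
  have k1' : G.T (A.t (j - 1)) = G.S (A.s (j - 1)) + A.u (j - 1) - A.r (j - 1) := by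
    have := k1
    have h : G.T (A.t (j - 1)) + A.r (j - 1) = G.S (A.s (j - 1)) + A.u (j - 1) := by
      apply add_right_cancel (b := A.s (j - 2))
      rw [this]; abel
    rw [← h]; abel
  have k2' : G.S (A.t (j + 1)) = G.T (A.s j) + A.u (j + 2) - A.r (j - 1) := by
    rw [← k2]; abel
  rw [hu1, hu0]
  simp only [map_sub]
  rw [k1', k2', G.comm]
  abel

theorem ipE' (hG : A.Good) (a b c d : ℤ) : ip (A.E a b) (A.E c d) =
    if (0 ≤ a ∧ 0 ≤ b ∧ a + b ≤ n) ∧ a = c ∧ b = d then 1 else 0 := by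
  by_cases h1 : 0 ≤ a ∧ 0 ≤ b ∧ a + b ≤ n
  · by_cases h2 : 0 ≤ c ∧ 0 ≤ d ∧ c + d ≤ n
    · rw [hG.ip_E a b c d h1 h2]
      simp only [h1, true_and]
    · rw [A.E_out h2, ip_zero_right, if_neg]
      rintro ⟨_, rfl, rfl⟩
      exact h2 h1
  · rw [A.E_out h1, ip_zero_left, if_neg (fun h => h1 h.1)]

theorem E_isB (a b : ℤ) : A.E a b = 0 ∨ ∃ c, A.E a b = bv c := by
  unfold E
  split_ifs
  · exact Or.inr ⟨_, rfl⟩
  · exact Or.inl rfl

theorem le_of_ip {x p : G.B →₀ ℤ} (hx : 0 ≤ x) (hp : p = 0 ∨ ∃ c, p = bv c)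
    (h : p ≠ 0 → 1 ≤ ip x p) : p ≤ x := by
  rcases hp with rfl | ⟨c, rfl⟩
  · exact hx
  · have hne : (bv c : G.B →₀ ℤ) ≠ 0 := by
      intro h0
      have := congrArg (fun f => f c) h0
      simp [bv] at this
    have h1 := h hne
    rw [ip_bv_right] at h1
    intro a
    by_cases ha : c = a
    · subst ha
      simpa [bv] using h1
    · simpa [bv, Finsupp.single_apply, ha] using hx a

theorem ip_Tt' (hG : A.Good) {j : ℤ} (h1 : 0 ≤ j) (h2 : j ≤ n) (a b : ℤ) :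
    ip (G.T (A.t j)) (A.E a b) = ip (A.t (j + 1)) (A.E a b) + ip (A.s (j - 1)) (A.E a b) := by
  by_cases h0 : 0 ≤ a ∧ 0 ≤ b ∧ a + b ≤ n
  · by_cases h3 : a + b < n
    · rw [G.adjoint, A.S_E h0.1 h0.2.1 h3, ip_add_right, ip_add_right]
      unfold t s
      rw [A.ipE' hG, A.ipE' hG, A.ipE' hG, A.ipE' hG, A.ipE' hG]
      split_ifs <;> omega
    · have h4 : A.E a b = A.t b := by
        unfold t
        congr 1
        omega
      rw [h4, hG.ip_Tt j b h1 h2 h0.2.1 (by omega)]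
      unfold t s
      rw [A.ipE' hG, A.ipE' hG]
      split_ifs <;> omega
  · rw [A.E_out h0, ip_zero_right, ip_zero_right, ip_zero_right]
    rfl

theorem u_nonneg_mid (hG : A.Good) {j : ℤ} (h1 : 0 ≤ j) (h2 : j ≤ n) : 0 ≤ A.u j := by
  have hT : 0 ≤ G.T (A.t j) := G.T_pos (A.t_nonneg j)
  have ht1 : A.t (j + 1) ≤ G.T (A.t j) := by
    apply le_of_ip hT (A.E_isB _ _)
    intro hne
    have hj : j + 1 ≤ n := by
      by_contra hcon
      exact hne (A.t_out (by omega))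
    have := A.ip_Tt' hG h1 h2 (n - (j + 1)) (j + 1)
    show 1 ≤ ip (G.T (A.t j)) (A.E (n - (j + 1)) (j + 1))
    rw [this]
    unfold t s
    rw [A.ipE' hG, A.ipE' hG]
    split_ifs <;> omega
  have hd : 0 ≤ G.T (A.t j) - A.t (j + 1) := sub_nonneg.2 ht1
  have hs1 : A.s (j - 1) ≤ G.T (A.t j) - A.t (j + 1) := by
    apply le_of_ip hd (A.E_isB _ _)
    intro hne
    have hj : 1 ≤ j := by
      by_contra hcon
      exact hne (A.s_out (by omega))
    have := A.ip_Tt' hG h1 h2 (n - 1 - (j - 1)) (j - 1)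
    show 1 ≤ ip (G.T (A.t j) - A.t (j + 1)) (A.E (n - 1 - (j - 1)) (j - 1))
    rw [ip_sub_left, this]
    unfold t s
    rw [A.ipE' hG, A.ipE' hG]
    split_ifs <;> omega
  rw [A.u_mid h1 h2]
  exact sub_nonneg.2 hs1

theorem u_nonneg (hG : A.Good) (j : ℤ) : 0 ≤ A.u j := by
  by_cases h0 : 0 ≤ j ∧ j ≤ n
  · exact A.u_nonneg_mid hG h0.1 h0.2
  · by_cases h1 : j = n + 1
    · have hb := A.bar_u (by have := hG.hn; omega) 0
      have e : (n : ℤ) + 1 - 0 = n + 1 := by ring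
      rw [e] at hb
      rw [h1, ← hb]
      exact G.bar'_pos (A.u_nonneg_mid hG le_rfl (by omega))
    · rw [A.u_out (by omega)]

/-- level `n + 1` is orthogonal to all lower levels -/
theorem ip_u_E (hG : A.Good) (j a b : ℤ) : ip (A.u j) (A.E a b) = 0 := by
  have key : ∀ (j a b : ℤ), 0 ≤ j → j ≤ n → ip (A.u j) (A.E a b) = 0 := by
    intro j a b h1 h2
    rw [A.u_mid h1 h2, ip_sub_left, ip_sub_left, A.ip_Tt' hG h1 h2]
    ring
  by_cases h0 : 0 ≤ j ∧ j ≤ n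
  · exact key j a b h0.1 h0.2
  · by_cases h1 : j = n + 1
    · have hb := A.bar_u (by have := hG.hn; omega) 0
      have e : (n : ℤ) + 1 - 0 = n + 1 := by ring
      rw [e] at hb
      rw [h1, ← hb, G.ip_bar, A.bar_E]
      exact key 0 b a le_rfl (by omega)
    · rw [A.u_out (by omega), ip_zero_left]

theorem ip_u_shift (hG : A.Good) {i j : ℤ} (hi : 0 ≤ i) (hi' : i ≤ n) (hj : 0 ≤ j) (hj' : j ≤ n) :
    ip (A.u i) (A.u j) = ip (A.u (i + 1)) (A.u (j + 1)) := by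
  have hn2 : 2 ≤ n := by have := hG.hn; omega
  have h := G.normal (A.t i) (A.t j)
  rw [A.Tt hi hi', A.Tt hj hj', A.St hn2 hi hi', A.St hn2 hj hj'] at h
  have zE : ∀ k a b : ℤ, ip (A.E a b) (A.u k) = 0 := by
    intro k a b
    rw [ip_comm]; exact A.ip_u_E hG k a b
  simp only [ip_add_left, ip_add_right] at h
  simp only [t, s, A.ip_u_E hG, zE, A.ipE' hG] at h
  split_ifs at h <;> omega

end Arr
end Pool.Agent.Helper363.Nita
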