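import Pool.Agent.Helper363.Nita.PP

namespace Pool.Agent.Helper363.Nita

open Finsupp

variable {G : NG} {n : ℕ}

namespace Arr
variable (A : Arr G n)

theorem smul_bv_le {x : G.B →₀ ℤ} (hx : 0 ≤ x) (v : G.B) (k : ℤ) (h : k ≤ x v) :
    k • bv v ≤ x := by
  intro a
  by_cases ha : v = a
  · subst ha; simpa [bv] using h
  · simpa [bv, Finsupp.single_apply, ha] using hx a

theorem bv_nonneg_XX (c : G.B) : (0 : G.B →₀ ℤ) ≤ bv c := by
  intro a
  by_cases ha : c = a
  · subst ha; simp [bv]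
  · simp [bv, Finsupp.single_apply, ha]

/-- degree constraint: constituents of `u j` are joined to `t j` and `t (j - 1)` -/
theorem S_ge (hG : A.Good) {j : ℤ} (h1 : 0 ≤ j) (h2 : j ≤ n) (c : G.B) :
    (A.u j c) • A.t j ≤ G.S (bv c) := by
  obtain ⟨a', b', ha, hb, hab, hE⟩ := A.E_ex (a := n - j) (b := j) ⟨by omega, h1, by omega⟩
  have ht : A.t j = bv (A.V a' b') := hE
  rw [ht]
  apply smul_bv_le (G.S_pos (bv_nonneg_XX c))
  rw [← G.adj, ← ht, A.Tt h1 h2]
  have e1 := A.t_nonneg (j + 1) c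
  have e2 := A.s_nonneg (j - 1) c
  simp only [Finsupp.coe_zero, Pi.zero_apply] at e1 e2
  simp only [Finsupp.add_apply]
  linarith

theorem T_ge (hG : A.Good) {j : ℤ} (h1 : 1 ≤ j) (h2 : j ≤ n + 1) (c : G.B) :
    (A.u j c) • A.t (j - 1) ≤ G.T (bv c) := by
  obtain ⟨a', b', ha, hb, hab, hE⟩ :=
    A.E_ex (a := n - (j - 1)) (b := j - 1) ⟨by omega, by omega, by omega⟩
  have ht : A.t (j - 1) = bv (A.V a' b') := hE
  rw [ht]
  apply smul_bv_le (G.T_pos (bv_nonneg_XX c))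
  have hn := hG.hn
  rw [G.adj, ← ht, A.St (by omega) (by omega) (by omega)]
  have e1 := A.t_nonneg (j - 1 - 1) c
  have e2 := A.s_nonneg (j - 1) c
  simp only [Finsupp.coe_zero, Pi.zero_apply] at e1 e2
  have e3 : j - 1 + 1 = j := by ring
  rw [e3]
  simp only [Finsupp.add_apply]
  linarith

theorem two_dim (a b : ℤ) : 2 * dimZ a b = (a + 1) * (b + 1) * (a + b + 2) := by
  unfold dimZ
  have h : (2 : ℤ) ∣ (a + 1) * (b + 1) * (a + b + 2) := by
    have : (2 : ℤ) ∣ (a + 1) * (b + 1) * (a + b + 2) ↔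
      ((a + 1) * (b + 1) * (a + b + 2)) % 2 = 0 := by omega
    rw [this]
    rcases Int.emod_two_eq_zero_or_one a with ha | ha <;>
      rcases Int.emod_two_eq_zero_or_one b with hb | hb <;>
      simp [Int.add_emod, Int.mul_emod, ha, hb]
  omega

/-- upper bound for the degrees of constituents of `u 0` when `p ≥ 2` -/
theorem d_le_corner (hG : A.Good) (hp : 2 ≤ A.p) {c : G.B} (hc : A.u 0 c ≠ 0) :
    3 * G.d c ≤ (n + 2) * (n + 4) := by
  have hu := A.u_nonneg hG 0
  have hu0 := A.dg_u (j := 0) le_rfl (by positivity)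
  have ht0 := A.dg_t (j := 0) le_rfl (by positivity)
  have hd1 := two_dim ((n : ℤ) + 1 - 0) 0
  have hd2 := two_dim ((n : ℤ) - 0) 0
  rw [← hu0] at hd1
  rw [← ht0] at hd2
  have hc0 : 0 ≤ A.u 0 c := hu c
  have hnn : (0 : ℤ) ≤ n := by positivity
  have hdc := G.d_pos c
  by_cases h2 : 2 ≤ A.u 0 c
  · have h3 := G.mul_d_le_dg hu c
    nlinarith
  · have h1 : A.u 0 c = 1 := by omega
    -- the rest
    have hx : 0 ≤ A.u 0 - bv c := by
      intro a
      by_cases ha : c = a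
      · subst ha; simp [bv, h1]
      · simpa [bv, Finsupp.single_apply, ha] using hu a
    have hne : A.u 0 - bv c ≠ 0 := by
      intro h0
      have h4 : A.u 0 = bv c := sub_eq_zero.1 h0
      have h5 : A.p = 1 := by
        unfold p; rw [h4, ip_bv_self]
      omega
    obtain ⟨c', hc'⟩ := Finsupp.ne_iff.1 hne
    have hc'' : 1 ≤ (A.u 0 - bv c) c' := by
      have := hx c'
      simp only [Finsupp.coe_zero, Pi.zero_apply] at this hc'
      omega
    have hle : (A.u 0 - bv c) c' ≤ A.u 0 c' := by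
      have := bv_nonneg_XX (G := G) c c'
      simp only [Finsupp.coe_zero, Pi.zero_apply] at this
      simp only [Finsupp.sub_apply]
      linarith
    have h6 := G.mul_d_le_dg hx c'
    rw [G.dg_sub, G.dg_bv] at h6
    have hdc' := G.d_pos c'
    have h7 : G.d c' ≤ G.dg (A.u 0) - G.d c := by nlinarith
    have h8 := A.S_ge hG (j := 0) le_rfl (by positivity) c'
    have h9 := G.dg_mono h8
    rw [G.dg_smul, G.dg_S, G.dg_bv] at h9
    have h10 : 0 ≤ G.dg (A.t 0) := G.dg_nonneg (A.t_nonneg 0)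
    have h11 : G.dg (A.t 0) ≤ 3 * G.d c' := by nlinarith
    nlinarith

theorem e_key (hG : A.Good) (hp : 2 ≤ A.p) {k : ℤ} (h1 : 1 ≤ k) (h2 : k ≤ n)
    (h : ip (A.u 0) (A.u k) ≠ 0) :
    (k + 1) * (n + 1 - k) ≤ n + 7 := by
  have hu := A.u_nonneg hG 0
  have huk := A.u_nonneg hG k
  -- find c
  have hex : ∃ c, A.u 0 c ≠ 0 ∧ A.u k c ≠ 0 := by
    by_contra hno
    push Not at hno
    apply h
    unfold ip
    apply Finset.sum_eq_zero
    intro b hb
    have := hno b (Finsupp.mem_support_iff.1 hb)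
    simp [this]
  obtain ⟨c, hc0, hck⟩ := hex
  have hc0' : 1 ≤ A.u 0 c := by
    have := hu c
    simp only [Finsupp.coe_zero, Pi.zero_apply] at this
    omega
  have hck' : 1 ≤ A.u k c := by
    have := huk c
    simp only [Finsupp.coe_zero, Pi.zero_apply] at this
    omega
  have hS0 := A.S_ge hG (j := 0) le_rfl (by positivity) c
  have hSk := A.S_ge hG (j := k) (by omega) h2 c
  obtain ⟨a', b', ha, hb, hab, hE⟩ := A.E_ex (a := n - 0) (b := 0) ⟨by omega, le_rfl, by omega⟩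
  obtain ⟨a'', b'', ha2, hb2, hab2, hE2⟩ := A.E_ex (a := n - k) (b := k) ⟨by omega, by omega, by omega⟩
  have ht0 : A.t 0 = bv (A.V a' b') := hE
  have htk : A.t k = bv (A.V a'' b'') := hE2
  have hdist : A.V a' b' ≠ A.V a'' b'' := by
    intro heq
    have h3 := hG.ip_E (n - 0) 0 (n - k) k ⟨by omega, le_rfl, by omega⟩ ⟨by omega, by omega, by omega⟩
    rw [if_neg (by rintro ⟨-, h⟩; omega)] at h3
    rw [hE, hE2, heq, ip_bv_self] at h3
    exact one_ne_zero h3
  have hsum : A.t 0 + A.t k ≤ G.S (bv c) := by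
    intro y
    have hy := G.S_pos (bv_nonneg_XX c) y
    have hy0 := hS0 y
    have hyk := hSk y
    rw [ht0] at hy0 ⊢
    rw [htk] at hyk ⊢
    simp only [Finsupp.coe_zero, Pi.zero_apply, Finsupp.smul_apply, smul_eq_mul,
      Finsupp.add_apply] at hy hy0 hyk ⊢
    have f1 : ∀ v : G.B, (bv v : G.B →₀ ℤ) v = 1 := fun v => by simp [bv]
    have f0 : ∀ v w : G.B, v ≠ w → (bv v : G.B →₀ ℤ) w = 0 := fun v w hvw => by
      simp [bv, hvw]
    by_cases e1 : A.V a' b' = y
    · by_cases e2 : A.V a'' b'' = y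
      · exact absurd (e1.trans e2.symm) hdist
      · rw [f0 _ _ e2] at hyk ⊢
        rw [← e1] at hy0 ⊢
        rw [f1] at hy0 ⊢
        linarith
    · by_cases e2 : A.V a'' b'' = y
      · rw [f0 _ _ e1] at hy0 ⊢
        rw [← e2] at hyk ⊢
        rw [f1] at hyk ⊢
        linarith
      · rw [f0 _ _ e1, f0 _ _ e2]
        linarith
  have hdg := G.dg_mono hsum
  rw [G.dg_add, G.dg_S, G.dg_bv] at hdg
  have hc1 := A.d_le_corner hG hp hc0
  have hd0 := two_dim ((n : ℤ) - 0) 0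
  have hdk := two_dim ((n : ℤ) - k) k
  rw [← A.dg_t le_rfl (by positivity)] at hd0
  rw [← A.dg_t (by omega) h2] at hdk
  have hnn : (0 : ℤ) ≤ n := by positivity
  have key : ((n : ℤ) + 2) * ((k + 1) * (n + 1 - k)) ≤ (n + 2) * (n + 7) := by
    nlinarith
  exact le_of_mul_le_mul_left key (by linarith)

theorem e_grade (hG : A.Good) {k : ℤ} (h : ip (A.u 0) (A.u k) ≠ 0) : (3 : ℤ) ∣ k := by
  by_contra hk
  apply h
  apply G.ip_grade (A.Gr_u 0) (A.Gr_u k)
  intro heq
  have h1 : ((2 * k : ℤ) : ZMod 3) = 0 := by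
    push_cast at heq ⊢
    linear_combination heq
  have h2 := (ZMod.intCast_zmod_eq_zero_iff_dvd (2 * k) 3).1 h1
  push_cast at h2
  omega

theorem e_low (hG : A.Good) (hp : 2 ≤ A.p) (hn : 6 ≤ n) {k : ℤ} (h1 : 1 ≤ k) (h2 : k ≤ n - 2) :
    ip (A.u 0) (A.u k) = 0 := by
  by_contra h
  have h3 := A.e_grade hG h
  have h4 := A.e_key hG hp h1 (by omega) h
  have h5 : 3 ≤ k := by omega
  have hn' : (6 : ℤ) ≤ n := by exact_mod_cast hn
  nlinarith [mul_nonneg (by linarith : (0 : ℤ) ≤ k - 3) (by linarith : (0 : ℤ) ≤ n - 2 - k)]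

theorem e_pred (hG : A.Good) (hp : 2 ≤ A.p) (hn : 8 ≤ n) :
    ip (A.u 0) (A.u (n - 1)) = 0 := by
  by_contra h
  have hn' : (8 : ℤ) ≤ n := by exact_mod_cast hn
  have h4 := A.e_key hG hp (k := n - 1) (by omega) (by omega) h
  nlinarith

end Arr
end Pool.Agent.Helper363.Nita
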